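import Pool.Graph.R_seed8.TH719.ED.Rel

/-!
# Groups with ET0L word problem: definitions (helper724)
-/

set_option autoImplicit false

namespace Pool.Agent.H724.EZ

open Pool.Agent.TH719.ED

/-- `v` arises from `u` by one application of the table `P j`: all letters of `u` are rewritten in
parallel, the letter `a` by any word of the finite set `P j a`, with independent choices. -/
def Step {A J : Type} (P : J → A → Finset (List A)) (j : J) (u v : List A) : Prop :=
  ∃ ch : List (List A), List.Forall₂ (fun a α => α ∈ P j a) u ch ∧ v = ch.flatten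

/-- `v` arises from `u` by applying the tables `js`, one after the other. -/
def Der {A J : Type} (P : J → A → Finset (List A)) : List J → List A → List A → Prop
  | [], u, v => u = v
  | j :: js, u, v => ∃ x, Step P j u x ∧ Der P js x v

/-- The list of segments `(a, s, e)` is consecutive, from position `s` to position `e`. -/
def SegCh {A : Type} : List (A × ℕ × ℕ) → ℕ → ℕ → Prop
  | [], s, e => s = e
  | σ :: l, s, e => σ.2.1 = s ∧ s ≤ σ.2.2 ∧ SegCh l σ.2.2 e

/-- a segment is long if its block number grows by at least 2 -/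
def Lng {A : Type} (bk : ℕ → ℕ) (σ : A × ℕ × ℕ) : Bool := decide (bk σ.2.1 + 2 ≤ bk σ.2.2)

/-- the segment, marked and coloured -/
def colr {A G : Type} (Λ : A × ℕ × ℕ → Bool) (κ : ℕ → G) (σ : A × ℕ × ℕ) : A × Bool × G × G :=
  (σ.1, Λ σ, κ σ.2.1, κ σ.2.2)

/-- the coloured word starts with colour `x`, ends with colour `y`, and its colours match -/
def ChnR {A G : Type} : List (A × Bool × G × G) → G → G → Prop
  | [], x, y => x = y
  | a :: v, x, y => a.2.2.1 = x ∧ ChnR v a.2.2.2 y

/-- the marked coloured words which are realised as pasts, with at most `r` marked letters -/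
def Past {A J G : Type} [Group G] (P : J → A → Finset (List A)) (ω : List A) (Q0 : Set G) (r : ℕ)
    (x : List (A × Bool × G × G)) : Prop :=
  (∃ js : List J, Der P js ω (x.map Prod.fst)) ∧ ChnR x 1 1 ∧
    (∀ a ∈ x, a.2.2.1 ∈ Q0 ∧ a.2.2.2 ∈ Q0) ∧ (x.filter (fun a => a.2.1)).length ≤ r

/-- the type of a marked coloured word: its set of letters and its list of marked letters -/
def keyR {A G : Type} (x : List (A × Bool × G × G)) :
    Set (A × Bool × G × G) × List (A × Bool × G × G) :=
  ({a | a ∈ x}, x.filter (fun a => a.2.1))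

/-- A derivation of `V` from `ω` with the tables `js`, seen as a sequence `F t` of consecutive
segmentations of the positions of `V`. -/
structure Timed {A J : Type} (P : J → A → Finset (List A)) (D : ℕ) (ω : List A) (js : List J)
    (V : List A) (F : ℕ → List (A × ℕ × ℕ)) : Prop where
  seg : ∀ t, SegCh (F t) 0 V.length
  past : ∀ t, Der P (js.take t) ω ((F t).map Prod.fst)
  fut : ∀ t, ∀ σ ∈ F t, Der P (js.drop t) [σ.1] ((V.drop σ.2.1).take (σ.2.2 - σ.2.1))
  ref : ∀ t, ∃ R : List (List (A × ℕ × ℕ)),
    List.Forall₂ (fun σ ρ => SegCh ρ σ.2.1 σ.2.2 ∧ ρ.length ≤ D) (F t) R ∧ F (t + 1) = R.flatten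

/-- the block `y^(n i) e_i` -/
def blkW {G : Type} (yw : List G) (n : ℕ → ℕ) (ew : ℕ → List G) (i : ℕ) : List G :=
  (List.replicate (n i) yw).flatten ++ ew i

/-- the list of the first `m` blocks -/
def Csl {G : Type} (yw : List G) (n : ℕ → ℕ) (ew : ℕ → List G) (m : ℕ) : List (List G) :=
  (List.range m).map (blkW yw n ew)

/-- The word problem of `G` with respect to the finite set `X` is ET0L: there is an ET0L system with
finite alphabet `A`, finitely many tables `P j`, each assigning to every letter a nonempty finite set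
of words, and start word `ω`, and an injective naming `ι` of the letters of `X ∪ X⁻¹` by letters of
`A`, such that a word over `X ∪ X⁻¹` represents `1` exactly when it is generated by the system. -/
def ET0LWordProblem (G : Type) [Group G] (X : Finset G) : Prop :=
  ∃ (A : Type) (_ : Fintype A) (J : Type) (_ : Fintype J)
    (ι : G → A) (ω : List A) (P : J → A → Finset (List A)),
    (∀ j a, (P j a).Nonempty) ∧ Set.InjOn ι {x : G | x ∈ X ∨ x⁻¹ ∈ X} ∧
    ∀ w : List G, (∀ x ∈ w, x ∈ X ∨ x⁻¹ ∈ X) →
      (w.prod = 1 ↔ ∃ js : List J, Der P js ω (w.map ι))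

end Pool.Agent.H724.EZ
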