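import Pool.Agent.H724.EZ.Stm2

/-!
# Project EZ (helper724): ALIGN and KEYFIN (helper92)
-/

set_option autoImplicit false

namespace Pool.Agent.H92.EZAlign

open Pool.Agent.H724.EZ

/-- ALIGN. -/
theorem align : S_ALIGN := by
  intro S C col mark v
  induction v with
  | nil =>
    intro l Sg h1 _ _
    have h2 : l = [] := by
      rw [List.filter_nil] at h1
      exact List.map_eq_nil_iff.mp h1.symm
    subst h2
    exact ⟨[], rfl, rfl, fun s hs => absurd hs List.not_mem_nil⟩
  | cons x v ih =>
    intro l Sg h1 h2 h3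
    by_cases hx : mark x = true
    · rw [List.filter_cons_of_pos hx] at h1
      cases l with
      | nil =>
        rw [List.map_nil] at h1
        exact absurd h1 (List.cons_ne_nil _ _)
      | cons s l' =>
        rw [List.map_cons, List.cons.injEq] at h1
        obtain ⟨h4, h5⟩ := h1
        obtain ⟨gs, g1, g2, g3⟩ := ih l' Sg h5 (fun s' hs' => h2 s' (List.mem_cons_of_mem _ hs'))
          (fun a ha hm => h3 a (List.mem_cons_of_mem _ ha) hm)
        refine ⟨s :: gs, ?_, ?_, ?_⟩
        · rw [List.map_cons, g1, ← h4]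
        · rw [List.filter_cons_of_pos (by rw [← h4]; exact hx), g2]
        · intro s' hs'
          rcases List.mem_cons.mp hs' with h | h
          · rw [h]
            exact h2 s List.mem_cons_self
          · exact g3 s' h
    · rw [List.filter_cons_of_neg hx] at h1
      obtain ⟨gs, g1, g2, g3⟩ := ih l Sg h1 h2
        (fun a ha hm => h3 a (List.mem_cons_of_mem _ ha) hm)
      obtain ⟨s, hs, hsx⟩ := h3 x List.mem_cons_self (by simpa using hx)
      refine ⟨s :: gs, ?_, ?_, ?_⟩
      · rw [List.map_cons, g1, hsx]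
      · rw [List.filter_cons_of_neg (by rw [hsx]; exact hx), g2]
      · intro s' hs'
        rcases List.mem_cons.mp hs' with h | h
        · rw [h]
          exact hs
        · exact g3 s' h

/-- The lists of length at most `r` over a finite set form a finite set. -/
theorem finite_lists {α : Type} (T : Set α) (hT : T.Finite) (r : ℕ) :
    {l : List α | l.length ≤ r ∧ ∀ a ∈ l, a ∈ T}.Finite := by
  have : Finite T := hT
  refine ((List.finite_length_le T r).image (List.map Subtype.val)).subset ?_
  rintro l ⟨h1, h2⟩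
  refine ⟨l.attach.map (fun a => ⟨a.1, h2 a.1 a.2⟩), ?_, ?_⟩
  · show (l.attach.map _).length ≤ r
    rw [List.length_map, List.length_attach]
    exact h1
  · rw [List.map_map]
    exact List.attach_map_subtype_val l

/-- KEY-FIN. -/
theorem keyfin : S_KEYFIN := by
  intro A J G _ _ P ω Q0 hQ r
  have hT : ((Set.univ : Set A) ×ˢ ((Set.univ : Set Bool) ×ˢ (Q0 ×ˢ Q0))).Finite :=
    Set.finite_univ.prod (Set.finite_univ.prod (hQ.prod hQ))
  refine ((Set.Finite.finite_subsets hT).prod (finite_lists _ hT r)).subset ?_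
  rintro k ⟨x, hx, rfl⟩
  obtain ⟨_, _, h4, h5⟩ := hx
  refine ⟨?_, h5, ?_⟩
  · intro a ha
    exact ⟨Set.mem_univ _, Set.mem_univ _, h4 a ha⟩
  · intro a ha
    exact ⟨Set.mem_univ _, Set.mem_univ _, h4 a (List.mem_filter.mp ha).1⟩

end Pool.Agent.H92.EZAlign
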