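import Pool.Agent.H724.EZ.Stm2

set_option autoImplicit false

namespace Pool.Agent.H83.EZ

open Pool.Agent.H724.EZ Pool.Agent.TH719.ED

theorem prod_rep {G : Type} [Group G] (u : List G) (N : ℕ) :
    ((List.replicate N u).flatten).prod = u.prod ^ N := by
  rw [List.prod_flatten, List.map_replicate, List.prod_replicate]

theorem blkprod : S_BLKPROD := by
  intro G H _ _ j y hy yw hyw n ew el p N' hew
  have hc : ∀ (x : H) (k : ℕ), x * y ^ k = y ^ k * x := fun x k =>
    (Commute.pow_right (show Commute x y from hy x) k).eq
  have key : ∀ q, q ≤ p → (Csl yw n ew q).flatten.prod =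
      j (((List.range q).map el).prod * y ^ (∑ k ∈ Finset.range q, n k)) := by
    intro q
    induction q with
    | zero => intro _; simp [Csl]
    | succ q ih =>
      intro hq
      have h1 : Csl yw n ew (q + 1) = Csl yw n ew q ++ [blkW yw n ew q] := by
        unfold Csl
        rw [List.range_succ, List.map_append, List.map_singleton]
      rw [h1, List.flatten_append, List.prod_append, ih (by omega), List.flatten_singleton]
      unfold blkW
      rw [List.prod_append, prod_rep, hyw, hew q (by omega), ← map_pow, ← map_mul, ← map_mul,
        List.range_succ, List.map_append, List.map_singleton, List.prod_append,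
        List.prod_singleton, Finset.sum_range_succ, pow_add]
      congr 1
      have h2 := hc (el q) (n q)
      have h3 := hc (el q) (∑ k ∈ Finset.range q, n k)
      calc ((List.range q).map el).prod * y ^ (∑ k ∈ Finset.range q, n k) *
            (y ^ n q * el q)
          = ((List.range q).map el).prod * y ^ (∑ k ∈ Finset.range q, n k) *
            (el q * y ^ n q) := by rw [h2]
        _ = ((List.range q).map el).prod * (y ^ (∑ k ∈ Finset.range q, n k) * el q) *
              y ^ n q := by simp only [mul_assoc]
        _ = ((List.range q).map el).prod * (el q * y ^ (∑ k ∈ Finset.range q, n k)) *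
              y ^ n q := by rw [h3]
        _ = _ := by simp only [mul_assoc]
  rw [List.prod_append, key p le_rfl, prod_rep, hyw, ← map_pow, ← map_mul, pow_add, mul_assoc]

theorem reppre : S_REPPRE := by
  intro G u K
  induction K with
  | zero =>
    intro z
    refine ⟨0, 0, le_rfl, ?_, fun _ => ⟨rfl, rfl⟩⟩
    simp
  | succ K ih =>
    intro z
    rcases Nat.lt_or_ge z u.length with hz | hz
    · refine ⟨0, z, Nat.zero_le _, ?_, ?_⟩
      · rw [List.replicate_succ, List.flatten_cons, List.take_append_of_le_length hz.le]
        simp
      · intro h
        rw [List.replicate_succ, List.flatten_cons, List.length_append] at h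
        omega
    · obtain ⟨a, b, ha, hab, himp⟩ := ih (z - u.length)
      refine ⟨a + 1, b, by omega, ?_, ?_⟩
      · rw [List.replicate_succ, List.flatten_cons, List.take_append, List.take_of_length_le hz,
          hab, List.replicate_succ, List.flatten_cons, List.append_assoc]
      · intro h
        rw [List.replicate_succ, List.flatten_cons, List.length_append] at h
        obtain ⟨h1, h2⟩ := himp (by omega)
        exact ⟨by omega, h2⟩

end Pool.Agent.H83.EZ
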