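import Pool.Agent.H724.EZ.Stm2

set_option autoImplicit false

namespace Pool.Agent.H646.EZCHNPROD

open Pool.Agent.TH719.ED Pool.Agent.H724.EZ

theorem chnprod : S_CHNPROD := by
  intro A G H _ _ j W h κ hκ Λ gs
  induction gs with
  | nil =>
    intro _ x y hv
    rw [List.map_nil, ChnR] at hv
    simp [hv]
  | cons a v ih =>
    intro hg x y hv
    rw [List.map_cons, ChnR] at hv
    obtain ⟨h1, h2⟩ := hv
    obtain ⟨h3, h4⟩ := hg a (by simp)
    simp only [colr] at h1 h2
    have h5 := ih (fun s hs => hg s (by simp [hs])) _ y h2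
    rw [List.flatMap_cons, List.prod_append, h5,
      prod_sub _ _ h3, hκ _ h4, hκ _ (h3.trans h4), ← h1, List.map_cons, List.prod_cons,
      map_mul, map_mul, map_inv]
    group

end Pool.Agent.H646.EZCHNPROD
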