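import Pool.Agent.H724.EZ.Stm2

/-!
# No subgroup `ℤ × ℤ` (COR of project EZ of helper724)
-/

set_option autoImplicit false

namespace Pool.Agent.H356.EZ

open Pool.Agent.H724.EZ

theorem cor : S_COR := by
  intro G _ hmain hex
  obtain ⟨f, hf⟩ := hex
  set y : G := f (Multiplicative.ofAdd ((1 : ℤ), (0 : ℤ))) with hy
  set z : G := f (Multiplicative.ofAdd ((0 : ℤ), (1 : ℤ))) with hz
  have hcl : Subgroup.closure ({y, z} : Set G) ≤ f.range := by
    rw [Subgroup.closure_le]
    intro x hx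
    rcases hx with rfl | hx
    · exact ⟨_, rfl⟩
    · rw [Set.mem_singleton_iff] at hx
      subst hx
      exact ⟨_, rfl⟩
  have hyH : y ∈ Subgroup.closure ({y, z} : Set G) :=
    Subgroup.subset_closure (Set.mem_insert _ _)
  have hzH : z ∈ Subgroup.closure ({y, z} : Set G) :=
    Subgroup.subset_closure (Set.mem_insert_of_mem _ rfl)
  have hfg : (Subgroup.closure ({y, z} : Set G)).FG := by
    rw [Subgroup.fg_iff]
    exact ⟨{y, z}, rfl, Set.toFinite _⟩
  have hcomm : ∀ x ∈ Subgroup.closure ({y, z} : Set G), x * y = y * x := by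
    intro x hx
    obtain ⟨b, rfl⟩ := hcl hx
    rw [hy, ← map_mul, ← map_mul, mul_comm]
  have hord : ¬ IsOfFinOrder y := by
    rw [isOfFinOrder_iff_pow_eq_one]
    rintro ⟨n, hn, hn1⟩
    rw [hy, ← map_pow, ← map_one f] at hn1
    have h1 := hf hn1
    have h2 := congrArg Multiplicative.toAdd h1
    have h3 := congrArg Prod.fst h2
    simp at h3
    omega
  have hrel := hmain _ hfg y hyH hcomm hord
  obtain ⟨n, hn0, -, hn⟩ := Subgroup.exists_pow_mem_of_relIndex_ne_zero hrel hzH
  have hn' := (Subgroup.mem_inf.1 hn).1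
  obtain ⟨k, hk⟩ := Subgroup.mem_zpowers_iff.1 hn'
  rw [hy, hz, ← map_zpow, ← map_pow] at hk
  have h1 := hf hk
  have h2 := congrArg Multiplicative.toAdd h1
  have h3 := congrArg Prod.snd h2
  simp at h3
  omega

end Pool.Agent.H356.EZ
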