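import Pool.Agent.H724.EZ.Stm2

set_option autoImplicit false

namespace Pool.Agent.H784.EZC

open Pool.Agent.H724.EZ

theorem count : S_COUNT := by
  classical
  intro hSB A _ bk m z1 hm hz1 Sg e hch H
  obtain ⟨-, -, hpw, -, -⟩ := hSB Sg 0 e hch
  have hLpw : (Sg.filter (Lng bk)).Pairwise (fun σ τ => σ.2.2 ≤ τ.2.1) := hpw.filter _
  have hmem : ∀ σ ∈ Sg.filter (Lng bk), σ ∈ Sg ∧ Lng bk σ = true := fun σ h => List.mem_filter.1 h
  generalize Sg.filter (Lng bk) = L at hLpw hmem
  have h1 : (L.filter fun σ => decide (σ.2.2 ≤ z1)).length ≤ Fintype.card A := by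
    have h2 : ((L.filter fun σ => decide (σ.2.2 ≤ z1)).map Prod.fst).Nodup := by
      rw [List.Nodup, List.pairwise_map]
      refine List.Pairwise.imp_of_mem ?_ (hLpw.filter _)
      intro σ τ hσ hτ h3
      rw [List.mem_filter, decide_eq_true_iff] at hσ hτ
      exact H σ (hmem σ hσ.1).1 τ (hmem τ hτ.1).1 h3 hτ.2 (hmem σ hσ.1).2 (hmem τ hτ.1).2
    have h3 := h2.length_le_card
    rwa [List.length_map] at h3
  have h2 : (L.filter fun σ => !decide (σ.2.2 ≤ z1)).length ≤ 1 := by
    have h3 : (L.filter fun σ => !decide (σ.2.2 ≤ z1)).Pairwise (fun σ τ => σ.2.2 ≤ τ.2.1) :=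
      hLpw.filter _
    have h4 : ∀ σ ∈ L.filter (fun σ => !decide (σ.2.2 ≤ z1)), z1 < σ.2.2 ∧ σ.2.1 < z1 := by
      intro σ hσ
      rw [List.mem_filter, Bool.not_eq_true', decide_eq_false_iff_not, not_le] at hσ
      refine ⟨hσ.2, ?_⟩
      by_contra hcon
      rw [not_lt] at hcon
      have h5 := (hmem σ hσ.1).2
      unfold Lng at h5
      rw [decide_eq_true_iff, hz1 _ hcon] at h5
      have h6 := hm σ.2.2
      omega
    generalize L.filter (fun σ => !decide (σ.2.2 ≤ z1)) = M at h3 h4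
    match M, h3, h4 with
    | [], _, _ => exact Nat.zero_le _
    | [_], _, _ => exact le_rfl
    | σ :: τ :: l, h3, h4 =>
      exfalso
      have h5 : σ.2.2 ≤ τ.2.1 := (List.pairwise_cons.1 h3).1 τ (List.mem_cons_self)
      have h6 := h4 σ (List.mem_cons_self)
      have h7 := h4 τ (List.mem_cons_of_mem _ List.mem_cons_self)
      omega
  have h3 := List.length_eq_length_filter_add (l := L) (fun σ => decide (σ.2.2 ≤ z1))
  omega

end Pool.Agent.H784.EZC
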