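import Pool.Agent.H724.EZ.Stm2

/-!
# Derivations: append and side by side (helper103, for project EZ of helper724)
-/

set_option autoImplicit false

namespace Pool.Agent.H103.EZ_DER

open Pool.Agent.H724.EZ

theorem derapp : Pool.Agent.H724.EZ.S_DERAPP := by
  intro A J P js1 js2 u v
  induction js1 generalizing u with
  | nil =>
    constructor
    · intro h
      exact ⟨u, rfl, h⟩
    · rintro ⟨x, hx, h⟩
      have hx' : u = x := hx
      rw [hx']
      exact h
  | cons j js1 ih =>
    constructor
    · rintro ⟨x, hx, h⟩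
      obtain ⟨y, hy, h'⟩ := (ih x).1 h
      exact ⟨y, ⟨x, hx, hy⟩, h'⟩
    · rintro ⟨y, ⟨x, hx, hy⟩, h'⟩
      exact ⟨x, hx, (ih x).2 ⟨y, hy, h'⟩⟩

theorem step_append {A J : Type} (P : J → A → Finset (List A)) (j : J) {u v u' v' : List A}
    (h : Step P j u v) (h' : Step P j u' v') : Step P j (u ++ u') (v ++ v') := by
  obtain ⟨ch, h1, h2⟩ := h
  obtain ⟨ch', h1', h2'⟩ := h'
  exact ⟨ch ++ ch', List.rel_append h1 h1', by rw [h2, h2', List.flatten_append]⟩

theorem der_append {A J : Type} (P : J → A → Finset (List A)) (js : List J) {u v u' v' : List A}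
    (h : Der P js u v) (h' : Der P js u' v') : Der P js (u ++ u') (v ++ v') := by
  induction js generalizing u u' with
  | nil =>
    have e : u = v := h
    have e' : u' = v' := h'
    rw [e, e']
    rfl
  | cons j js ih =>
    obtain ⟨x, hx, h⟩ := h
    obtain ⟨x', hx', h'⟩ := h'
    exact ⟨x ++ x', step_append P j hx hx', ih h h'⟩

theorem der_nil {A J : Type} (P : J → A → Finset (List A)) (js : List J) : Der P js [] [] := by
  induction js with
  | nil => rfl
  | cons j js ih => exact ⟨[], ⟨[], List.Forall₂.nil, rfl⟩, ih⟩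

theorem derflat : Pool.Agent.H724.EZ.S_DERFLAT := by
  intro A J P js l
  induction l with
  | nil => exact fun _ => der_nil P js
  | cons p l ih =>
    intro h
    have h1 := h p (List.mem_cons_self ..)
    have h2 := ih fun q hq => h q (List.mem_cons_of_mem _ hq)
    have h3 := der_append P js h1 h2
    simpa using h3

end Pool.Agent.H103.EZ_DER
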