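import Pool.Agent.H724.EZ.Stm2

/-!
# Equal letters have equal values
-/

set_option autoImplicit false

namespace Pool.Agent.H401.EZ

open Pool.Agent.TH719.ED Pool.Agent.H724.EZ

theorem mem_sub {A G : Type} (W : List G) (σ : A × ℕ × ℕ) (x : G) (hx : x ∈ sub W σ) : x ∈ W := by
  unfold sub at hx
  exact List.mem_of_mem_drop (List.mem_of_mem_take hx)

theorem key (h1 : S_DERAPP) (h2 : S_DERFLAT) {A J G : Type} [Group G] (P : J → A → Finset (List A))
    (ω : List A) (ι : G → A) (W : List G) (X : Set G) (hX : ∀ x ∈ W, x ∈ X)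
    (hP : ∀ w : List G, (∀ x ∈ w, x ∈ X) → (∃ js : List J, Der P js ω (w.map ι)) → w.prod = 1)
    (js1 js2 : List J) (Sg : List (A × ℕ × ℕ)) (hd : Der P js1 ω (Sg.map Prod.fst))
    (hs : ∀ σ ∈ Sg, Der P js2 [σ.1] ((sub W σ).map ι)) (gs : List (A × ℕ × ℕ))
    (hg : ∀ s ∈ gs, s ∈ Sg) (hf : gs.map Prod.fst = Sg.map Prod.fst) :
    (gs.flatMap (sub W)).prod = 1 := by
  apply hP
  · intro x hx
    rw [List.mem_flatMap] at hx
    obtain ⟨s, _, hx⟩ := hx
    exact hX x (mem_sub W s x hx)
  · refine ⟨js1 ++ js2, ?_⟩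
    rw [h1 P js1 js2]
    refine ⟨Sg.map Prod.fst, hd, ?_⟩
    have h3 := h2 P js2 (gs.map (fun s => (s.1, (sub W s).map ι))) (by
      intro p hp
      rw [List.mem_map] at hp
      obtain ⟨s, hs1, rfl⟩ := hp
      exact hs s (hg s hs1))
    have e1 : (gs.map (fun s => (s.1, (sub W s).map ι))).map Prod.fst = gs.map Prod.fst := by
      rw [List.map_map]
      rfl
    have e2 : ((gs.map (fun s => (s.1, (sub W s).map ι))).map Prod.snd).flatten =
        (gs.flatMap (sub W)).map ι := by
      rw [List.map_map, List.map_flatMap, List.flatMap_def]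
      rfl
    rw [e1, e2, hf] at h3
    exact h3

theorem equal : S_EQUAL := by
  rintro ⟨h1, h2, -⟩ A J G _ P ω ι W X hX hP js1 js2 Sg _ hd hs σ σ' hσ hσ' he
  obtain ⟨l1, l2, hl⟩ := List.append_of_mem hσ'
  have k1 := key h1 h2 P ω ι W X hX hP js1 js2 Sg hd hs Sg (fun _ h => h) rfl
  have k2 := key h1 h2 P ω ι W X hX hP js1 js2 Sg hd hs (l1 ++ σ :: l2) (by
    intro s h
    rw [hl]
    rw [List.mem_append, List.mem_cons] at h
    rw [List.mem_append, List.mem_cons]
    rcases h with h | h | h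
    · exact Or.inl h
    · rw [h, ← List.mem_cons, ← List.mem_append, ← hl]
      exact hσ
    · exact Or.inr (Or.inr h)) (by
    rw [hl, List.map_append, List.map_append, List.map_cons, List.map_cons, he])
  rw [hl] at k1
  rw [List.flatMap_append, List.flatMap_cons, List.prod_append, List.prod_append] at k1 k2
  have h3 := k2.trans k1.symm
  exact mul_right_cancel (mul_left_cancel h3)

end Pool.Agent.H401.EZ
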