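import Pool.Agent.H724.EZ.Stm2

set_option autoImplicit false

namespace Pool.Agent.H194.EZ

open Pool.Agent.H724.EZ

theorem fast : S_FAST := by
  intro G _ g hg Φ hΦ
  classical
  have hF : ∀ s : ℕ, ∃ N : ℕ, ∀ b, N ≤ b → ∀ a ≤ s, ∀ c ∈ Φ, ∀ d ∈ Φ, g ^ b ≠ c * g ^ a * d := by
    intro s
    have hT : (⋃ a ∈ Set.Iic s, (fun p : G × G => p.1 * g ^ a * p.2) '' (Φ ×ˢ Φ)).Finite :=
      (Set.finite_Iic s).biUnion (fun a _ => (hΦ.prod hΦ).image _)
    have hinj : Function.Injective (fun n : ℕ => g ^ n) := injective_pow_iff_not_isOfFinOrder.2 hg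
    have hpre := hT.preimage (hinj.injOn (s := (fun n : ℕ => g ^ n) ⁻¹'
      (⋃ a ∈ Set.Iic s, (fun p : G × G => p.1 * g ^ a * p.2) '' (Φ ×ˢ Φ))))
    obtain ⟨N, hN⟩ := hpre.bddAbove
    refine ⟨N + 1, fun b hb a ha c hc d hd h => ?_⟩
    have h1 : b ∈ (fun n : ℕ => g ^ n) ⁻¹'
        (⋃ a ∈ Set.Iic s, (fun p : G × G => p.1 * g ^ a * p.2) '' (Φ ×ˢ Φ)) :=
      Set.mem_biUnion (show a ∈ Set.Iic s from ha) ⟨(c, d), ⟨hc, hd⟩, h.symm⟩
    have := hN h1
    omega
  choose F hF using hF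
  let st : ℕ → ℕ × ℕ := fun i => Nat.rec (1, 1)
    (fun _ p => (max p.1 (F p.2), p.2 + max p.1 (F p.2))) i
  have st0 : st 0 = (1, 1) := rfl
  have st1 : ∀ i, st (i + 1) = (max (st i).1 (F (st i).2), (st i).2 + max (st i).1 (F (st i).2)) :=
    fun i => rfl
  have hs : ∀ i, (st i).2 = ∑ k ∈ Finset.range (i + 1), (st k).1 := by
    intro i
    induction i with
    | zero => simp [st0]
    | succ i ih =>
      rw [Finset.sum_range_succ, ← ih, st1]
  have hm : Monotone fun i => (st i).1 := by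
    refine monotone_nat_of_le_succ fun i => ?_
    rw [st1]
    exact le_max_left _ _
  refine ⟨fun i => (st i).1, fun i => ?_, hm, ?_⟩
  · have h1 : (st 0).1 ≤ (st i).1 := hm (Nat.zero_le i)
    exact h1
  · intro i a b hb ha c hc d hd
    refine hF (st i).2 b ?_ a ?_ c hc d hd
    · have h2 : F (st i).2 ≤ (st (i + 1)).1 := by
        rw [st1]
        exact le_max_right _ _
      exact h2.trans hb
    · rw [hs]
      exact ha

end Pool.Agent.H194.EZ
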