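import Pool.Agent.H724.EZ.Stm2
import Pool.Graph.R_seed8.TH719.ED.Main

/-!
# Groups with ET0L word problem: from sweeps to finite index (helper628 for helper724)
-/

set_option autoImplicit false

namespace Pool.Agent.H628.EZ

open Pool.Agent.H724.EZ
open Pool.Agent.TH719.ED

/-- a finitely generated group in which all closed paths can be swept is finite -/
theorem finite_of_sweeps (Q : Type) [Group Q] [Group.FG Q]
    (hsw : ∀ E : Finset Q, Sweepable (E : Set Q)) : Finite Q := by
  classical
  obtain ⟨X, hX⟩ := (Group.fg_def (G := Q)).1 inferInstance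
  have htor : ∀ g : Q, IsOfFinOrder g := fun g => torsion_of_sweepable g (by
    have := hsw {1, g, g⁻¹}
    simpa using this)
  obtain ⟨S, hS⟩ : ∃ S : Finset Q, S = X ∪ X.image (fun x => x⁻¹) := ⟨_, rfl⟩
  have hSi : ∀ x ∈ S, x⁻¹ ∈ S := by
    intro x hx
    rw [hS] at hx ⊢
    rcases Finset.mem_union.1 hx with hx | hx
    · exact Finset.mem_union_right _ (Finset.mem_image_of_mem _ hx)
    · obtain ⟨y, hy, rfl⟩ := Finset.mem_image.1 hx
      rw [inv_inv]
      exact Finset.mem_union_left _ hy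
  have hSgen : Subgroup.closure (S : Set Q) = ⊤ := by
    rw [eq_top_iff, ← hX, hS]
    refine Subgroup.closure_mono ?_
    intro x hx
    exact Finset.mem_union_left _ hx
  exact finite_of_poly S hSi hSgen htor (growth_of_sweepable S hSi (hsw S))

theorem final : S_FINAL := by
  intro hSW G _ X hgen hET H hH y hy hc hfin
  obtain ⟨A, _, J, _, ι, ω, P, hne, hι, hL⟩ := hET
  have hword : ∀ g : G, ∃ w : List G, (∀ x ∈ w, x ∈ {x : G | x ∈ X ∨ x⁻¹ ∈ X}) ∧ w.prod = g :=
    exists_word X hgen
  obtain ⟨y', hy'⟩ : ∃ y' : H, (y' : G) = y := ⟨⟨y, hy⟩, rfl⟩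
  have hc' : ∀ x : H, x * y' = y' * x := by
    intro x
    apply Subtype.ext
    rw [Subgroup.coe_mul, Subgroup.coe_mul, hy']
    exact hc x x.2
  have hfin' : ¬ IsOfFinOrder y' := by
    intro h
    apply hfin
    rw [← hy']
    exact H.subtype.isOfFinOrder h
  have hN : (Subgroup.zpowers y').Normal := by
    constructor
    intro n hn g
    obtain ⟨k, rfl⟩ := Subgroup.mem_zpowers_iff.1 hn
    have h1 : g * y' ^ k * g⁻¹ = y' ^ k := by
      have h2 : Commute g (y' ^ k) := (show Commute g y' from hc' g).zpow_right k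
      rw [h2.eq, mul_inv_cancel_right]
    rw [h1]
    exact Subgroup.zpow_mem_zpowers y' k
  have hfg : Group.FG H := (Group.fg_iff_subgroup_fg H).2 hH
  have hfgQ : Group.FG (H ⧸ Subgroup.zpowers y') := QuotientGroup.fg _
  have hsw : ∀ E : Finset (H ⧸ Subgroup.zpowers y'), Sweepable (E : Set (H ⧸ Subgroup.zpowers y')) := by
    intro E
    exact hSW {x : G | x ∈ X ∨ x⁻¹ ∈ X} hword ι ω P hL H.subtype H.subtype_injective y' hc' hfin'
      (QuotientGroup.mk' (Subgroup.zpowers y')) (QuotientGroup.mk'_surjective _)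
      (fun x => QuotientGroup.eq_one_iff x) E
  have hQ : Finite (H ⧸ Subgroup.zpowers y') := finite_of_sweeps _ hsw
  have hidx : (Subgroup.zpowers y').index ≠ 0 := Subgroup.index_ne_zero_of_finite
  have heq : (Subgroup.zpowers y).subgroupOf H = Subgroup.zpowers y' := by
    ext x
    rw [Subgroup.mem_subgroupOf, Subgroup.mem_zpowers_iff, Subgroup.mem_zpowers_iff]
    constructor
    · rintro ⟨k, hk⟩
      refine ⟨k, Subtype.ext ?_⟩
      rw [Subgroup.coe_zpow, hy']
      exact hk
    · rintro ⟨k, hk⟩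
      refine ⟨k, ?_⟩
      rw [← hk, Subgroup.coe_zpow, hy']
  rw [Subgroup.relIndex, heq]
  exact hidx

end Pool.Agent.H628.EZ
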