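import Pool.Agent.H724.EZ.Stm2

/-!
# Grouping consecutive segments (subtask EZ-GROUP)
-/

set_option autoImplicit false

namespace Pool.Agent.H143.EZGroup

open Pool.Agent.H724.EZ

theorem segCh_append {A : Type} (l1 l2 : List (A × ℕ × ℕ)) (s e : ℕ) :
    SegCh (l1 ++ l2) s e ↔ ∃ m, SegCh l1 s m ∧ SegCh l2 m e := by
  induction l1 generalizing s with
  | nil => simp [SegCh]
  | cons σ l ih =>
    simp only [List.cons_append, SegCh, ih]
    constructor
    · rintro ⟨h1, h2, m, h3, h4⟩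
      exact ⟨m, ⟨h1, h2, h3⟩, h4⟩
    · rintro ⟨m, ⟨h1, h2, h3⟩, h4⟩
      exact ⟨h1, h2, m, h3, h4⟩

theorem segCh_le {A : Type} (l : List (A × ℕ × ℕ)) (s e : ℕ) (h : SegCh l s e) : s ≤ e := by
  induction l generalizing s with
  | nil => exact le_of_eq h
  | cons σ l ih => exact h.2.1.trans (ih _ h.2.2)

theorem group : S_GROUP := by
  intro A R u ch h
  induction h with
  | nil =>
    intro l s e hl hm
    have h0 : l = [] := by simpa using hm
    subst h0
    exact ⟨[], [], rfl, rfl, hl, .nil⟩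
  | @cons a α u ch ha _ ih =>
    intro l s e hl hm
    rw [List.flatten_cons, List.map_eq_append_iff] at hm
    obtain ⟨l1, l2, rfl, h1, h2⟩ := hm
    obtain ⟨m, hm1, hm2⟩ := (segCh_append _ _ _ _).1 hl
    obtain ⟨F0, Rs, hF, hR, hS, hA⟩ := ih l2 m e hm2 h2
    refine ⟨(a, s, m) :: F0, l1 :: Rs, by simp [hF], by simp [hR],
      ⟨rfl, segCh_le _ _ _ hm1, hS⟩, .cons ⟨hm1, ?_⟩ hA⟩
    rw [h1]
    exact ha

end Pool.Agent.H143.EZGroup
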