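import Pool.Agent.H724.EZ.Stm2

/-! Two disjoint long segments have different values. -/

set_option autoImplicit false

namespace Pool.Agent.H348.EZ

open Pool.Agent.H724.EZ

theorem sum_le (n : ℕ → ℕ) {a b : ℕ} (h : a ≤ b) :
    ∑ k ∈ Finset.range a, n k ≤ ∑ k ∈ Finset.range b, n k :=
  Finset.sum_le_sum_of_subset (Finset.range_mono h)

theorem val {G H : Type} [Group G] [Group H] (j : H →* G) (y : H)
    (hy : ∀ x : H, x * y = y * x) (t t' : H) (N a : ℕ) (κ κ' : G) :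
    (j (t * y ^ N) * κ)⁻¹ * (j (t' * y ^ (N + a)) * κ') =
      κ⁻¹ * j (t⁻¹ * t') * (j y) ^ a * κ' := by
  have h1 : (t * y ^ N)⁻¹ * (t' * y ^ (N + a)) = t⁻¹ * t' * y ^ a := by
    have hc : Commute (y ^ N) (t⁻¹ * t') := by
      refine Commute.pow_left ?_ N
      exact (hy (t⁻¹ * t')).symm
    rw [mul_inv_rev, pow_add]
    calc (y ^ N)⁻¹ * t⁻¹ * (t' * (y ^ N * y ^ a))
        = (y ^ N)⁻¹ * ((t⁻¹ * t') * y ^ N) * y ^ a := by group
      _ = (y ^ N)⁻¹ * (y ^ N * (t⁻¹ * t')) * y ^ a := by rw [hc.eq]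
      _ = t⁻¹ * t' * y ^ a := by group
  calc (j (t * y ^ N) * κ)⁻¹ * (j (t' * y ^ (N + a)) * κ')
      = κ⁻¹ * ((j (t * y ^ N))⁻¹ * j (t' * y ^ (N + a))) * κ' := by group
    _ = κ⁻¹ * j ((t * y ^ N)⁻¹ * (t' * y ^ (N + a))) * κ' := by
        rw [map_mul j (t * y ^ N)⁻¹, map_inv]
    _ = κ⁻¹ * j (t⁻¹ * t') * (j y) ^ a * κ' := by rw [h1, map_mul j (t⁻¹ * t'), map_pow]; group

theorem ineq : S_INEQ := by
  intro G H _ _ j y hy n hn Φ hΦ T p q p' q' Ns Ne Ns' Ne' κs κe κs' κe' hpq hqp hpq' hNs hNe hNe2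
    hNs' hNe' hc hd heq
  have h1 : Ns ≤ Ne := (hNs.trans (sum_le n (by omega))).trans hNe
  have h2 : Ns' ≤ Ne' := (hNs'.trans (sum_le n (by omega))).trans hNe'
  obtain ⟨a, ha⟩ := Nat.exists_eq_add_of_le h1
  obtain ⟨b, hb⟩ := Nat.exists_eq_add_of_le h2
  have hab : n (q + 1) ≤ b := by
    have h3 : ∑ k ∈ Finset.range (q' - 1), n k + n (q' - 1) = ∑ k ∈ Finset.range q', n k := by
      rw [← Finset.sum_range_succ]
      congr 2
      omega
    have h4 := sum_le n (show p' + 1 ≤ q' - 1 by omega)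
    have h5 : n (q + 1) ≤ n (q' - 1) := hn (by omega)
    omega
  refine hΦ q a b hab (by omega) _ hc _ hd ?_
  rw [ha, hb, val j y hy, val j y hy] at heq
  have h6 : (j y) ^ b = (j ((T p')⁻¹ * T q'))⁻¹ * κs' *
      (κs'⁻¹ * j ((T p')⁻¹ * T q') * (j y) ^ b * κe') * κe'⁻¹ := by group
  rw [h6, ← heq]
  group

end Pool.Agent.H348.EZ
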