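import Pool.Agent.H724.EZ.Stm2

/-!
# Task EZ-PRE: the value of a prefix of the block part (helper116, for helper724)
-/

set_option autoImplicit false

namespace Pool.Agent.H116.EZ

open Pool.Agent.TH719.ED Pool.Agent.H724.EZ

theorem pre : S_PRE := by
  rintro ⟨hpos, hprod⟩ G H _ _ j y hy yw hyw hne n hn ew el m hew z hz
  obtain ⟨N', u, h1, h2, h3, h4, h5⟩ := hpos yw n ew m z hne hn hz
  have hp : blk (Csl yw n ew m) z ≤ m := by
    have := blk_le_length (Csl yw n ew m) z
    unfold Csl at this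
    rwa [List.length_map, List.length_range] at this
  generalize hb : blk (Csl yw n ew m) z = p at *
  refine ⟨∑ k ∈ Finset.range p, n k + N', u.prod, ?_, Nat.le_add_right _ _, ?_, ?_, ?_, ?_⟩
  · rw [h5, List.prod_append,
      hprod j y hy yw hyw n ew el p N' (fun i hi => hew i (lt_of_lt_of_le hi hp))]
  · rw [Finset.sum_range_succ]
    omega
  · rcases h3 with ⟨k, hk⟩ | ⟨i, hi, k, hk⟩
    · exact Or.inl ⟨k, by rw [hk]⟩
    · exact Or.inr ⟨i, hi, k, by rw [hk]⟩
  · intro h
    rw [(h2 h).2, List.prod_nil]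
  · intro h
    obtain ⟨h6, h7⟩ := h4 h
    rw [h6, h7, List.prod_nil, h]
    exact ⟨rfl, rfl⟩

end Pool.Agent.H116.EZ
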