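import Pool.Agent.H724.EZ.Stm2

/-!
# From one time to the next (helper231)
-/

set_option autoImplicit false

namespace Pool.Agent.H231.EZREFINE

open Pool.Agent.TH719.ED
open Pool.Agent.H724.EZ

theorem cov_cons (a : ℕ × ℕ) (L : List (ℕ × ℕ)) : Cov (a :: L) = Set.Ico a.1 a.2 ∪ Cov L := by
  ext j
  simp [Cov]

theorem cov_append (L M : List (ℕ × ℕ)) : Cov (L ++ M) = Cov L ∪ Cov M := by
  induction L with
  | nil => ext j; simp [Cov]
  | cons a L ih => rw [List.cons_append, cov_cons, cov_cons, ih, Set.union_assoc]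

theorem cov_finite (L : List (ℕ × ℕ)) : (Cov L).Finite := by
  induction L with
  | nil =>
    have : Cov ([] : List (ℕ × ℕ)) = ∅ := by ext j; simp [Cov]
    rw [this]
    exact Set.finite_empty
  | cons a L ih =>
    rw [cov_cons]
    exact (Set.finite_Ico _ _).union ih

/-- the positions covered by the long segments -/
abbrev CL {A : Type} (bk : ℕ → ℕ) (l : List (A × ℕ × ℕ)) : Set ℕ :=
  Cov ((l.filter (Lng bk)).map fun σ => (bk σ.2.1, bk σ.2.2))

theorem cl_append {A : Type} (bk : ℕ → ℕ) (l m : List (A × ℕ × ℕ)) :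
    CL bk (l ++ m) = CL bk l ∪ CL bk m := by
  unfold CL
  rw [List.filter_append, List.map_append, cov_append]

theorem cl_cons_pos {A : Type} (bk : ℕ → ℕ) (σ : A × ℕ × ℕ) (l : List (A × ℕ × ℕ))
    (h : Lng bk σ = true) : CL bk (σ :: l) = Set.Ico (bk σ.2.1) (bk σ.2.2) ∪ CL bk l := by
  unfold CL
  rw [List.filter_cons_of_pos h, List.map_cons, cov_cons]

theorem cl_cons_neg {A : Type} (bk : ℕ → ℕ) (σ : A × ℕ × ℕ) (l : List (A × ℕ × ℕ))
    (h : ¬ Lng bk σ = true) : CL bk (σ :: l) = CL bk l := by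
  unfold CL
  rw [List.filter_cons_of_neg h]

theorem aux (hSB : S_SEGBASIC) (hU : S_UNCOV) {A : Type} (bk : ℕ → ℕ) (hbk : Monotone bk) (D : ℕ)
    (l : List (A × ℕ × ℕ)) (R : List (List (A × ℕ × ℕ)))
    (hF : List.Forall₂ (fun σ ρ => SegCh ρ σ.2.1 σ.2.2 ∧ ρ.length ≤ D) l R) :
    CL bk R.flatten ⊆ CL bk l ∧
      (CL bk l \ CL bk R.flatten).ncard ≤ (l.filter (Lng bk)).length * D := by
  induction hF with
  | nil => 
    refine ⟨le_refl _, ?_⟩
    simp [CL]
  | @cons σ ρ l R h _ ih =>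
    obtain ⟨h1, h2⟩ := h
    obtain ⟨ih1, ih2⟩ := ih
    obtain ⟨hse, hmem, -⟩ := hSB ρ σ.2.1 σ.2.2 h1
    rw [List.flatten_cons, cl_append]
    by_cases hL : Lng bk σ = true
    · rw [cl_cons_pos bk σ l hL, List.filter_cons_of_pos hL, List.length_cons]
      constructor
      · refine Set.union_subset_union ?_ ih1
        rintro j ⟨a, ha, ha1, ha2⟩
        rw [List.mem_map] at ha
        obtain ⟨τ, hτ, rfl⟩ := ha
        have hτ' := hmem τ (List.mem_of_mem_filter hτ)
        exact ⟨(hbk hτ'.1).trans ha1, lt_of_lt_of_le ha2 (hbk hτ'.2.2)⟩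
      · have hu := hU hSB bk hbk ρ σ.2.1 σ.2.2 h1
        have hsub : (Set.Ico (bk σ.2.1) (bk σ.2.2) ∪ CL bk l) \ (CL bk ρ ∪ CL bk R.flatten) ⊆
            (Set.Ico (bk σ.2.1) (bk σ.2.2) \ CL bk ρ) ∪ (CL bk l \ CL bk R.flatten) := by
          rintro j ⟨hj1, hj2⟩
          rcases hj1 with hj1 | hj1
          · exact Or.inl ⟨hj1, fun h => hj2 (Or.inl h)⟩
          · exact Or.inr ⟨hj1, fun h => hj2 (Or.inr h)⟩
        have hfin : ((Set.Ico (bk σ.2.1) (bk σ.2.2) \ CL bk ρ) ∪ (CL bk l \ CL bk R.flatten)).Finite :=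
          ((Set.finite_Ico _ _).subset Set.diff_subset).union
            ((cov_finite _).subset Set.diff_subset)
        have hn1 := Set.ncard_le_ncard hsub hfin
        have hn2 := Set.ncard_union_le (Set.Ico (bk σ.2.1) (bk σ.2.2) \ CL bk ρ)
          (CL bk l \ CL bk R.flatten)
        have e : ((l.filter (Lng bk)).length + 1) * D = (l.filter (Lng bk)).length * D + D := by ring
        rw [e]
        have hu' : (Set.Ico (bk σ.2.1) (bk σ.2.2) \ CL bk ρ).ncard ≤ ρ.length := hu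
        omega
    · rw [cl_cons_neg bk σ l hL, List.filter_cons_of_neg hL]
      have hρ : CL bk ρ = ∅ := by
        rw [Set.eq_empty_iff_forall_notMem]
        rintro j ⟨a, ha, -⟩
        rw [List.mem_map] at ha
        obtain ⟨τ, hτ, -⟩ := ha
        have hτ' := hmem τ (List.mem_of_mem_filter hτ)
        have hτL : Lng bk τ = true := List.of_mem_filter hτ
        apply hL
        unfold Lng at hτL ⊢
        rw [decide_eq_true_eq] at hτL ⊢
        have := hbk hτ'.1
        have := hbk hτ'.2.2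
        omega
      rw [hρ, Set.empty_union]
      exact ⟨ih1, ih2⟩

theorem refine' : S_REFINE := by
  rintro ⟨hSB, hU⟩ A bk hbk D r l s e hseg R hF hr
  obtain ⟨h1, h2⟩ := aux hSB hU bk hbk D l R hF
  exact ⟨h1, h2.trans (Nat.mul_le_mul_right D hr)⟩

end Pool.Agent.H231.EZREFINE
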