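import Pool.Agent.H724.EZ.Stm2

set_option autoImplicit false

namespace Pool.Agent.H69.EZrel

open Pool.Agent.TH719.ED Pool.Agent.H724.EZ

theorem rel : S_REL := by
  rintro ⟨DA, DF, SB, AL, CP⟩ A J G H _ _ P ω Q0 r c hc ι W X hW hL js1 js2 Sg hSg hd1 hd2 j hj h κ
    hκ hκQ hκ0 hκ1 Λ hΛ
  obtain ⟨-, hmem, -, -, hchn⟩ := SB Sg 0 W.length hSg
  have hpast : Past P ω Q0 r (Sg.map (colr Λ κ)) := by
    refine ⟨⟨js1, ?_⟩, ?_, ?_, ?_⟩
    · rw [List.map_map]
      exact hd1
    · have := hchn Λ κ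
      rw [hκ0, hκ1] at this
      exact this
    · intro a ha
      obtain ⟨s, hs, rfl⟩ := List.mem_map.1 ha
      obtain ⟨h1, h2, h3⟩ := hmem s hs
      exact ⟨hκQ _ (h2.trans h3), hκQ _ h3⟩
    · rw [List.filter_map, List.length_map]
      exact hΛ
  obtain ⟨v, ⟨⟨js0, hjs0⟩, hvc, -, -⟩, hkey, hlen⟩ := hc _ hpast
  simp only [keyR, Prod.mk.injEq] at hkey
  obtain ⟨hk1, hk2⟩ := hkey
  obtain ⟨gs, hg1, hg2, hg3⟩ := AL (colr Λ κ) (fun a => a.2.1) v (Sg.filter Λ) Sg
    (by
      rw [hk2, List.filter_map]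
      rfl)
    (fun s hs => (List.mem_filter.1 hs).1)
    (by
      intro x hx _
      have hx' : x ∈ {a | a ∈ v} := hx
      rw [hk1] at hx'
      exact List.mem_map.1 hx')
  refine ⟨gs, ?_, hg2, hg3, ?_⟩
  · have : gs.length = v.length := by rw [← hg1, List.length_map]
    omega
  · have hprod : (gs.flatMap (sub W)).prod = 1 := by
      apply hL
      · intro x hx
        obtain ⟨a, _, hx⟩ := List.mem_flatMap.1 hx
        exact hW x (List.mem_of_mem_drop (List.mem_of_mem_take hx))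
      · refine ⟨js0 ++ js2, (DA P js0 js2 _ _).2 ⟨_, hjs0, ?_⟩⟩
        have h1 := DF P js2 (gs.map (fun s => (s.1, (sub W s).map ι))) (by
          intro p hp
          obtain ⟨s, hs, rfl⟩ := List.mem_map.1 hp
          exact hd2 s (hg3 s hs))
        rw [List.map_map, List.map_map] at h1
        have e1 : v.map Prod.fst = gs.map (Prod.fst ∘ fun s : A × ℕ × ℕ => (s.1, (sub W s).map ι)) := by
          rw [← hg1, List.map_map]
          rfl
        have e2 : (gs.flatMap (sub W)).map ι =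
            (gs.map (Prod.snd ∘ fun s : A × ℕ × ℕ => (s.1, (sub W s).map ι))).flatten := by
          rw [List.map_flatMap, List.flatMap_def]
          rfl
        rw [e1, e2]
        exact h1
    have hcp := CP j W h κ hκ Λ gs (fun s hs => ⟨(hmem s (hg3 s hs)).2.1, (hmem s (hg3 s hs)).2.2⟩)
      1 1 (by rw [hg1]; exact hvc)
    rw [hprod, inv_one, one_mul, mul_one] at hcp
    apply hj
    rw [map_one]
    exact hcp.symm

end Pool.Agent.H69.EZrel
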