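import Pool.Agent.H724.EZ.Stm2

/-!
# Elementary facts on consecutive segments (project EZ of helper724)
-/

set_option autoImplicit false

namespace Pool.Agent.H412.EZ

open Pool.Agent.H724.EZ Pool.Agent.TH719.ED

/-- positions -/
theorem seg_pos {A : Type} : ∀ (l : List (A × ℕ × ℕ)) (s e : ℕ), SegCh l s e →
    s ≤ e ∧ ∀ σ ∈ l, s ≤ σ.2.1 ∧ σ.2.1 ≤ σ.2.2 ∧ σ.2.2 ≤ e := by
  intro l
  induction l with
  | nil =>
    intro s e h
    exact ⟨le_of_eq h, fun σ hσ => absurd hσ List.not_mem_nil⟩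
  | cons a l ih =>
    rintro s e ⟨h1, h2, h3⟩
    obtain ⟨h4, h5⟩ := ih _ _ h3
    refine ⟨h2.trans h4, fun σ hσ => ?_⟩
    rcases List.mem_cons.1 hσ with rfl | hσ
    · exact ⟨h1.ge, by rw [h1]; exact h2, h4⟩
    · obtain ⟨h6, h7, h8⟩ := h5 σ hσ
      exact ⟨h2.trans h6, h7, h8⟩

theorem seg_pair {A : Type} : ∀ (l : List (A × ℕ × ℕ)) (s e : ℕ), SegCh l s e →
    l.Pairwise (fun σ τ => σ.2.2 ≤ τ.2.1) := by
  intro l
  induction l with
  | nil => intro s e _; exact List.Pairwise.nil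
  | cons a l ih =>
    rintro s e ⟨h1, h2, h3⟩
    exact List.pairwise_cons.2 ⟨fun τ hτ => ((seg_pos l _ _ h3).2 τ hτ).1, ih _ _ h3⟩

theorem seg_flat {A G : Type} (W : List G) : ∀ (l : List (A × ℕ × ℕ)) (s e : ℕ), SegCh l s e →
    e ≤ W.length → l.flatMap (sub W) = (W.drop s).take (e - s) := by
  intro l
  induction l with
  | nil =>
    intro s e h _
    have h' : s = e := h
    rw [h', Nat.sub_self, List.take_zero, List.flatMap_nil]
  | cons a l ih =>
    rintro s e ⟨h1, h2, h3⟩ he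
    have h4 := (seg_pos l _ _ h3).1
    rw [List.flatMap_cons, ih _ _ h3 he]
    have h5 : e - s = (a.2.2 - s) + (e - a.2.2) := by omega
    rw [h5, List.take_add, List.drop_drop, show s + (a.2.2 - s) = a.2.2 by omega]
    unfold sub
    rw [h1]

theorem seg_chn {A G : Type} (Λ : A × ℕ × ℕ → Bool) (κ : ℕ → G) : ∀ (l : List (A × ℕ × ℕ)) (s e : ℕ),
    SegCh l s e → ChnR (l.map (colr Λ κ)) (κ s) (κ e) := by
  intro l
  induction l with
  | nil =>
    intro s e h
    have h' : s = e := h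
    rw [h']
    exact rfl
  | cons a l ih =>
    rintro s e ⟨h1, h2, h3⟩
    exact ⟨congrArg κ h1, ih _ _ h3⟩

theorem segbasic : S_SEGBASIC := by
  intro A l s e h
  exact ⟨(seg_pos l s e h).1, (seg_pos l s e h).2, seg_pair l s e h,
    fun W he => seg_flat W l s e h he, fun Λ κ => seg_chn Λ κ l s e h⟩

end Pool.Agent.H412.EZ
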