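import Pool.Agent.H724.EZ.Stm2

/-!
# EZ-TIMED: a derivation as a sequence of segmentations (helper570, for helper724)
-/

set_option autoImplicit false

namespace Pool.Agent.H570.EZTimed

open Pool.Agent.TH719.ED Pool.Agent.H724.EZ

variable {A : Type}

/-- the segmentation into single letters -/
def single : List A → ℕ → List (A × ℕ × ℕ)
  | [], _ => []
  | a :: v, s => (a, s, s + 1) :: single v (s + 1)

theorem single_seg (v : List A) (s : ℕ) : SegCh (single v s) s (s + v.length) := by
  induction v generalizing s with
  | nil => simp [single, SegCh]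
  | cons a v ih =>
    refine ⟨rfl, Nat.le_succ s, ?_⟩
    have := ih (s + 1)
    simp only [List.length_cons]
    rw [show s + (v.length + 1) = s + 1 + v.length by omega]
    exact this

theorem single_fst (v : List A) (s : ℕ) : (single v s).map Prod.fst = v := by
  induction v generalizing s with
  | nil => simp [single]
  | cons a v ih => simp [single, ih]

theorem single_mem (v : List A) (s : ℕ) (V : List A) (hV : V.drop s = v) :
    ∀ σ ∈ single v s, σ.2.1 ≤ σ.2.2 ∧ [σ.1] = (V.drop σ.2.1).take (σ.2.2 - σ.2.1) := by
  induction v generalizing s with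
  | nil => simp [single]
  | cons a v ih =>
    intro σ hσ
    simp only [single, List.mem_cons] at hσ
    rcases hσ with rfl | hσ
    · refine ⟨Nat.le_succ s, ?_⟩
      simp [hV]
    · refine ih (s + 1) ?_ σ hσ
      rw [← List.drop_drop, hV]
      rfl

theorem seg_le (l : List (A × ℕ × ℕ)) (s e : ℕ) (h : SegCh l s e) : s ≤ e := by
  induction l generalizing s with
  | nil => exact le_of_eq h
  | cons σ l ih =>
    obtain ⟨h1, h2, h3⟩ := h
    exact h2.trans (ih _ h3)

theorem seg_mem (l : List (A × ℕ × ℕ)) (s e : ℕ) (h : SegCh l s e) :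
    ∀ σ ∈ l, σ.2.1 ≤ σ.2.2 ∧ σ.2.2 ≤ e := by
  induction l generalizing s with
  | nil => simp
  | cons σ l ih =>
    obtain ⟨h1, h2, h3⟩ := h
    intro τ hτ
    rcases List.mem_cons.1 hτ with rfl | hτ
    · exact ⟨h1 ▸ h2, seg_le _ _ _ h3⟩
    · exact ih _ h3 τ hτ

theorem seg_flat (V : List A) (l : List (A × ℕ × ℕ)) (s e : ℕ) (h : SegCh l s e) :
    (l.map fun τ => (V.drop τ.2.1).take (τ.2.2 - τ.2.1)).flatten = (V.drop s).take (e - s) := by
  induction l generalizing s with
  | nil =>
    have : s = e := h
    subst this
    simp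
  | cons σ l ih =>
    obtain ⟨h1, h2, h3⟩ := h
    have h4 := seg_le _ _ _ h3
    simp only [List.map_cons, List.flatten_cons]
    rw [ih _ h3, h1]
    rw [show e - s = (σ.2.2 - s) + (e - σ.2.2) by omega, List.take_add, List.drop_drop,
      show s + (σ.2.2 - s) = σ.2.2 by omega]

theorem forall2_mem {α β : Type*} {R : α → β → Prop} {l : List α} {m : List β}
    (h : List.Forall₂ R l m) : ∀ a ∈ l, ∃ b ∈ m, R a b := by
  induction h with
  | nil => simp
  | cons h1 _ ih =>
    intro a ha
    rcases List.mem_cons.1 ha with rfl | ha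
    · exact ⟨_, List.mem_cons_self, h1⟩
    · obtain ⟨b, hb, hab⟩ := ih a ha
      exact ⟨b, List.mem_cons_of_mem _ hb, hab⟩

theorem timed : S_TIMED := by
  rintro ⟨_, hFlat, hGroup⟩ A J P D hD hD1 js
  induction js with
  | nil =>
    intro ω V hV
    have hV' : ω = V := hV
    subst hV'
    have hmem := single_mem ω 0 ω (by simp)
    refine ⟨fun _ => single ω 0, ?_, ?_, ?_, ?_⟩
    · intro t
      simpa using single_seg ω 0
    · intro t
      simp [Der, single_fst]
    · intro t σ hσ
      simp only [List.drop_nil, Der]
      exact (hmem σ hσ).2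
    · intro t
      refine ⟨(single ω 0).map fun σ => [σ], ?_, ?_⟩
      · rw [List.forall₂_map_right_iff, List.forall₂_same]
        intro σ hσ
        exact ⟨⟨rfl, (hmem σ hσ).1, rfl⟩, by simpa using hD1⟩
      · have : ∀ l : List (A × ℕ × ℕ), l = (l.map fun σ => [σ]).flatten := by
          intro l
          induction l with
          | nil => rfl
          | cons a l ih => simp only [List.map_cons, List.flatten_cons, List.singleton_append, ← ih]
        exact this _
  | cons j js ih =>
    intro ω V hV
    obtain ⟨x, hx, hxV⟩ := hV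
    obtain ⟨F', hF'⟩ := ih x V hxV
    obtain ⟨ch, hch, rfl⟩ := id hx
    have h0 : (F' 0).map Prod.fst = ch.flatten := by
      have := hF'.past 0
      simp only [List.take_zero, Der] at this
      exact this.symm
    obtain ⟨F0, Rs, h1, h2, h3, h4⟩ :=
      hGroup (fun a α => α ∈ P j a) ω ch hch (F' 0) 0 V.length (hF'.seg 0) h0
    refine ⟨fun t => Nat.casesOn t F0 F', ?_, ?_, ?_, ?_⟩
    · rintro (_ | t)
      · exact h3
      · exact hF'.seg t
    · rintro (_ | t)
      · simp only [List.take_zero, Der]
        exact h1.symm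
      · simp only [List.take_succ_cons]
        exact ⟨_, hx, hF'.past t⟩
    · rintro (_ | t)
      · intro σ hσ
        simp only [List.drop_zero]
        obtain ⟨ρ, hρ, hσρ, hP⟩ := forall2_mem h4 σ hσ
        refine ⟨ρ.map Prod.fst, ⟨[ρ.map Prod.fst], ?_, by simp⟩, ?_⟩
        · exact List.Forall₂.cons hP List.Forall₂.nil
        · have hd := hFlat P js
            (ρ.map fun τ => (τ.1, (V.drop τ.2.1).take (τ.2.2 - τ.2.1))) (by
              intro p hp
              obtain ⟨τ, hτ, rfl⟩ := List.mem_map.1 hp
              have hτ' : τ ∈ F' 0 := by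
                rw [← h2]
                exact List.mem_flatten.2 ⟨ρ, hρ, hτ⟩
              have := hF'.fut 0 τ hτ'
              simpa only [List.drop_zero] using this)
          rw [List.map_map, List.map_map] at hd
          have e2 := seg_flat V ρ _ _ hσρ
          rw [← e2]
          exact hd
      · intro σ hσ
        simp only [List.drop_succ_cons]
        exact hF'.fut t σ hσ
    · rintro (_ | t)
      · refine ⟨Rs, ?_, h2.symm⟩
        refine h4.imp ?_
        rintro σ ρ ⟨ha, hb⟩
        refine ⟨ha, ?_⟩
        have := hD j _ _ hb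
        simpa using this
      · exact hF'.ref t

end Pool.Agent.H570.EZTimed
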