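import Pool.Agent.H724.EZ.Stm2

/-!
# UNCOV: the part not covered by the long segments
-/

set_option autoImplicit false

namespace Pool.Agent.H734.EZ

open Pool.Agent.TH719.ED Pool.Agent.H724.EZ

theorem uncov : S_UNCOV := by
  intro _ A bk _ l
  induction l with
  | nil =>
    intro s e h
    have h1 : s = e := h
    rw [h1, Set.Ico_self, Set.empty_sdiff, Set.ncard_empty]
    exact Nat.zero_le _
  | cons σ l ih =>
    intro s e h
    obtain ⟨h1, h2, h3⟩ := h
    have ih' := ih σ.2.2 e h3
    have hfin : (Set.Ico (bk σ.2.2) (bk e) \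
        Cov ((l.filter (Lng bk)).map fun σ => (bk σ.2.1, bk σ.2.2))).Finite :=
      (Set.finite_Ico _ _).subset Set.sdiff_subset
    have hsub : Set.Ico (bk s) (bk e) \
        Cov (((σ :: l).filter (Lng bk)).map fun σ => (bk σ.2.1, bk σ.2.2)) ⊆
        insert (bk s) (Set.Ico (bk σ.2.2) (bk e) \
          Cov ((l.filter (Lng bk)).map fun σ => (bk σ.2.1, bk σ.2.2))) := by
      rintro j ⟨⟨hj1, hj2⟩, hj3⟩
      rcases Nat.eq_or_lt_of_le hj1 with hj | hj
      · exact Or.inl hj.symm
      · right
        refine ⟨⟨?_, hj2⟩, ?_⟩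
        · by_contra hlt
          rw [not_le] at hlt
          apply hj3
          have hL : Lng bk σ = true := by
            unfold Lng
            rw [decide_eq_true_iff, h1]
            omega
          refine ⟨(bk σ.2.1, bk σ.2.2), ?_, ?_, hlt⟩
          · rw [List.mem_map]
            exact ⟨σ, List.mem_filter.2 ⟨List.mem_cons_self, hL⟩, rfl⟩
          · show bk σ.2.1 ≤ j
            rw [h1]
            exact hj1
        · rintro ⟨a, ha, ha2⟩
          apply hj3
          refine ⟨a, ?_, ha2⟩
          rw [List.mem_map] at ha ⊢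
          obtain ⟨τ, hτ, hτa⟩ := ha
          rw [List.mem_filter] at hτ
          exact ⟨τ, List.mem_filter.2 ⟨List.mem_cons_of_mem _ hτ.1, hτ.2⟩, hτa⟩
    refine (Set.ncard_le_ncard hsub (hfin.insert _)).trans ((Set.ncard_insert_le _ _).trans ?_)
    rw [List.length_cons]
    exact Nat.add_le_add_right ih' 1

end Pool.Agent.H734.EZ
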