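import Pool.Agent.H724.EZ.Stm2

/-!
# WORD2: the word for a closed path
-/

set_option autoImplicit false

namespace Pool.Agent.H740.EZ

open Pool.Agent.TH719.ED
open Pool.Agent.H724.EZ

/-- the products of the prefixes of a list -/
def pre {G : Type} [Group G] (l : List G) : Set G := {g | ∃ k, g = (l.take k).prod}

theorem pre_finite {G : Type} [Group G] (l : List G) : (pre l).Finite := by
  have h : pre l ⊆ (fun k => (l.take k).prod) '' (Set.Iic l.length) := by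
    rintro g ⟨k, rfl⟩
    rcases Nat.le_total k l.length with h | h
    · exact ⟨k, h, rfl⟩
    · refine ⟨l.length, Set.mem_Iic.2 le_rfl, ?_⟩
      simp only [List.take_length, List.take_of_length_le h]
  exact ((Set.finite_Iic _).image _).subset h

theorem one_mem_pre {G : Type} [Group G] (l : List G) : (1 : G) ∈ pre l := ⟨0, by simp⟩

theorem rep_prod {G : Type} [Group G] (K : ℕ) (u : List G) :
    (List.replicate K u).flatten.prod = u.prod ^ K := by
  induction K with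
  | zero => simp
  | succ K ih =>
    rw [List.replicate_succ, List.flatten_cons, List.prod_append, ih, pow_succ']

/-- the finite set of obstructions -/
def Phi {G H : Type} [Group G] [Group H] (j : H →* G) (T : ℕ → H) (m : ℕ) (Q0 : Set G) : Set G :=
  (fun x : ((ℕ × ℕ) × (ℕ × ℕ)) × (G × G) =>
    (j ((T x.1.2.1)⁻¹ * T x.1.2.2))⁻¹ * x.2.1 * (x.2.2)⁻¹ * j ((T x.1.1.1)⁻¹ * T x.1.1.2)) ''
      (((Set.Iic m ×ˢ Set.Iic m) ×ˢ (Set.Iic m ×ˢ Set.Iic m)) ×ˢ (Q0 ×ˢ Q0)) ∪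
    (fun x : G × G => x.1 * x.2⁻¹) '' (Q0 ×ˢ Q0)

theorem Phi_finite {G H : Type} [Group G] [Group H] (j : H →* G) (T : ℕ → H) (m : ℕ) (Q0 : Set G)
    (h : Q0.Finite) : (Phi j T m Q0).Finite := by
  have h1 : (Set.Iic m).Finite := Set.finite_Iic m
  exact ((((h1.prod h1).prod (h1.prod h1)).prod (h.prod h)).image _).union ((h.prod h).image _)

theorem word2 : S_WORD2 := by
  rintro ⟨hREP, hPRE, hINEQ⟩ ⟨hFAST, hPOS, hBLK⟩
  intro G H Q _ _ _ X hX j hj y hy hyo π hπ hker E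
  choose rep hrep1 hrep2 using hX
  choose lift hlift using hπ
  have hjy : ¬ IsOfFinOrder (j y) := by
    rw [hj.isOfFinOrder_iff]
    exact hyo
  obtain ⟨yw, hyw⟩ : ∃ yw, yw = rep (j y) := ⟨_, rfl⟩
  obtain ⟨yi, hyi⟩ : ∃ yi, yi = rep (j y⁻¹) := ⟨_, rfl⟩
  have hywp : yw.prod = j y := by rw [hyw, hrep2]
  have hyip : yi.prod = j y⁻¹ := by rw [hyi, hrep2]
  have hyw0 : yw ≠ [] := by
    intro h
    rw [h, List.prod_nil] at hywp
    rw [← hywp] at hjy
    exact hjy IsOfFinOrder.one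
  obtain ⟨Q0, hQ0⟩ : ∃ Q0 : Set G, Q0 = (⋃ e ∈ E, pre (rep (j (lift e)))) ∪ (pre yw ∪ pre yi) :=
    ⟨_, rfl⟩
  have hQf : Q0.Finite := by
    rw [hQ0]
    exact (E.finite_toSet.biUnion fun e _ => pre_finite _).union
      ((pre_finite _).union (pre_finite _))
  have hQe : ∀ e ∈ E, pre (rep (j (lift e))) ⊆ Q0 := by
    intro e he g hg
    rw [hQ0]
    exact Or.inl (Set.mem_biUnion he hg)
  have hQw : pre yw ⊆ Q0 := by
    rw [hQ0]
    exact fun g hg => Or.inr (Or.inl hg)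
  have hQi : pre yi ⊆ Q0 := by
    rw [hQ0]
    exact fun g hg => Or.inr (Or.inr hg)
  refine ⟨Q0, hQf, fun m S hS0 hSm hSE => ?_⟩
  obtain ⟨el, hel⟩ : ∃ el : ℕ → H, el = fun i => lift ((S i)⁻¹ * S (i + 1)) := ⟨_, rfl⟩
  obtain ⟨T, hT⟩ : ∃ T : ℕ → H, T = fun p => ((List.range p).map el).prod := ⟨_, rfl⟩
  have hTS : ∀ p, π (T p) = S p := by
    intro p
    rw [hT]
    induction p with
    | zero => simp [hS0]
    | succ p ih =>
      simp only at ih
      simp only [List.range_succ, List.map_append, List.prod_append, map_mul, ih, List.map_cons,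
        List.map_nil, List.prod_cons, List.prod_nil, mul_one]
      rw [hel]
      simp only [hlift]
      group
  obtain ⟨ew, hew⟩ : ∃ ew : ℕ → List G, ew = fun i => rep (j (el i)) := ⟨_, rfl⟩
  have hewp : ∀ i < m, (ew i).prod = j (el i) := fun i _ => by
    rw [hew]
    exact hrep2 _
  have hewQ : ∀ i < m, pre (ew i) ⊆ Q0 := by
    intro i hi
    have h1 := hQe _ (hSE i hi)
    rw [hew, hel]
    exact h1
  obtain ⟨n, hn1, hnm, hnf⟩ := hFAST (j y) hjy (Phi j T m Q0) (Phi_finite j T m Q0 hQf)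
  obtain ⟨Cs, hCs⟩ : ∃ Cs, Cs = Csl yw n ew m := ⟨_, rfl⟩
  have hCsl : Cs.length = m := by
    rw [hCs, Csl, List.length_map, List.length_range]
  have hCsn : ∀ C ∈ Cs, C ≠ [] := by
    intro C hC
    rw [hCs, Csl, List.mem_map] at hC
    obtain ⟨i, _, rfl⟩ := hC
    have h1 := hn1 i
    obtain ⟨t, ht⟩ : ∃ t, n i = t + 1 := ⟨n i - 1, by omega⟩
    rw [blkW, ht, List.replicate_succ, List.flatten_cons]
    intro h2
    simp only [List.append_eq_nil_iff] at h2
    exact hyw0 h2.1.1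
  have hpre : ∀ z, z ≤ Cs.flatten.length → ∃ (N : ℕ) (κ : G), (Cs.flatten.take z).prod =
        j (T (blk Cs z) * y ^ N) * κ ∧
      ∑ k ∈ Finset.range (blk Cs z), n k ≤ N ∧
      N ≤ ∑ k ∈ Finset.range (blk Cs z + 1), n k ∧ κ ∈ Q0 ∧ (z = 0 → κ = 1) ∧
      (blk Cs z = m → κ = 1 ∧ N = ∑ k ∈ Finset.range m, n k) := by
    intro z hz
    rw [hCs] at hz ⊢
    obtain ⟨N, κ, h1, h2, h3, h4, h5, h6⟩ := hPRE ⟨hPOS, hBLK⟩ j y hy yw hywp hyw0 n hn1 ew el m
      hewp z hz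
    refine ⟨N, κ, ?_, h2, h3, ?_, h5, h6⟩
    · rw [hT]
      exact h1
    · rcases h4 with ⟨k, hk⟩ | ⟨i, hi, k, hk⟩
      · exact hQw ⟨k, hk⟩
      · exact hewQ i hi ⟨k, hk⟩
  have hbt : blk Cs Cs.flatten.length = m := by
    rw [blk_total, hCsl]
  obtain ⟨N0, κ0, hB1, -, -, -, -, hB2⟩ := hpre _ le_rfl
  rw [hbt, List.take_length] at hB1
  rw [(hB2 hbt).1, mul_one] at hB1
  have hTm : T m ∈ Subgroup.zpowers y := by
    rw [← hker, hTS, hSm]
  obtain ⟨t, ht⟩ := Subgroup.mem_zpowers_iff.1 hTm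
  have hπy : π y = 1 := (hker y).2 (Subgroup.mem_zpowers y)
  -- the last part of the word
  obtain ⟨y', u, K, hu1, hu2, hu3, hu4, hu5⟩ : ∃ (y' : H) (u : List G) (K : ℕ),
      u.prod = j y' ∧ (∀ x ∈ u, x ∈ X) ∧ pre u ⊆ Q0 ∧ π y' = 1 ∧
      Cs.flatten.prod * (j y') ^ K = 1 := by
    have h1 : Cs.flatten.prod = (j y) ^ (t + N0) := by
      rw [hB1, ← ht, zpow_add, zpow_natCast, map_mul, map_zpow, map_pow]
    rcases le_total 0 (t + N0) with h | h
    · obtain ⟨K, hK⟩ := Int.eq_ofNat_of_zero_le h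
      refine ⟨y⁻¹, yi, K, hyip, ?_, hQi, ?_, ?_⟩
      · rw [hyi]
        exact hrep1 _
      · rw [map_inv, hπy, inv_one]
      · rw [h1, hK, map_inv, zpow_natCast, inv_pow, mul_inv_cancel]
    · obtain ⟨K, hK⟩ := Int.eq_ofNat_of_zero_le (Int.neg_nonneg_of_nonpos h)
      refine ⟨y, yw, K, hywp, ?_, hQw, hπy, ?_⟩
      · rw [hyw]
        exact hrep1 _
      · rw [h1, ← zpow_natCast, ← zpow_add]
        have h2 : t + (N0 : ℤ) + (K : ℤ) = 0 := by omega
        rw [h2, zpow_zero]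
  obtain ⟨W, hW⟩ : ∃ W, W = Cs.flatten ++ (List.replicate K u).flatten := ⟨_, rfl⟩
  have hWp : W.prod = 1 := by
    rw [hW, List.prod_append, rep_prod, hu1]
    exact hu5
  have hWl : W.length = Cs.flatten.length + (List.replicate K u).flatten.length := by
    rw [hW, List.length_append]
  have hle : ∀ z, blk Cs z ≤ m := fun z => by
    have := blk_le_length Cs z
    rwa [hCsl] at this
  have hge : ∀ z, Cs.flatten.length ≤ z → blk Cs z = m := by
    intro z hz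
    apply le_antisymm (hle z)
    have := blk_mono Cs hz
    rwa [hbt] at this
  have key : ∀ z, ∃ (hz : H) (κz : G), z ≤ W.length → ((W.take z).prod = j hz * κz ∧ κz ∈ Q0 ∧
      π hz = S (blk Cs z) ∧ (z = 0 → κz = 1) ∧ (z = W.length → κz = 1) ∧
      (z ≤ Cs.flatten.length → ∃ N : ℕ, hz = T (blk Cs z) * y ^ N ∧
        ∑ k ∈ Finset.range (blk Cs z), n k ≤ N ∧
        N ≤ ∑ k ∈ Finset.range (blk Cs z + 1), n k)) := by
    intro z
    by_cases hz : z ≤ W.length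
    swap
    · exact ⟨1, 1, fun h => absurd h hz⟩
    by_cases hz1 : z ≤ Cs.flatten.length
    · obtain ⟨N, κ, h1, h2, h3, h4, h5, h6⟩ := hpre z hz1
      refine ⟨T (blk Cs z) * y ^ N, κ, fun _ => ⟨?_, h4, ?_, h5, ?_, fun _ => ⟨N, rfl, h2, h3⟩⟩⟩
      · rw [hW, List.take_append_of_le_length hz1, h1]
      · rw [map_mul, map_pow, hπy, one_pow, mul_one, hTS]
      · intro h7
        apply (h6 _).1
        apply hge
        omega
    · obtain ⟨a, b, h1, h2, h3⟩ := hREP u K (z - Cs.flatten.length)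
      refine ⟨T m * y ^ N0 * y' ^ a, (u.take b).prod, fun _ => ⟨?_, hu3 ⟨b, rfl⟩, ?_, ?_, ?_, ?_⟩⟩
      · rw [hW, List.take_append, List.take_of_length_le (by omega), h2, List.prod_append,
          List.prod_append, rep_prod, hu1, hB1, map_mul, map_mul, map_mul, map_pow, map_pow]
        simp only [mul_assoc]
      · rw [map_mul, map_mul, map_pow, map_pow, hπy, hu4, one_pow, one_pow, mul_one, mul_one, hTS,
          hge z (by omega)]
      · intro h7
        omega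
      · intro h7
        rw [(h3 (by omega)).2]
        simp
      · intro h7
        exact absurd h7 hz1
  choose h κ hh using key
  refine ⟨W, blk Cs, h, κ, Cs.flatten.length, ?_, hWp, blk_mono Cs, blk_zero Cs hCsn,
    hge _ (by omega), hle, blk_succ_le Cs hCsn, hge,
    fun z hz => ⟨(hh z hz).1, (hh z hz).2.1, (hh z hz).2.2.1⟩,
    (hh 0 (Nat.zero_le _)).2.2.2.1 rfl, (hh _ le_rfl).2.2.2.2.1 rfl, ?_⟩
  · intro x hx
    rw [hW, List.mem_append] at hx
    rcases hx with hx | hx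
    · rw [hCs, Csl, List.mem_flatten] at hx
      obtain ⟨C, hC, hxC⟩ := hx
      rw [List.mem_map] at hC
      obtain ⟨i, _, rfl⟩ := hC
      rw [blkW, List.mem_append] at hxC
      rcases hxC with hx | hx
      · rw [List.mem_flatten] at hx
        obtain ⟨C, hC, hxC⟩ := hx
        rw [List.eq_of_mem_replicate hC, hyw] at hxC
        exact hrep1 _ x hxC
      · rw [hew] at hx
        exact hrep1 _ x hx
    · rw [List.mem_flatten] at hx
      obtain ⟨C, hC, hxC⟩ := hx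
      rw [List.eq_of_mem_replicate hC] at hxC
      exact hu2 x hxC
  · intro s e s' e' h1 h2 h3 h4 h5 h6 h7
    obtain ⟨a1, a2, -, -, -, a3⟩ := hh s (by omega)
    obtain ⟨b1, b2, -, -, -, b3⟩ := hh e (by omega)
    obtain ⟨c1, c2, -, -, -, c3⟩ := hh s' (by omega)
    obtain ⟨d1, d2, -, -, -, d3⟩ := hh e' (by omega)
    obtain ⟨Ns, a4, a5, a6⟩ := a3 (by omega)
    obtain ⟨Ne, b4, b5, b6⟩ := b3 (by omega)
    obtain ⟨Ns', c4, c5, c6⟩ := c3 (by omega)
    obtain ⟨Ne', d4, d5, d6⟩ := d3 (by omega)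
    rw [a1, b1, c1, d1, a4, b4, c4, d4]
    refine hINEQ j y hy n hnm (Phi j T m Q0) hnf T (blk Cs s) (blk Cs e) (blk Cs s') (blk Cs e')
      Ns Ne Ns' Ne' (κ s) (κ e) (κ s') (κ e') h6 (blk_mono Cs h2) h7 a6 b5 b6 c6 d5 ?_ ?_
    · exact Or.inl ⟨(((blk Cs s, blk Cs e), (blk Cs s', blk Cs e')), (κ s', κ s)),
        ⟨⟨⟨hle _, hle _⟩, ⟨hle _, hle _⟩⟩, ⟨c2, a2⟩⟩, rfl⟩
    · exact Or.inr ⟨(κ e, κ e'), ⟨b2, d2⟩, rfl⟩

end Pool.Agent.H740.EZ
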