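import Pool.Agent.H724.EZ.Stm3

/-!
# BLKPROD2 (helper483 for helper724)
-/

set_option autoImplicit false

namespace Pool.Agent.H483.EZ

open Pool.Agent.H724.EZ

/-- the value of a block of words `kw` -/
theorem prod_words {G M : Type} [Group G] [Group M] (j : M →* G) (k : ℕ → M)
    (kw : ℕ → List G) (hkw : ∀ t, (kw t).prod = j (k t)) (a N : ℕ) :
    (((List.range N).map (fun t => kw (a + t))).flatten).prod =
      j (((List.range N).map (fun t => k (a + t))).prod) := by
  induction N with
  | zero => simp
  | succ N ih =>
    rw [List.range_succ]
    simp only [List.map_append, List.map_cons, List.map_nil, List.flatten_append,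
      List.flatten_cons, List.flatten_nil, List.append_nil, List.prod_append, List.prod_cons,
      List.prod_nil, mul_one, map_mul]
    rw [ih, hkw]

/-- `xi` of a sum -/
theorem xi_add {M : Type} [Group M] (k : ℕ → M) (a N : ℕ) :
    xi k (a + N) = xi k a * ((List.range N).map (fun t => k (a + t))).prod := by
  induction N with
  | zero => simp
  | succ N ih =>
    have h1 : xi k (a + (N + 1)) = xi k (a + N) * k (a + N) := by
      unfold xi
      rw [← add_assoc, List.range_succ]
      simp
    rw [h1, ih, List.range_succ]
    simp [mul_assoc]

/-- an element which commutes with the steps commutes with `xi` -/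
theorem comm_xi {M : Type} [Group M] (k : ℕ → M) (e : M) (he : ∀ t, e * k t = k t * e) (a : ℕ) :
    e * xi k a = xi k a * e := by
  induction a with
  | zero => simp [xi]
  | succ a ih =>
    have h1 : xi k (a + 1) = xi k a * k a := by
      unfold xi
      rw [List.range_succ]
      simp
    rw [h1, ← mul_assoc, ih, mul_assoc, he, ← mul_assoc]

/-- the value of the first `p` blocks -/
theorem prod_blocks {G M : Type} [Group G] [Group M] (j : M →* G) (k : ℕ → M)
    (kw : ℕ → List G) (hkw : ∀ t, (kw t).prod = j (k t)) (n : ℕ → ℕ)
    (ew : ℕ → List G) (el : ℕ → M) (hel : ∀ i t, el i * k t = k t * el i) (p : ℕ)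
    (hew : ∀ i < p, (ew i).prod = j (el i)) :
    ((CslV kw n ew p).flatten).prod =
      j (((List.range p).map el).prod * xi k (∑ i ∈ Finset.range p, n i)) := by
  induction p with
  | zero => simp [CslV, xi]
  | succ p ih =>
    have ih' := ih (fun i hi => hew i (Nat.lt_succ_of_lt hi))
    have h1 : (CslV kw n ew (p + 1)).flatten = (CslV kw n ew p).flatten ++ blkV kw n ew p := by
      unfold CslV
      rw [List.range_succ]
      simp
    rw [h1, List.prod_append, ih']
    unfold blkV
    rw [List.prod_append, prod_words j k kw hkw, hew p (Nat.lt_succ_self p), Finset.sum_range_succ,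
      xi_add, List.range_succ]
    simp only [List.map_append, List.map_cons, List.map_nil, List.prod_append, List.prod_cons,
      List.prod_nil, mul_one]
    rw [← map_mul, ← map_mul]
    congr 1
    have h2 := comm_xi k (el p) (hel p) (∑ i ∈ Finset.range p, n i)
    have h3 : el p * ((List.range (n p)).map
        (fun t => k (∑ i ∈ Finset.range p, n i + t))).prod =
        ((List.range (n p)).map (fun t => k (∑ i ∈ Finset.range p, n i + t))).prod * el p := by
      have h4 := comm_xi k (el p) (hel p) (∑ i ∈ Finset.range p, n i + n p)
      rw [xi_add, ← mul_assoc, h2, mul_assoc, mul_assoc] at h4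
      exact mul_left_cancel h4
    rw [mul_assoc, mul_assoc, ← h3, ← mul_assoc (xi k _) (el p), ← h2]
    simp only [mul_assoc]

theorem blkprod2 : S_BLKPROD2 := by
  intro G M _ _ j k kw hkw n ew el hel p N' hew
  rw [List.prod_append, prod_blocks j k kw hkw n ew el hel p hew, prod_words j k kw hkw, xi_add,
    ← map_mul, mul_assoc]

end Pool.Agent.H483.EZ
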