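import Pool.Agent.H724.EZ.Stm3

/-! EZ2-FAST2: a fast growing sequence (helper8) -/

set_option autoImplicit false

namespace Pool.Agent.H8.EZFast2

open Pool.Agent.H724.EZ

theorem Bn_mono {M : Type} [Group M] (B : Finset M) {m n : ℕ} (h : m ≤ n) : Bn B m ⊆ Bn B n := by
  rintro x ⟨l, h1, h2, h3⟩
  exact ⟨l, h1.trans h, h2, h3⟩

theorem Bn_finite {M : Type} [Group M] (B : Finset M) (n : ℕ) : (Bn B n).Finite := by
  induction n with
  | zero =>
    refine (Set.finite_singleton (1 : M)).subset ?_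
    rintro x ⟨l, h1, -, h3⟩
    have : l = [] := List.length_eq_zero_iff.1 (Nat.le_zero.1 h1)
    rw [this, List.prod_nil] at h3
    exact h3.symm
  | succ n ih =>
    refine ((Set.Finite.image2 (fun a b : M => a * b) B.finite_toSet ih).insert 1).subset ?_
    rintro x ⟨l, h1, h2, h3⟩
    cases l with
    | nil =>
      rw [List.prod_nil] at h3
      exact Set.mem_insert_iff.2 (Or.inl h3.symm)
    | cons a l =>
      refine Set.mem_insert_of_mem _ ?_
      rw [List.prod_cons] at h3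
      refine ⟨a, ?_, l.prod, ⟨l, ?_, ?_, rfl⟩, h3⟩
      · exact Finset.mem_coe.2 (h2 a List.mem_cons_self)
      · rw [List.length_cons] at h1
        omega
      · exact fun b hb => h2 b (List.mem_cons_of_mem _ hb)

theorem mem_Bn_of_closure {M : Type} [Group M] (B : Finset M) (hB : ∀ b ∈ B, b⁻¹ ∈ B) {z : M}
    (hz : z ∈ Subgroup.closure (B : Set M)) : ∃ n, z ∈ Bn B n := by
  have h : z ∈ (Subgroup.closure (B : Set M)).toSubmonoid := hz
  rw [Subgroup.closure_toSubmonoid] at h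
  obtain ⟨l, h1, h2⟩ := Submonoid.exists_list_of_mem_closure h
  refine ⟨l.length, l, le_rfl, ?_, h2⟩
  intro b hb
  rcases h1 b hb with h | h
  · exact Finset.mem_coe.1 h
  · have := hB _ (Finset.mem_coe.1 (Set.mem_inv.1 h))
    rwa [inv_inv] at this

theorem fast2 : S_FAST2 := by
  classical
  intro M G _ _ j hj B hB Φ hΦ
  have hN : ∀ s : ℕ, ∃ N : ℕ, ∀ (x z : M) (c d : G), x ∈ Bn B s →
      z ∈ Subgroup.closure (B : Set M) → c ∈ Φ → d ∈ Φ → j z = c * j x * d → z ∈ Bn B N := by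
    intro s
    let T : Set G := (fun p : (G × M) × G => p.1.1 * j p.1.2 * p.2) '' ((Φ ×ˢ Bn B s) ×ˢ Φ)
    have hT : T.Finite := ((hΦ.prod (Bn_finite B s)).prod hΦ).image _
    have hZ : (j ⁻¹' T).Finite := hT.preimage hj.injOn
    have hl : ∀ z : M, ∃ n : ℕ, z ∈ Subgroup.closure (B : Set M) → z ∈ Bn B n := by
      intro z
      by_cases h : z ∈ Subgroup.closure (B : Set M)
      · obtain ⟨n, hn⟩ := mem_Bn_of_closure B hB h
        exact ⟨n, fun _ => hn⟩
      · exact ⟨0, fun h' => absurd h' h⟩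
    choose f hf using hl
    refine ⟨hZ.toFinset.sup f, ?_⟩
    intro x z c d hx hz hc hd h
    have h1 : z ∈ hZ.toFinset := by
      rw [Set.Finite.mem_toFinset]
      exact ⟨((c, x), d), ⟨⟨hc, hx⟩, hd⟩, h.symm⟩
    exact Bn_mono B (Finset.le_sup (f := f) h1) (hf z hz)
  choose N hN using hN
  let F : ℕ → ℕ × ℕ := fun i => Nat.rec (1, 1)
    (fun _ p => (max p.1 (N p.2 + 1), p.2 + max p.1 (N p.2 + 1))) i
  have hF0 : F 0 = (1, 1) := rfl
  have hF1 : ∀ i, F (i + 1) =
      (max (F i).1 (N (F i).2 + 1), (F i).2 + max (F i).1 (N (F i).2 + 1)) := fun i => rfl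
  have hsum : ∀ i, ∑ k ∈ Finset.range (i + 1), (F k).1 = (F i).2 := by
    intro i
    induction i with
    | zero => rw [Finset.sum_range_one, hF0]
    | succ i ih => rw [Finset.sum_range_succ, ih, hF1]
  refine ⟨fun i => (F i).1, ?_, ?_, ?_⟩
  · intro i
    cases i with
    | zero =>
      show 1 ≤ (F 0).1
      rw [hF0]
    | succ i =>
      show 1 ≤ (F (i + 1)).1
      rw [hF1]
      exact le_max_of_le_right (by omega)
  · refine monotone_nat_of_le_succ fun i => ?_
    show (F i).1 ≤ (F (i + 1)).1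
    rw [hF1]
    exact le_max_left _ _
  · intro i x z c d hx hz hc hd h
    have hx' : x ∈ Bn B (F i).2 := by
      rw [← hsum i]
      exact hx
    refine Bn_mono B ?_ (hN (F i).2 x z c d hx' hz hc hd h)
    show N (F i).2 ≤ (F (i + 1)).1 - 1
    rw [hF1]
    have : N (F i).2 + 1 ≤ max (F i).1 (N (F i).2 + 1) := le_max_right _ _
    show N (F i).2 ≤ max (F i).1 (N (F i).2 + 1) - 1
    omega

end Pool.Agent.H8.EZFast2
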