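import Pool.Agent.H724.EZ.Stm3
import Pool.Graph.R_seed8.TH719.ED.Main

/-!
# Project EZ of helper724: commuting subgroups (FINAL2)
-/

set_option autoImplicit false

namespace Pool.Agent.H86.EZ

open Pool.Agent.TH719.ED Pool.Agent.H724.EZ

theorem final2 : S_FINAL2 := by
  classical
  intro hS2 G _ X hgen hET H K hH hK hKinf hcomm hzero
  obtain ⟨A, _, J, _, ι, ω, P, -, -, hL⟩ := hET
  obtain ⟨M, hM⟩ : ∃ M : Subgroup G, M = H ⊔ K := ⟨_, rfl⟩
  have hHM : H ≤ M := hM ▸ le_sup_left
  have hKM : K ≤ M := hM ▸ le_sup_right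
  -- `K` is normal in `M`
  have hMn : M ≤ Subgroup.normalizer (K : Set G) := by
    rw [hM]
    refine sup_le (fun x hx => ?_) Subgroup.le_normalizer
    rw [Subgroup.mem_normalizer_iff]
    intro z
    constructor
    · intro hz
      rw [hcomm x hx z hz, mul_inv_cancel_right]
      exact hz
    · intro hz
      have h1 := hcomm x hx _ hz
      have h2 : z = x * z * x⁻¹ := by
        have h3 : x * z = x * z * x⁻¹ * x := by group
        have h4 : x * (x * z * x⁻¹) = x * z := by rw [h1, ← h3]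
        exact (mul_left_cancel h4).symm
      rw [h2]
      exact hz
  have hnorm : (K.subgroupOf M).Normal := (Subgroup.normal_subgroupOf_iff_le_normalizer hKM).2 hMn
  -- generators of `K`
  obtain ⟨SK, hSK⟩ := hK
  have hSKM : ∀ x ∈ SK, x ∈ M := fun x hx => hKM (hSK ▸ Subgroup.subset_closure hx)
  obtain ⟨B0, hB0⟩ : ∃ B0 : Finset M, ∀ x : M, x ∈ B0 ↔ (x : G) ∈ SK := by
    refine ⟨SK.attach.image (fun x => (⟨x.1, hSKM x.1 x.2⟩ : M)), fun x => ?_⟩
    rw [Finset.mem_image]
    constructor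
    · rintro ⟨y, -, rfl⟩
      exact y.2
    · intro hx
      exact ⟨⟨x.1, hx⟩, Finset.mem_attach _ _, rfl⟩
  obtain ⟨B, hB⟩ : ∃ B : Finset M, B = B0 ∪ B0.image (fun x => x⁻¹) := ⟨_, rfl⟩
  have hBi : ∀ b ∈ B, b⁻¹ ∈ B := by
    intro b hb
    rw [hB, Finset.mem_union, Finset.mem_image] at hb ⊢
    rcases hb with hb | ⟨y, hy, rfl⟩
    · exact Or.inr ⟨b, hb, rfl⟩
    · rw [inv_inv]
      exact Or.inl hy
  have hcl0 : Subgroup.closure (B0 : Set M) = K.subgroupOf M := by
    apply Subgroup.map_injective M.subtype_injective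
    rw [Subgroup.subgroupOf_map_subtype, inf_eq_left.2 hKM, MonoidHom.map_closure, ← hSK]
    congr 1
    ext x
    constructor
    · rintro ⟨y, hy, rfl⟩
      exact (hB0 y).1 hy
    · intro hx
      exact ⟨⟨x, hSKM x hx⟩, (hB0 _).2 hx, rfl⟩
  have hcl : Subgroup.closure (B : Set M) = K.subgroupOf M := by
    apply le_antisymm
    · rw [Subgroup.closure_le, ← hcl0]
      intro x hx
      rw [Finset.mem_coe, hB, Finset.mem_union, Finset.mem_image] at hx
      rcases hx with hx | ⟨y, hy, rfl⟩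
      · exact Subgroup.subset_closure hx
      · exact inv_mem (Subgroup.subset_closure hy)
    · rw [← hcl0]
      refine Subgroup.closure_mono fun x hx => ?_
      rw [Finset.mem_coe, hB]
      exact Finset.mem_union_left _ hx
  have hinf : (Subgroup.closure (B : Set M) : Set M).Infinite := by
    rw [hcl]
    intro hfin
    apply hKinf
    refine (hfin.image (M.subtype)).subset fun x hx => ?_
    exact ⟨⟨x, hKM hx⟩, hx, rfl⟩
  -- the quotient
  have hπ : ∀ x : M, QuotientGroup.mk' (K.subgroupOf M) x = 1 ↔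
      x ∈ Subgroup.closure (B : Set M) := by
    intro x
    rw [hcl]
    exact QuotientGroup.eq_one_iff x
  have hsup : H.subgroupOf M ⊔ K.subgroupOf M = ⊤ := by
    rw [← Subgroup.subgroupOf_sup hHM hKM, ← hM, Subgroup.subgroupOf_self]
  have hlift : ∀ q : M ⧸ (K.subgroupOf M), ∃ x : M, QuotientGroup.mk' (K.subgroupOf M) x = q ∧
      ∀ b ∈ B, x * b = b * x := by
    intro q
    obtain ⟨m, rfl⟩ := QuotientGroup.mk'_surjective (K.subgroupOf M) q
    have h1 : m ∈ ((H.subgroupOf M ⊔ K.subgroupOf M : Subgroup M) : Set M) := by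
      rw [hsup]
      exact Subgroup.mem_top m
    rw [Subgroup.mul_normal] at h1
    obtain ⟨x, hx, y, hy, rfl⟩ := h1
    refine ⟨x, ?_, fun b hb => ?_⟩
    · show QuotientGroup.mk' (K.subgroupOf M) x = QuotientGroup.mk' (K.subgroupOf M) (x * y)
      rw [map_mul]
      have h2 : QuotientGroup.mk' (K.subgroupOf M) y = 1 := by
        rw [hπ, hcl]
        exact hy
      rw [h2, mul_one]
    · have h3 : b ∈ K.subgroupOf M := by
        rw [← hcl]
        exact Subgroup.subset_closure hb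
      apply Subtype.ext
      exact hcomm x.1 hx b.1 h3
  have hword := exists_word X hgen
  have hsw : ∀ E : Finset (M ⧸ (K.subgroupOf M)), Sweepable (E : Set (M ⧸ (K.subgroupOf M))) :=
    fun E => hS2 {x : G | x ∈ X ∨ x⁻¹ ∈ X} hword ι ω P hL M.subtype M.subtype_injective B hBi hinf
      (QuotientGroup.mk' (K.subgroupOf M)) hπ hlift E
  have htor : ∀ g : M ⧸ (K.subgroupOf M), IsOfFinOrder g := fun g => torsion_of_sweepable g (by
    have := hsw {1, g, g⁻¹}
    simpa using this)
  -- the quotient is finitely generated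
  have hMfg : M.FG := by
    obtain ⟨SH, hSH⟩ := hH
    refine ⟨SH ∪ SK, ?_⟩
    rw [Finset.coe_union, Subgroup.closure_union, hSH, hSK, hM]
  have : Group.FG M := (Group.fg_iff_subgroup_fg M).2 hMfg
  have : Group.FG (M ⧸ (K.subgroupOf M)) := QuotientGroup.fg _
  obtain ⟨S1, hS1, hS1f⟩ := Group.fg_iff.1 ‹Group.FG (M ⧸ (K.subgroupOf M))›
  obtain ⟨S, hS⟩ : ∃ S : Finset (M ⧸ (K.subgroupOf M)),
      S = hS1f.toFinset ∪ hS1f.toFinset.image (fun x => x⁻¹) := ⟨_, rfl⟩
  have hSi : ∀ x ∈ S, x⁻¹ ∈ S := by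
    intro b hb
    rw [hS, Finset.mem_union, Finset.mem_image] at hb ⊢
    rcases hb with hb | ⟨y, hy, rfl⟩
    · exact Or.inr ⟨b, hb, rfl⟩
    · rw [inv_inv]
      exact Or.inl hy
  have hSgen : Subgroup.closure (S : Set (M ⧸ (K.subgroupOf M))) = ⊤ := by
    rw [eq_top_iff, ← hS1]
    refine Subgroup.closure_mono fun x hx => ?_
    rw [Finset.mem_coe, hS]
    exact Finset.mem_union_left _ (hS1f.mem_toFinset.2 hx)
  have hfin : Finite (M ⧸ (K.subgroupOf M)) :=
    finite_of_poly S hSi hSgen htor (growth_of_sweepable S hSi (hsw S))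
  have h1 := Subgroup.relIndex_eq_zero_of_le_right hHM hzero
  have h2 : Nat.card (M ⧸ (K.subgroupOf M)) = 0 := h1
  exact Nat.card_pos.ne' h2

end Pool.Agent.H86.EZ

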