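import Pool.Agent.H724.EZ.Stm3

set_option autoImplicit false

namespace Pool.Agent.H873.EZG

open Pool.Agent.H724.EZ

theorem bn_finite {M : Type} [Group M] (B : Finset M) (n : ℕ) : (Bn B n).Finite := by
  classical
  induction n with
  | zero =>
    apply (Set.finite_singleton (1 : M)).subset
    rintro x ⟨l, hl, -, rfl⟩
    have : l = [] := List.length_eq_zero_iff.mp (Nat.le_zero.mp hl)
    subst this
    simp
  | succ n ih =>
    apply ((Set.finite_singleton (1 : M)).union
      (Set.Finite.image2 (fun a b : M => a * b) B.finite_toSet ih)).subset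
    rintro x ⟨l, hl, hB, rfl⟩
    cases l with
    | nil => left; simp
    | cons a l =>
      right
      exact ⟨a, hB a (by simp), l.prod,
        ⟨l, by simpa using hl, fun b hb => hB b (by simp [hb]), rfl⟩, by simp⟩

theorem exists_word {M : Type} [Group M] (B : Finset M) (hB : ∀ b ∈ B, b⁻¹ ∈ B) (x : M)
    (hx : x ∈ Subgroup.closure (B : Set M)) : ∃ l : List M, (∀ b ∈ l, b ∈ B) ∧ l.prod = x := by
  rw [← Subgroup.mem_toSubmonoid, Subgroup.closure_toSubmonoid] at hx
  obtain ⟨l, hl, rfl⟩ := Submonoid.exists_list_of_mem_closure hx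
  refine ⟨l, fun b hb => ?_, rfl⟩
  rcases hl b hb with h | h
  · exact h
  · have := hB _ h
    simpa using this

theorem xi_take {M : Type} [Group M] (l : List M) (b0 : M) (a : ℕ) (ha : a ≤ l.length) :
    xi (fun t => l.getD t b0) a = (l.take a).prod := by
  unfold xi
  congr 1
  apply List.ext_getElem
  · simp [ha]
  · intro i h1 h2
    have h3 : i < l.length := by
      have : i < a := by simpa using h1
      omega
    simp [List.getD, List.getElem?_eq_getElem h3]

theorem geo : S_GEO := by
  classical
  intro M _ B hB hinf N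
  obtain ⟨x, hx, hxN⟩ : ∃ x ∈ (Subgroup.closure (B : Set M) : Set M), x ∉ Bn B N :=
    (hinf.sdiff (bn_finite B N)).nonempty
  have hex : ∃ n : ℕ, ∃ l : List M, l.length = n ∧ (∀ b ∈ l, b ∈ B) ∧ l.prod = x := by
    obtain ⟨l, h1, h2⟩ := exists_word B hB x hx
    exact ⟨l.length, l, rfl, h1, h2⟩
  obtain ⟨l, hlen, hlB, hlx⟩ := Nat.find_spec hex
  have hmin : ∀ l' : List M, (∀ b ∈ l', b ∈ B) → l'.prod = x → l.length ≤ l'.length := by
    intro l' h1 h2
    rw [hlen]
    exact Nat.find_min' hex ⟨l', rfl, h1, h2⟩
  have hLN : N < l.length := by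
    by_contra hcon
    exact hxN ⟨l, by omega, hlB, hlx⟩
  have hne : l ≠ [] := by
    intro h
    rw [h] at hLN
    simp at hLN
  obtain ⟨b0, hb0⟩ := List.exists_mem_of_ne_nil l hne
  refine ⟨fun t => l.getD t b0, fun t => ?_, ?_⟩
  · by_cases ht : t < l.length
    · have : l.getD t b0 = l[t] := by simp [List.getD, List.getElem?_eq_getElem ht]
      simp only [this]
      exact hlB _ (List.getElem_mem ht)
    · have : l.getD t b0 = b0 := List.getD_eq_default _ _ (by omega)
      simp only [this]
      exact hlB _ hb0
  · intro a b hab hbN hmem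
    rw [xi_take l b0 a (by omega), xi_take l b0 b (by omega)] at hmem
    obtain ⟨u, hu1, hu2, hu3⟩ := hmem
    have h1 := hmin (l.take a ++ u ++ l.drop b) (by
      intro c hc
      simp only [List.mem_append] at hc
      rcases hc with (hc | hc) | hc
      · exact hlB c (List.mem_of_mem_take hc)
      · exact hu2 c hc
      · exact hlB c (List.mem_of_mem_drop hc)) (by
      rw [List.prod_append, List.prod_append, hu3, ← hlx, mul_inv_cancel_left,
        ← List.prod_append, List.take_append_drop])
    simp only [List.length_append, List.length_take, List.length_drop] at h1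
    omega

end Pool.Agent.H873.EZG
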