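import Pool.Agent.H724.EZ.Stm3

/-!
# WORD3: the word for a closed path (helper333)
-/

set_option autoImplicit false

namespace Pool.Agent.H333.EZW3

open Pool.Agent.TH719.ED Pool.Agent.H724.EZ

lemma PF_finite {G : Type} [Group G] (w : List G) :
    (Set.range fun k : ℕ => (w.take k).prod).Finite := by
  refine ((Set.finite_Iic w.length).image (fun k : ℕ => (w.take k).prod)).subset ?_
  rintro _ ⟨k, rfl⟩
  rcases le_total k w.length with h | h
  · exact ⟨k, h, rfl⟩
  · refine ⟨w.length, Set.mem_Iic.2 le_rfl, ?_⟩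
    simp only [List.take_length, List.take_of_length_le h]

lemma map_rep_prod {G M : Type} [Group G] [Group M] (j : M →* G) (rep : G → List G)
    (hrp : ∀ g, (rep g).prod = g) (l : List M) :
    ((l.map fun b => rep (j b)).flatten).prod = j l.prod := by
  induction l with
  | nil => simp
  | cons b l ih =>
    rw [List.map_cons, List.flatten_cons, List.prod_append, ih, hrp, List.prod_cons, map_mul]

lemma xi_mem {M : Type} [Group M] (B : Finset M) (k : ℕ → M) (hk : ∀ t, k t ∈ B) (a : ℕ) :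
    xi k a ∈ Subgroup.closure (B : Set M) := by
  unfold xi
  apply Subgroup.list_prod_mem
  intro x hx
  obtain ⟨t, -, rfl⟩ := List.mem_map.1 hx
  exact Subgroup.subset_closure (hk t)

lemma tele {M Q : Type} [Group M] [Group Q] (π : M →* Q) (S : ℕ → Q) (h0 : S 0 = 1)
    (el : ℕ → M) (hel : ∀ i, π (el i) = (S i)⁻¹ * S (i + 1)) (p : ℕ) :
    π (((List.range p).map el).prod) = S p := by
  induction p with
  | zero => simp [h0]
  | succ p ih =>
    rw [List.range_succ, List.map_append, List.prod_append, map_mul, ih]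
    simp [hel]

lemma comm_prod {M : Type} [Group M] (el : ℕ → M) (b : M) (h : ∀ i, el i * b = b * el i) (p : ℕ) :
    ((List.range p).map el).prod * b = b * ((List.range p).map el).prod := by
  induction p with
  | zero => simp
  | succ p ih =>
    rw [List.range_succ, List.map_append, List.prod_append]
    simp only [List.map_cons, List.map_nil, List.prod_cons, List.prod_nil, mul_one]
    rw [mul_assoc, h, ← mul_assoc, ih, mul_assoc]

theorem word3 : S_WORD3 := by
  rintro ⟨hGEO, hFAST, hPRE, hPOS, hBLK, hINEQ⟩ G M Q _ _ _ X hX j hj B hB hinf π hπ hlift E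
  classical
  obtain ⟨x0, hx0, hx1⟩ := hinf.nontrivial.exists_ne (1 : M)
  have hrep : ∀ g : G, ∃ w : List G, (∀ x ∈ w, x ∈ X) ∧ w.prod = g ∧ w ≠ [] := by
    intro g
    obtain ⟨w1, h1, h2⟩ := hX (j x0)
    obtain ⟨w2, h3, h4⟩ := hX ((j x0)⁻¹ * g)
    refine ⟨w1 ++ w2, ?_, ?_, ?_⟩
    · intro x hx
      rcases List.mem_append.1 hx with h | h
      · exact h1 x h
      · exact h3 x h
    · rw [List.prod_append, h2, h4, mul_inv_cancel_left]
    · intro h
      have h5 := (List.append_eq_nil_iff.1 h).1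
      rw [h5, List.prod_nil] at h2
      exact hx1 (hj (by rw [← h2, map_one]))
  choose rep hrX hrp hrne using hrep
  choose lift hlπ hlc using hlift
  obtain ⟨Q0, hQ0, hQ1, hQE, hQB⟩ : ∃ Q0 : Set G, Q0.Finite ∧ (1 : G) ∈ Q0 ∧
      (∀ q ∈ E, ∀ k, ((rep (j (lift q))).take k).prod ∈ Q0) ∧
      (∀ b ∈ B, ∀ k, ((rep (j b)).take k).prod ∈ Q0) := by
    refine ⟨insert 1 (⋃ g ∈ ((fun q => j (lift q)) '' (E : Set Q) ∪ j '' (B : Set M)),
      Set.range fun k : ℕ => ((rep g).take k).prod), ?_, Set.mem_insert _ _, ?_, ?_⟩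
    · exact Set.Finite.insert _ (Set.Finite.biUnion
        ((E.finite_toSet.image _).union (B.finite_toSet.image _)) fun g _ => PF_finite _)
    · intro q hq k
      exact Set.mem_insert_of_mem _ (Set.mem_biUnion (Or.inl ⟨q, hq, rfl⟩) ⟨k, rfl⟩)
    · intro b hb k
      exact Set.mem_insert_of_mem _ (Set.mem_biUnion (Or.inr ⟨b, hb, rfl⟩) ⟨k, rfl⟩)
  refine ⟨Q0, hQ0, fun m S hS0 hSm hSE => ?_⟩
  obtain ⟨el, hel⟩ : ∃ el : ℕ → M, el = fun i => lift ((S i)⁻¹ * S (i + 1)) := ⟨_, rfl⟩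
  obtain ⟨T, hT⟩ : ∃ T : ℕ → M, T = fun p => ((List.range p).map el).prod := ⟨_, rfl⟩
  have helπ : ∀ i, π (el i) = (S i)⁻¹ * S (i + 1) := fun i => by rw [hel]; exact hlπ _
  have hTπ : ∀ p, π (T p) = S p := fun p => by rw [hT]; exact tele π S hS0 el helπ p
  obtain ⟨Φ, hΦ, hΦ1, hΦ2⟩ : ∃ Φ : Set G, Φ.Finite ∧
      (∀ p q p' q' : ℕ, p ≤ m → q ≤ m → p' ≤ m → q' ≤ m → ∀ a ∈ Q0, ∀ b ∈ Q0,
        (j ((T p')⁻¹ * T q'))⁻¹ * a * b⁻¹ * j ((T p)⁻¹ * T q) ∈ Φ) ∧
      (∀ a ∈ Q0, ∀ b ∈ Q0, a * b⁻¹ ∈ Φ) := by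
    have hI := Set.finite_Iic m
    refine ⟨(fun x : ℕ × ℕ × ℕ × ℕ × G × G =>
        (j ((T x.2.2.1)⁻¹ * T x.2.2.2.1))⁻¹ * x.2.2.2.2.1 * x.2.2.2.2.2⁻¹ *
          j ((T x.1)⁻¹ * T x.2.1)) ''
        (Set.Iic m ×ˢ Set.Iic m ×ˢ Set.Iic m ×ˢ Set.Iic m ×ˢ Q0 ×ˢ Q0) ∪
        (fun x : G × G => x.1 * x.2⁻¹) '' (Q0 ×ˢ Q0), ?_, ?_, ?_⟩
    · exact ((hI.prod (hI.prod (hI.prod (hI.prod (hQ0.prod hQ0))))).image _).union
        ((hQ0.prod hQ0).image _)
    · intro p q p' q' hp hq hp' hq' a ha b hb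
      exact Or.inl ⟨(p, q, p', q', a, b), ⟨hp, hq, hp', hq', ha, hb⟩, rfl⟩
    · intro a ha b hb
      exact Or.inr ⟨(a, b), ⟨ha, hb⟩, rfl⟩
  obtain ⟨n, hn1, hnm, hn⟩ := hFAST j hj B hB Φ hΦ
  obtain ⟨k, hkB, hkg⟩ := hGEO B hB hinf (∑ i ∈ Finset.range (m + 1), n i)
  have helk : ∀ i t, el i * k t = k t * el i := fun i t => by rw [hel]; exact hlc _ _ (hkB t)
  have hTk : ∀ i t, T i * k t = k t * T i := fun i t => by
    rw [hT]; exact comm_prod el (k t) (fun i => helk i t) i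
  obtain ⟨kw, hkw⟩ : ∃ kw : ℕ → List G, kw = fun t => rep (j (k t)) := ⟨_, rfl⟩
  obtain ⟨ew, hew⟩ : ∃ ew : ℕ → List G, ew = fun i => rep (j (el i)) := ⟨_, rfl⟩
  have hkwp : ∀ t, (kw t).prod = j (k t) := fun t => by rw [hkw]; exact hrp _
  have hkwne : ∀ t, kw t ≠ [] := fun t => by rw [hkw]; exact hrne _
  have hkwX : ∀ t, ∀ x ∈ kw t, x ∈ X := fun t => by rw [hkw]; exact hrX _
  have hewp : ∀ i, (ew i).prod = j (el i) := fun i => by rw [hew]; exact hrp _
  have hewne : ∀ i, ew i ≠ [] := fun i => by rw [hew]; exact hrne _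
  have hewX : ∀ i, ∀ x ∈ ew i, x ∈ X := fun i => by rw [hew]; exact hrX _
  obtain ⟨C, hC⟩ : ∃ C : List (List G), C = CslV kw n ew m := ⟨_, rfl⟩
  have hCl : C.length = m := by simp [hC, CslV]
  have hCne : ∀ c ∈ C, c ≠ [] := by
    intro c hc
    rw [hC] at hc
    obtain ⟨i, -, rfl⟩ := List.mem_map.1 hc
    intro h
    exact hewne i (List.append_eq_nil_iff.1 h).2
  have hCX : ∀ x ∈ C.flatten, x ∈ X := by
    intro x hx
    obtain ⟨c, hc, hxc⟩ := List.mem_flatten.1 hx
    rw [hC] at hc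
    obtain ⟨i, -, rfl⟩ := List.mem_map.1 hc
    rcases List.mem_append.1 hxc with h | h
    · obtain ⟨d, hd, hxd⟩ := List.mem_flatten.1 h
      obtain ⟨t, -, rfl⟩ := List.mem_map.1 hd
      exact hkwX _ x hxd
    · exact hewX i x h
  have hprod : C.flatten.prod = j (T m * xi k (∑ i ∈ Finset.range m, n i)) := by
    have := hBLK j k kw hkwp n ew el helk m 0 (fun i _ => hewp i)
    rw [← hC] at this
    rw [hT]
    simpa using this
  have hpre : ∀ z ≤ C.flatten.length, ∃ (N : ℕ) (κ : G),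
      (C.flatten.take z).prod = j (T (blk C z) * xi k N) * κ ∧ κ ∈ Q0 ∧
      ∑ i ∈ Finset.range (blk C z), n i ≤ N ∧ N ≤ ∑ i ∈ Finset.range (blk C z + 1), n i ∧
      (z = 0 → κ = 1) ∧ (blk C z = m → κ = 1) := by
    intro z hz
    rw [hC] at hz ⊢
    obtain ⟨N, κ, h1, h2, h3, h4, h5, h6⟩ := hPRE ⟨hPOS, hBLK⟩ j k kw hkwp hkwne n hn1 ew el
      helk m (fun i _ => hewp i) z hz
    refine ⟨N, κ, ?_, ?_, h2, h3, h5, fun h => (h6 h).1⟩
    · rw [h1, hT]
    · rcases h4 with ⟨t, a, rfl⟩ | ⟨i, hi, a, rfl⟩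
      · rw [hkw]
        exact hQB _ (hkB t) a
      · rw [hew, hel]
        exact hQE _ (hSE i hi) a
  have hK : (T m * xi k (∑ i ∈ Finset.range m, n i))⁻¹ ∈ Subgroup.closure (B : Set M) := by
    refine Subgroup.inv_mem _ (Subgroup.mul_mem _ ?_ (xi_mem B k hkB _))
    exact (hπ _).1 ((hTπ m).trans hSm)
  rw [← Subgroup.mem_toSubmonoid, Subgroup.closure_toSubmonoid] at hK
  obtain ⟨l, hl1, hl2⟩ := Submonoid.exists_list_of_mem_closure hK
  have hlB : ∀ y ∈ l, y ∈ B := by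
    intro y hy
    rcases hl1 y hy with h | h
    · exact h
    · have := hB _ (Set.mem_inv.1 h)
      rwa [inv_inv] at this
  obtain ⟨Cf, hCf⟩ : ∃ Cf : List (List G), Cf = l.map fun b => rep (j b) := ⟨_, rfl⟩
  have hCfX : ∀ x ∈ Cf.flatten, x ∈ X := by
    intro x hx
    obtain ⟨c, hc, hxc⟩ := List.mem_flatten.1 hx
    rw [hCf] at hc
    obtain ⟨b, -, rfl⟩ := List.mem_map.1 hc
    exact hrX _ x hxc
  have hCfprod : Cf.flatten.prod = (j (T m * xi k (∑ i ∈ Finset.range m, n i)))⁻¹ := by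
    rw [hCf, map_rep_prod j rep hrp, hl2, map_inv]
  have hWprod : (C.flatten ++ Cf.flatten).prod = 1 := by
    rw [List.prod_append, hprod, hCfprod, mul_inv_cancel]
  have hπtail : ∀ a, π ((l.take a).prod) = 1 := by
    intro a
    rw [hπ]
    apply Subgroup.list_prod_mem
    intro x hx
    exact Subgroup.subset_closure (hlB x (List.mem_of_mem_take hx))
  have hπxi : ∀ a, π (xi k a) = 1 := fun a => (hπ _).2 (xi_mem B k hkB a)
  have hbkz1 : ∀ z, C.flatten.length ≤ z → blk C z = m := by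
    intro z hz
    refine le_antisymm (hCl ▸ blk_le_length C z) ?_
    have h1 := blk_mono C hz
    rw [blk_total, hCl] at h1
    exact h1
  have hall : ∀ z ≤ (C.flatten ++ Cf.flatten).length, ∃ (h : M) (κ : G),
      ((C.flatten ++ Cf.flatten).take z).prod = j h * κ ∧ κ ∈ Q0 ∧ π h = S (blk C z) ∧
      (z = 0 → κ = 1) ∧ (z = (C.flatten ++ Cf.flatten).length → κ = 1) := by
    intro z hz
    rcases le_or_gt z C.flatten.length with h | h
    · obtain ⟨N, κ, h1, h2, h3, h4, h5, h6⟩ := hpre z h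
      refine ⟨T (blk C z) * xi k N, κ, ?_, h2, ?_, h5, ?_⟩
      · rw [List.take_append_of_le_length h, h1]
      · rw [map_mul, hπxi, mul_one, hTπ]
      · intro h7
        apply h6
        apply hbkz1
        rw [h7, List.length_append]
        omega
    · by_cases hz2 : z = (C.flatten ++ Cf.flatten).length
      · refine ⟨1, 1, ?_, hQ1, ?_, fun _ => rfl, fun _ => rfl⟩
        · rw [hz2, List.take_length, hWprod, map_one, mul_one]
        · rw [hbkz1 z h.le, hSm, map_one]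
      · obtain ⟨c, a, h1, h2, h3⟩ := take_flatten Cf (z - C.flatten.length)
        refine ⟨T m * xi k (∑ i ∈ Finset.range m, n i) *
          (l.take (blk Cf (z - C.flatten.length))).prod, (c.take a).prod, ?_, ?_, ?_,
          fun h0 => by omega, fun h0 => absurd h0 hz2⟩
        · rw [List.take_append, List.take_of_length_le h.le, List.prod_append, hprod, h3,
            List.prod_append]
          have h4 : (Cf.take (blk Cf (z - C.flatten.length))).flatten.prod =
              j ((l.take (blk Cf (z - C.flatten.length))).prod) := by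
            rw [← map_rep_prod j rep hrp, List.map_take, ← hCf]
          rw [h4, map_mul j (T m * xi k (∑ i ∈ Finset.range m, n i)), mul_assoc]
        · rcases h1 with h1 | h1
          · rw [hCf] at h1
            obtain ⟨b, hb, rfl⟩ := List.mem_map.1 h1
            exact hQB b (hlB b hb) a
          · rw [h1, List.take_nil, List.prod_nil]
            exact hQ1
        · rw [map_mul, map_mul, hπxi, hπtail, hTπ, hbkz1 z h.le, mul_one, mul_one]
  have hall' : ∀ z, ∃ (h : M) (κ : G), z ≤ (C.flatten ++ Cf.flatten).length →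
      (((C.flatten ++ Cf.flatten).take z).prod = j h * κ ∧ κ ∈ Q0 ∧ π h = S (blk C z) ∧
      (z = 0 → κ = 1) ∧ (z = (C.flatten ++ Cf.flatten).length → κ = 1)) := by
    intro z
    by_cases hz : z ≤ (C.flatten ++ Cf.flatten).length
    · obtain ⟨h, κ, h1⟩ := hall z hz
      exact ⟨h, κ, fun _ => h1⟩
    · exact ⟨1, 1, fun h => absurd h hz⟩
  choose h κ hhκ using hall'
  have hz1 : C.flatten.length ≤ (C.flatten ++ Cf.flatten).length := by
    rw [List.length_append]; omega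
  refine ⟨C.flatten ++ Cf.flatten, blk C, h, κ, C.flatten.length, ?_, hWprod, blk_mono C,
    blk_zero C hCne, hbkz1 _ hz1, fun z => hCl ▸ blk_le_length C z,
    fun z => blk_succ_le C hCne z, hbkz1, fun z hz => ?_, ?_, ?_, ?_⟩
  · intro x hx
    rcases List.mem_append.1 hx with h1 | h1
    · exact hCX x h1
    · exact hCfX x h1
  · obtain ⟨h1, h2, h3, -, -⟩ := hhκ z hz
    exact ⟨h1, h2, h3⟩
  · exact (hhκ 0 (Nat.zero_le _)).2.2.2.1 rfl
  · exact (hhκ _ le_rfl).2.2.2.2 rfl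
  · intro s e s' e' hse hes hse' hez1 _ hb1 hb2
    obtain ⟨Ns, κs, a1, a2, a3, a4, -, -⟩ := hpre s (by omega)
    obtain ⟨Ne, κe, b1, b2, b3, b4, -, -⟩ := hpre e (by omega)
    obtain ⟨Ns', κs', c1, c2, c3, c4, -, -⟩ := hpre s' (by omega)
    obtain ⟨Ne', κe', d1, d2, d3, d4, -, -⟩ := hpre e' (by omega)
    have hle : ∀ z, blk C z ≤ m := fun z => hCl ▸ blk_le_length C z
    rw [List.take_append_of_le_length (by omega : s ≤ C.flatten.length),
      List.take_append_of_le_length (by omega : e ≤ C.flatten.length),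
      List.take_append_of_le_length (by omega : s' ≤ C.flatten.length),
      List.take_append_of_le_length (by omega : e' ≤ C.flatten.length), a1, b1, c1, d1]
    refine hINEQ j B hB n hn1 hnm Φ hn k hkB (∑ i ∈ Finset.range (m + 1), n i) hkg T hTk
      (blk C s) (blk C e) (blk C s') (blk C e') Ns Ne Ns' Ne' κs κe κs' κe' hb1
      (blk_mono C hes) hb2 (d4.trans ?_) a4 b3 b4 c4 d3
      (hΦ1 _ _ _ _ (hle _) (hle _) (hle _) (hle _) _ c2 _ a2) (hΦ2 _ b2 _ d2)
    refine Finset.sum_le_sum_of_subset (Finset.range_mono ?_)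
    have := hle e'
    omega

end Pool.Agent.H333.EZW3
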