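import Pool.Agent.H724.EZ.Stm4

/-!
# COR4: commuting finitely generated subgroups (helper977 for helper724)
-/

set_option autoImplicit false

namespace Pool.Agent.H977.EZCOR4

open Pool.Agent.H724.EZ

theorem cor4 : S_COR4 := by
  intro G _ h H K hH hK hKi hc
  have hle : H ⊔ K ≤ Subgroup.normalizer (K : Set G) := by
    refine sup_le (fun x hx => ?_) Subgroup.le_normalizer
    rw [Subgroup.mem_normalizer_iff]
    intro z
    constructor
    · intro hz
      rw [hc x hx z hz, mul_assoc, mul_inv_cancel, mul_one]
      exact hz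
    · intro hz
      have h1 := hc x⁻¹ (inv_mem hx) _ hz
      have h2 : x⁻¹ * (x * z * x⁻¹) * x = z := by group
      rw [h1, inv_mul_cancel_right] at h2
      rwa [h2] at hz
  have h1 : K.relIndex (H ⊔ K) ≠ 0 := by
    refine h (H ⊔ K) K (hH.sup hK) hK le_sup_right hKi fun x hx z hz => ?_
    exact (Subgroup.mem_normalizer_iff.mp (hle hx) z).mp hz
  exact fun h0 => h1 (Subgroup.relIndex_eq_zero_of_le_right le_sup_left h0)

end Pool.Agent.H977.EZCOR4
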