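import Pool.Agent.H724.EZ.Stm4

set_option autoImplicit false

/-!
# Escaping from a finite set in a Cayley graph (helper180, for helper724)
-/

namespace Pool.Agent.H180.EZ

open Pool.Agent.H724.EZ

/-- a step outside of `Φ` -/
def st {M : Type} [Group M] (B : Finset M) (Φ : Set M) (y z : M) : Prop :=
  y ∉ Φ ∧ z ∉ Φ ∧ ∃ b ∈ B, z = y * b

theorem path {M : Type} [Group M] {B : Finset M} {Φ : Set M} {x y : M} (hx : x ∉ Φ)
    (h : Relation.ReflTransGen (st B Φ) x y) :
    ∃ l : List M, (∀ b ∈ l, b ∈ B) ∧ (∀ t ≤ l.length, x * (l.take t).prod ∉ Φ) ∧ x * l.prod = y := by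
  induction h with
  | refl =>
    refine ⟨[], by simp, fun t _ => ?_, by simp⟩
    simpa using hx
  | tail _ h ih =>
    obtain ⟨l, h1, h2, h3⟩ := ih
    obtain ⟨_, h4, b, hb, h5⟩ := h
    refine ⟨l ++ [b], ?_, ?_, ?_⟩
    · intro c hc
      rcases List.mem_append.1 hc with hc | hc
      · exact h1 c hc
      · rw [List.mem_singleton.1 hc]
        exact hb
    · intro t ht
      rcases Nat.lt_or_ge l.length t with h6 | h6
      · rw [List.take_of_length_le (by simp; omega), List.prod_append, List.prod_singleton,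
          ← mul_assoc, h3, ← h5]
        exact h4
      · rw [List.take_append_of_le_length h6]
        exact h2 t h6
    · rw [List.prod_append, List.prod_singleton, ← mul_assoc, h3, h5]

theorem st_symm {M : Type} [Group M] {B : Finset M} (hB : ∀ b ∈ B, b⁻¹ ∈ B) (Φ : Set M) :
    ∀ x y : M, st B Φ x y → st B Φ y x := by
  rintro x y ⟨h1, h2, b, hb, h3⟩
  exact ⟨h2, h1, b⁻¹, hB b hb, by rw [h3, mul_inv_cancel_right]⟩

theorem reach_symm {M : Type} [Group M] {B : Finset M} (hB : ∀ b ∈ B, b⁻¹ ∈ B) {Φ : Set M}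
    {x y : M} (h : Relation.ReflTransGen (st B Φ) x y) : Relation.ReflTransGen (st B Φ) y x := by
  induction h with
  | refl => exact Relation.ReflTransGen.refl
  | tail _ h ih => exact Relation.ReflTransGen.head (st_symm hB Φ _ _ h) ih

theorem reach_not {M : Type} [Group M] {B : Finset M} {Φ : Set M} {x y : M} (hx : x ∉ Φ)
    (h : Relation.ReflTransGen (st B Φ) x y) : y ∉ Φ := by
  induction h with
  | refl => exact hx
  | tail _ h _ => exact h.2.1

theorem words {M : Type} [Group M] {B : Finset M} (hB : ∀ b ∈ B, b⁻¹ ∈ B) {z : M}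
    (hz : z ∈ Subgroup.closure (B : Set M)) : ∃ l : List M, (∀ b ∈ l, b ∈ B) ∧ l.prod = z := by
  have key : ∀ (l : List M) (b : M), (∀ b ∈ l, b ∈ B) → b ∈ B → ∀ c ∈ l ++ [b], c ∈ B := by
    intro l b h1 hb c hc
    rcases List.mem_append.1 hc with hc | hc
    · exact h1 c hc
    · rw [List.mem_singleton.1 hc]
      exact hb
  induction hz using Subgroup.closure_induction_right with
  | one => exact ⟨[], by simp, rfl⟩
  | mul_right a _ b hb ih =>
    obtain ⟨l, h1, h2⟩ := ih
    exact ⟨l ++ [b], key l b h1 hb, by rw [List.prod_append, List.prod_singleton, h2]⟩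
  | mul_inv_cancel a _ b hb ih =>
    obtain ⟨l, h1, h2⟩ := ih
    exact ⟨l ++ [b⁻¹], key l _ h1 (hB b hb), by rw [List.prod_append, List.prod_singleton, h2]⟩

theorem esc : S_ESC := by
  intro M _ B hB hinf
  have hinf2 : ∀ x : M, ((fun z => x * z) '' (Subgroup.closure (B : Set M) : Set M)).Infinite :=
    fun x => hinf.image (mul_right_injective x).injOn
  refine ⟨fun Φ hΦ => ?_, fun x F hF => ?_⟩
  · let R : M → Set M := fun x => {y | Relation.ReflTransGen (st B Φ) x y}
    have hT : (Set.image2 (fun (φ b : M) => φ * b⁻¹) Φ (B : Set M)).Finite :=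
      hΦ.image2 _ B.finite_toSet
    have hU : (⋃ y ∈ {y | y ∈ Set.image2 (fun (φ b : M) => φ * b⁻¹) Φ (B : Set M) ∧ (R y).Finite},
        R y).Finite :=
      (hT.subset fun y hy => hy.1).biUnion fun y hy => hy.2
    refine (hΦ.union hU).subset fun x hx => ?_
    by_cases hxΦ : x ∈ Φ
    · exact Or.inl hxΦ
    right
    have hR : (R x).Finite := by
      by_contra hR
      apply hx
      intro F hF
      obtain ⟨y, hy, hyF⟩ := (Set.Infinite.sdiff hR hF).nonempty
      obtain ⟨l, h1, h2, h3⟩ := path hxΦ hy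
      exact ⟨l, h1, h2, by rw [h3]; exact hyF⟩
    have key : ∃ y ∈ R x, ∃ b ∈ B, y * b ∈ Φ := by
      by_contra hcon
      push Not at hcon
      refine hinf2 x (hR.subset ?_)
      rintro _ ⟨z, hz, rfl⟩
      have step : ∀ y ∈ R x, ∀ b ∈ B, y * b ∈ R x := fun y hy b hb =>
        Relation.ReflTransGen.tail hy ⟨reach_not hxΦ hy, hcon y hy b hb, b, hb, rfl⟩
      change x * z ∈ R x
      induction hz using Subgroup.closure_induction_right with
      | one =>
        rw [mul_one]
        exact Relation.ReflTransGen.refl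
      | mul_right a _ b hb ih =>
        rw [← mul_assoc]
        exact step _ ih b hb
      | mul_inv_cancel a _ b hb ih =>
        rw [← mul_assoc]
        exact step _ ih _ (hB b hb)
    obtain ⟨y, hy, b, hb, hyb⟩ := key
    refine Set.mem_biUnion (x := y) ⟨⟨y * b, hyb, b, hb, mul_inv_cancel_right _ _⟩, ?_⟩
      (reach_symm hB hy)
    exact hR.subset fun z hz => Relation.ReflTransGen.trans hy hz
  · obtain ⟨y, ⟨z, hz, rfl⟩, hyF⟩ := ((hinf2 x).sdiff hF).nonempty
    obtain ⟨l, h1, h2⟩ := words hB hz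
    exact ⟨l, h1, fun _ _ => Set.notMem_empty _, by rw [h2]; exact hyF⟩

end Pool.Agent.H180.EZ
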