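import Pool.Agent.H724.EZ.Stm4

/-!
# Task EZ4-FB: the forbidden values (helper340, subtask of helper724)
-/

set_option autoImplicit false

namespace Pool.Agent.H340.EZFB

open Pool.Agent.H724.EZ

theorem bn_mono {M : Type} (Λ : List (M × Bool)) {s t : ℕ} (h : s ≤ t) : bn Λ s ≤ bn Λ t := by
  unfold bn
  have h1 : Λ.take s = (Λ.take t).take s := by
    rw [List.take_take, min_eq_left h]
  rw [h1]
  exact ((List.take_sublist s (Λ.take t)).filter _).length_le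

theorem bn_append {M : Type} (Λ Λ' : List (M × Bool)) {t : ℕ} (h : t ≤ Λ.length) :
    bn (Λ ++ Λ') t = bn Λ t := by
  unfold bn
  rw [List.take_append_of_le_length h]

theorem hv_append {M : Type} [Group M] (Λ Λ' : List (M × Bool)) {t : ℕ} (h : t ≤ Λ.length) :
    hv (Λ ++ Λ') t = hv Λ t := by
  unfold hv
  rw [List.take_append_of_le_length h]

theorem fin {M G : Type} [Group M] [Group G] (j : M →* G) (hj : Function.Injective j)
    (Q0 : Set G) (hQ : Q0.Finite) (Λ : List (M × Bool)) (c : ℕ) : (Fb j Q0 Λ c).Finite := by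
  have hI : (Set.Iic Λ.length : Set ℕ).Finite := Set.finite_Iic _
  have hV : ((fun p : ℕ × ℕ × ℕ × G × G × G × G =>
      j (hv Λ p.2.2.1) * p.2.2.2.2.2.1 *
        (p.2.2.2.1⁻¹ * ((j (hv Λ p.1))⁻¹ * j (hv Λ p.2.1)) * p.2.2.2.2.1) * (p.2.2.2.2.2.2)⁻¹) ''
      (Set.Iic Λ.length ×ˢ Set.Iic Λ.length ×ˢ Set.Iic Λ.length ×ˢ Q0 ×ˢ Q0 ×ˢ Q0 ×ˢ Q0)).Finite :=
    (hI.prod (hI.prod (hI.prod (hQ.prod (hQ.prod (hQ.prod hQ)))))).image _
  refine (hV.preimage (f := j) hj.injOn).subset ?_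
  rintro x ⟨a, b, a', h1, h2, h3, -, -, κ₁, k1, κ₂, k2, κ₃, k3, κ₄, k4, h⟩
  refine ⟨(a, b, a', κ₁, κ₂, κ₃, κ₄), ⟨(h1.trans h2).trans h3, h2.trans h3, h3, k1, k2, k3, k4⟩, ?_⟩
  simp only
  rw [h]
  group

theorem fb : S_FB := by
  intro M G _ _ j hj Q0 hQ
  refine ⟨fun Λ c => fin j hj Q0 hQ Λ c, ?_, ?_⟩
  · intro Λ Λ' c hc
    ext x
    constructor
    · rintro ⟨a, b, a', h1, h2, h3, h4, h5, κ₁, k1, κ₂, k2, κ₃, k3, κ₄, k4, h⟩
      have h6 : a' ≤ Λ.length := by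
        by_contra h7
        push Not at h7
        have h8 := bn_mono (Λ ++ Λ') h7.le
        rw [bn_append Λ Λ' le_rfl] at h8
        omega
      rw [hv_append Λ Λ' ((h1.trans h2).trans h6), hv_append Λ Λ' (h2.trans h6),
        hv_append Λ Λ' h6] at h
      rw [bn_append Λ Λ' ((h1.trans h2).trans h6), bn_append Λ Λ' (h2.trans h6)] at h4
      rw [bn_append Λ Λ' h6] at h5
      exact ⟨a, b, a', h1, h2, h6, h4, h5, κ₁, k1, κ₂, k2, κ₃, k3, κ₄, k4, h⟩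
    · rintro ⟨a, b, a', h1, h2, h6, h4, h5, κ₁, k1, κ₂, k2, κ₃, k3, κ₄, k4, h⟩
      rw [← hv_append Λ Λ' ((h1.trans h2).trans h6), ← hv_append Λ Λ' (h2.trans h6),
        ← hv_append Λ Λ' h6] at h
      rw [← bn_append Λ Λ' ((h1.trans h2).trans h6), ← bn_append Λ Λ' (h2.trans h6)] at h4
      rw [← bn_append Λ Λ' h6] at h5
      refine ⟨a, b, a', h1, h2, ?_, h4, h5, κ₁, k1, κ₂, k2, κ₃, k3, κ₄, k4, h⟩
      rw [List.length_append]
      omega
  · intro Λ c hc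
    rw [Set.eq_empty_iff_forall_notMem]
    rintro x ⟨a, b, a', _, _, _, _, h5, _⟩
    omega

end Pool.Agent.H340.EZFB
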