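import Pool.Agent.H724.EZ.Stm4
import Pool.Graph.R_seed8.TH719.ED.Main

/-!
# Project EZ of helper724: normal subgroups (FINAL4), adapted from `final2` of helper86
-/

set_option autoImplicit false

namespace Pool.Agent.H143.EZFinal4

open Pool.Agent.TH719.ED Pool.Agent.H724.EZ

theorem final4 : S_FINAL4 := by
  classical
  intro hS4 G _ X hgen hET M K hMFG hK hKM hKinf hconj hzero
  obtain ⟨A, _, J, _, ι, ω, P, -, -, hL⟩ := hET
  -- `K` is normal in `M`
  have hMn : M ≤ Subgroup.normalizer (K : Set G) := by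
    intro x hx
    rw [Subgroup.mem_normalizer_iff]
    intro z
    constructor
    · intro hz
      exact hconj x hx z hz
    · intro hz
      have h1 := hconj x⁻¹ (inv_mem hx) _ hz
      have h2 : x⁻¹ * (x * z * x⁻¹) * x⁻¹⁻¹ = z := by group
      rw [h2] at h1
      exact h1
  have hnorm : (K.subgroupOf M).Normal := (Subgroup.normal_subgroupOf_iff_le_normalizer hKM).2 hMn
  -- generators of `K`
  obtain ⟨SK, hSK⟩ := hK
  have hSKM : ∀ x ∈ SK, x ∈ M := fun x hx => hKM (hSK ▸ Subgroup.subset_closure hx)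
  obtain ⟨B0, hB0⟩ : ∃ B0 : Finset M, ∀ x : M, x ∈ B0 ↔ (x : G) ∈ SK := by
    refine ⟨SK.attach.image (fun x => (⟨x.1, hSKM x.1 x.2⟩ : M)), fun x => ?_⟩
    rw [Finset.mem_image]
    constructor
    · rintro ⟨y, -, rfl⟩
      exact y.2
    · intro hx
      exact ⟨⟨x.1, hx⟩, Finset.mem_attach _ _, rfl⟩
  obtain ⟨B, hB⟩ : ∃ B : Finset M, B = B0 ∪ B0.image (fun x => x⁻¹) := ⟨_, rfl⟩
  have hBi : ∀ b ∈ B, b⁻¹ ∈ B := by
    intro b hb
    rw [hB, Finset.mem_union, Finset.mem_image] at hb ⊢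
    rcases hb with hb | ⟨y, hy, rfl⟩
    · exact Or.inr ⟨b, hb, rfl⟩
    · rw [inv_inv]
      exact Or.inl hy
  have hcl0 : Subgroup.closure (B0 : Set M) = K.subgroupOf M := by
    apply Subgroup.map_injective M.subtype_injective
    rw [Subgroup.subgroupOf_map_subtype, inf_eq_left.2 hKM, MonoidHom.map_closure, ← hSK]
    congr 1
    ext x
    constructor
    · rintro ⟨y, hy, rfl⟩
      exact (hB0 y).1 hy
    · intro hx
      exact ⟨⟨x, hSKM x hx⟩, (hB0 _).2 hx, rfl⟩
  have hcl : Subgroup.closure (B : Set M) = K.subgroupOf M := by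
    apply le_antisymm
    · rw [Subgroup.closure_le, ← hcl0]
      intro x hx
      rw [Finset.mem_coe, hB, Finset.mem_union, Finset.mem_image] at hx
      rcases hx with hx | ⟨y, hy, rfl⟩
      · exact Subgroup.subset_closure hx
      · exact inv_mem (Subgroup.subset_closure hy)
    · rw [← hcl0]
      refine Subgroup.closure_mono fun x hx => ?_
      rw [Finset.mem_coe, hB]
      exact Finset.mem_union_left _ hx
  have hinf : (Subgroup.closure (B : Set M) : Set M).Infinite := by
    rw [hcl]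
    intro hfin
    apply hKinf
    refine (hfin.image (M.subtype)).subset fun x hx => ?_
    exact ⟨⟨x, hKM hx⟩, hx, rfl⟩
  -- the quotient
  have hπ : ∀ x : M, QuotientGroup.mk' (K.subgroupOf M) x = 1 ↔
      x ∈ Subgroup.closure (B : Set M) := by
    intro x
    rw [hcl]
    exact QuotientGroup.eq_one_iff x
  have hword := exists_word X hgen
  have hsw : ∀ E : Finset (M ⧸ (K.subgroupOf M)), Sweepable (E : Set (M ⧸ (K.subgroupOf M))) :=
    fun E => hS4 {x : G | x ∈ X ∨ x⁻¹ ∈ X} hword ι ω P hL M.subtype M.subtype_injective B hBi hinf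
      (QuotientGroup.mk' (K.subgroupOf M)) (QuotientGroup.mk'_surjective _) hπ E
  have htor : ∀ g : M ⧸ (K.subgroupOf M), IsOfFinOrder g := fun g => torsion_of_sweepable g (by
    have := hsw {1, g, g⁻¹}
    simpa using this)
  -- the quotient is finitely generated
  have : Group.FG M := (Group.fg_iff_subgroup_fg M).2 hMFG
  have : Group.FG (M ⧸ (K.subgroupOf M)) := QuotientGroup.fg _
  obtain ⟨S1, hS1, hS1f⟩ := Group.fg_iff.1 ‹Group.FG (M ⧸ (K.subgroupOf M))›
  obtain ⟨S, hS⟩ : ∃ S : Finset (M ⧸ (K.subgroupOf M)),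
      S = hS1f.toFinset ∪ hS1f.toFinset.image (fun x => x⁻¹) := ⟨_, rfl⟩
  have hSi : ∀ x ∈ S, x⁻¹ ∈ S := by
    intro b hb
    rw [hS, Finset.mem_union, Finset.mem_image] at hb ⊢
    rcases hb with hb | ⟨y, hy, rfl⟩
    · exact Or.inr ⟨b, hb, rfl⟩
    · rw [inv_inv]
      exact Or.inl hy
  have hSgen : Subgroup.closure (S : Set (M ⧸ (K.subgroupOf M))) = ⊤ := by
    rw [eq_top_iff, ← hS1]
    refine Subgroup.closure_mono fun x hx => ?_
    rw [Finset.mem_coe, hS]
    exact Finset.mem_union_left _ (hS1f.mem_toFinset.2 hx)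
  have hfin : Finite (M ⧸ (K.subgroupOf M)) :=
    finite_of_poly S hSi hSgen htor (growth_of_sweepable S hSi (hsw S))
  have h2 : Nat.card (M ⧸ (K.subgroupOf M)) = 0 := hzero
  exact Nat.card_pos.ne' h2

end Pool.Agent.H143.EZFinal4
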