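import Pool.Agent.H724.EZ.Stm4

/-! The path in `M` (project EZ of helper724). -/

set_option autoImplicit false

namespace Pool.Agent.H733.EZ

open Pool.Agent.H724.EZ

section
variable {M : Type} [Group M]

theorem hv_app_le (Λ L : List (M × Bool)) {t : ℕ} (ht : t ≤ Λ.length) :
    hv (Λ ++ L) t = hv Λ t := by
  unfold hv
  rw [List.take_append_of_le_length ht]

theorem bn_app_le (Λ L : List (M × Bool)) {t : ℕ} (ht : t ≤ Λ.length) :
    bn (Λ ++ L) t = bn Λ t := by
  unfold bn
  rw [List.take_append_of_le_length ht]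

theorem take_app_add (Λ L : List (M × Bool)) (u : ℕ) :
    (Λ ++ L).take (Λ.length + u) = Λ ++ L.take u := by
  rw [List.take_append, List.take_of_length_le (by omega), Nat.add_sub_cancel_left]

theorem hv_app_add (Λ L : List (M × Bool)) (u : ℕ) :
    hv (Λ ++ L) (Λ.length + u) = hv Λ Λ.length * hv L u := by
  unfold hv
  rw [take_app_add, List.take_length, List.map_append, List.prod_append]

theorem bn_app_add (Λ L : List (M × Bool)) (u : ℕ) :
    bn (Λ ++ L) (Λ.length + u) = bn Λ Λ.length + bn L u := by
  unfold bn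
  rw [take_app_add, List.take_length, List.filter_append, List.length_append]

theorem bn_le (Λ : List (M × Bool)) (t : ℕ) : bn Λ t ≤ bn Λ Λ.length := by
  unfold bn
  rw [List.take_length]
  exact ((List.take_sublist t Λ).filter _).length_le

theorem mid_take (l : List M) (x : M) {u : ℕ} (hu : u ≤ l.length) :
    ((l.map fun b => (b, false)) ++ [(x, true)]).take u = (l.take u).map fun b => (b, false) := by
  rw [List.take_append_of_le_length (by simpa using hu), List.map_take]

theorem hv_mid (l : List M) (x : M) {u : ℕ} (hu : u ≤ l.length) :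
    hv ((l.map fun b => (b, false)) ++ [(x, true)]) u = (l.take u).prod := by
  unfold hv
  rw [mid_take l x hu, List.map_map]
  congr 1
  exact List.map_id'' (fun _ => rfl) _

theorem bn_mid (l : List M) (x : M) {u : ℕ} (hu : u ≤ l.length) :
    bn ((l.map fun b => (b, false)) ++ [(x, true)]) u = 0 := by
  unfold bn
  rw [mid_take l x hu, List.length_eq_zero_iff, List.filter_eq_nil_iff]
  intro a ha
  obtain ⟨b, -, rfl⟩ := List.mem_map.1 ha
  simp

theorem hv_end (l : List M) (x : M) :
    hv ((l.map fun b => (b, false)) ++ [(x, true)]) (l.length + 1) = l.prod * x := by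
  unfold hv
  rw [List.take_of_length_le (by simp), List.map_append, List.prod_append, List.map_map]
  congr 1
  · congr 1
    exact List.map_id'' (fun _ => rfl) _
  · simp

theorem bn_end (l : List M) (x : M) :
    bn ((l.map fun b => (b, false)) ++ [(x, true)]) (l.length + 1) = 1 := by
  unfold bn
  rw [List.take_of_length_le (by simp), List.filter_append, List.length_append]
  have h1 : (l.map fun b => (b, false)).filter (fun a : M × Bool => a.2) = [] := by
    rw [List.filter_eq_nil_iff]
    intro a ha
    obtain ⟨b, -, rfl⟩ := List.mem_map.1 ha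
    simp
  rw [h1]
  simp

end

theorem mpath : S_MPATH := by
  rintro ⟨hE, hF⟩ M G Q _ _ _ j hj Q0 hQ0 B hB hinf π hπ lift hlift E m S hS0 hSE
  obtain ⟨hF1, hF2, hF3⟩ := hF j hj Q0 hQ0
  obtain ⟨hE1, hE2⟩ := hE B hB hinf
  have key : ∀ i ≤ m, ∃ Λ : List (M × Bool), bn Λ Λ.length = i ∧
      (∀ a ∈ Λ, a.1 ∈ B ∨ ∃ e ∈ E, a.1 = lift e) ∧
      (∀ t ≤ Λ.length, π (hv Λ t) = S (bn Λ t)) ∧
      (∀ t ≤ Λ.length, hv Λ t ∉ Fb j Q0 Λ (bn Λ t)) ∧
      Esc B (Fb j Q0 Λ i) (hv Λ Λ.length) := by
    intro i
    induction i with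
    | zero =>
      intro _
      refine ⟨[], rfl, by simp, ?_, ?_, ?_⟩
      · intro t ht
        have ht0 : t = 0 := by simpa using ht
        subst ht0
        have h1 : hv ([] : List (M × Bool)) 0 = 1 := rfl
        have h2 : bn ([] : List (M × Bool)) 0 = 0 := rfl
        rw [h1, h2, map_one, hS0]
      · intro t ht
        have ht0 : t = 0 := by simpa using ht
        subst ht0
        have h2 : bn ([] : List (M × Bool)) 0 = 0 := rfl
        rw [h2, hF3 [] 0 (by omega)]
        exact Set.notMem_empty _
      · rw [hF3 [] 0 (by omega)]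
        exact hE2 _
    | succ i ih =>
      intro him
      obtain ⟨Λ, h1, h2, h3, h4, h5⟩ := ih (by omega)
      set x := hv Λ Λ.length with hx
      set e := (S i)⁻¹ * S (i + 1) with he
      have heE : e ∈ E := hSE i (by omega)
      set Φ := Fb j Q0 Λ (i + 1) with hΦ
      have hΦf : Φ.Finite := hF1 Λ (i + 1)
      have hinj : Function.Injective (fun y : M => y * lift e) := mul_left_injective _
      have hFf : {y : M | y * lift e ∈ Φ ∨ ¬ Esc B Φ (y * lift e)}.Finite := by
        have h6 : {y : M | y * lift e ∈ Φ ∨ ¬ Esc B Φ (y * lift e)} =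
            (fun y : M => y * lift e) ⁻¹' (Φ ∪ {y | ¬ Esc B Φ y}) := rfl
        rw [h6]
        exact (hΦf.union (hE1 Φ hΦf)).preimage hinj.injOn
      obtain ⟨l, hl1, hl2, hl3⟩ := h5 _ hFf
      have hl4 : x * l.prod * lift e ∉ Φ ∧ Esc B Φ (x * l.prod * lift e) := by
        have h6 : ¬ (x * l.prod * lift e ∈ Φ ∨ ¬ Esc B Φ (x * l.prod * lift e)) := hl3
        push Not at h6
        exact h6
      have hcl : ∀ u, (l.take u).prod ∈ Subgroup.closure (B : Set M) := by
        intro u
        refine Subgroup.list_prod_mem _ fun b hb => ?_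
        exact Subgroup.subset_closure (hl1 b (List.mem_of_mem_take hb))
      have hπl : ∀ u, π ((l.take u).prod) = 1 := fun u => (hπ _).2 (hcl u)
      have hπx : π x = S i := by
        rw [hx, h3 _ le_rfl, h1]
      set L2 : List (M × Bool) := (l.map fun b => (b, false)) ++ [(lift e, true)] with hL2
      have hL2l : L2.length = l.length + 1 := by simp [hL2]
      have hlen : (Λ ++ L2).length = Λ.length + (l.length + 1) := by
        rw [List.length_append, hL2l]
      have hFeq : ∀ c ≤ i + 1, Fb j Q0 (Λ ++ L2) c = Fb j Q0 Λ c := by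
        intro c hc
        exact hF2 Λ L2 c (by rw [h1]; exact hc)
      have hend1 : hv (Λ ++ L2) (Λ.length + (l.length + 1)) = x * l.prod * lift e := by
        rw [hv_app_add, hL2, hv_end, ← hx, mul_assoc]
      have hend2 : bn (Λ ++ L2) (Λ.length + (l.length + 1)) = i + 1 := by
        rw [bn_app_add, hL2, bn_end, h1]
      have hπe : π (x * l.prod * lift e) = S (i + 1) := by
        have h6 := hπl l.length
        rw [List.take_length] at h6
        rw [map_mul, map_mul, h6, hπx, hlift, he, mul_one, mul_inv_cancel_left]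
      -- the three cases
      have hcases : ∀ t ≤ (Λ ++ L2).length, t ≤ Λ.length ∨
          (∃ u ≤ l.length, t = Λ.length + u) ∨ t = Λ.length + (l.length + 1) := by
        intro t ht
        rw [hlen] at ht
        by_cases h6 : t ≤ Λ.length
        · exact Or.inl h6
        by_cases h7 : t ≤ Λ.length + l.length
        · exact Or.inr (Or.inl ⟨t - Λ.length, by omega, by omega⟩)
        · exact Or.inr (Or.inr (by omega))
      refine ⟨Λ ++ L2, ?_, ?_, ?_, ?_, ?_⟩
      · rw [hlen, hend2]
      · intro a ha
        rcases List.mem_append.1 ha with ha | ha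
        · exact h2 a ha
        rcases List.mem_append.1 ha with ha | ha
        · obtain ⟨b, hb, rfl⟩ := List.mem_map.1 ha
          exact Or.inl (hl1 b hb)
        · rw [List.mem_singleton] at ha
          subst ha
          exact Or.inr ⟨e, heE, rfl⟩
      · intro t ht
        rcases hcases t ht with h6 | ⟨u, hu, rfl⟩ | rfl
        · rw [hv_app_le _ _ h6, bn_app_le _ _ h6]
          exact h3 t h6
        · rw [hv_app_add, bn_app_add, hL2, hv_mid l _ hu, bn_mid l _ hu, map_mul, hπl, ← hx, hπx,
            h1, mul_one, add_zero]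
        · rw [hend1, hend2, hπe]
      · intro t ht
        rcases hcases t ht with h6 | ⟨u, hu, rfl⟩ | rfl
        · rw [hv_app_le _ _ h6, bn_app_le _ _ h6, hFeq _ (by have := bn_le Λ t; omega)]
          exact h4 t h6
        · rw [hv_app_add, bn_app_add, hL2, hv_mid l _ hu, bn_mid l _ hu, ← hL2, h1, add_zero,
            hFeq _ (by omega)]
          exact hl2 u hu
        · rw [hend1, hend2, hFeq _ le_rfl]
          exact hl4.1
      · rw [hlen, hend1, hFeq _ le_rfl]
        exact hl4.2
  obtain ⟨Λ, h1, h2, h3, h4, -⟩ := key m le_rfl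
  exact ⟨Λ, h1, h2, h3, h4⟩

end Pool.Agent.H733.EZ
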