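import Pool.Agent.H724.EZ.Defs

/-!
# Groups with ET0L word problem: statements of the subtasks (helper724)
-/

set_option autoImplicit false

namespace Pool.Agent.H724.EZ

open Pool.Agent.TH719.ED

/-- DER-APP. Proof: induction on `js1`, unfolding `Der`. -/
def S_DERAPP : Prop := ∀ {A J : Type} (P : J → A → Finset (List A)) (js1 js2 : List J)
    (u v : List A), Der P (js1 ++ js2) u v ↔ ∃ x, Der P js1 u x ∧ Der P js2 x v

/-- DER-FLAT. Derivations of the letters with the same tables can be put side by side.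
Proof: induction on `js` generalizing `l`. For `[]`: `[p.1] = p.2` for all `p ∈ l`, so the flatten of
the second components is the list of the first components. For `j :: js`: for each `p ∈ l` there are
`x_p` with `Step P j [p.1] x_p` (so `x_p = α_p` with `α_p ∈ P j p.1`) and `Der P js x_p p.2`. This is
not of the form `[a]`, so prove first the more general statement: for `l : List (List A × List A)` with
`∀ p ∈ l, Der P js p.1 p.2` one has `Der P js (l.map fst).flatten (l.map snd).flatten` (for `j :: js`: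
choose `x_p`, `Step` is compatible with flatten: concatenate the lists `ch`), then apply it to
`l.map (fun p => ([p.1], p.2))`. -/
def S_DERFLAT : Prop := ∀ {A J : Type} (P : J → A → Finset (List A)) (js : List J)
    (l : List (A × List A)), (∀ p ∈ l, Der P js [p.1] p.2) →
    Der P js (l.map Prod.fst) (l.map Prod.snd).flatten

/-- GROUP. A list of consecutive segments whose letters are `ch.flatten` can be grouped according to
`ch`. Proof: induction on `Forall₂ R u ch` (generalizing `l`, `s`): split `l` into the first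
`ch.head.length` segments and the rest (lemma: `SegCh (l1 ++ l2) s e ↔ ∃ m, SegCh l1 s m ∧ SegCh l2 m e`,
and `SegCh l s e → s ≤ e`). -/
def S_GROUP : Prop := ∀ {A : Type} (R : A → List A → Prop) (u : List A) (ch : List (List A)),
    List.Forall₂ R u ch → ∀ (l : List (A × ℕ × ℕ)) (s e : ℕ), SegCh l s e →
    l.map Prod.fst = ch.flatten →
    ∃ (F0 : List (A × ℕ × ℕ)) (Rs : List (List (A × ℕ × ℕ))), F0.map Prod.fst = u ∧
      Rs.flatten = l ∧ SegCh F0 s e ∧
      List.Forall₂ (fun σ ρ => SegCh ρ σ.2.1 σ.2.2 ∧ R σ.1 (ρ.map Prod.fst)) F0 Rs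

/-- TIMED (may use DERAPP, DERFLAT, GROUP as hypotheses). Every derivation can be written as a
sequence of segmentations. Proof: induction on `js` generalizing `ω`.
`js = []`: `V = ω`; take `F t` = the segmentation of `V` into single letters
(`(V[i], i, i+1)`, `i < V.length`), the same for all `t`, `R` = singletons.
`js = j :: js'`: there are `ch` with `Forall₂ (· ∈ P j ·) ω ch` and `Der P js' ch.flatten V`; let `F'`
be the sequence for `js'`. `F' 0` has letters `ch.flatten` (`past` at `t = 0`). GROUP (with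
`R a α := α ∈ P j a`) gives `F0` and `Rs`; put `F 0 := F0`, `F (t+1) := F' t`. `fut` at `0`: for
`σ ∈ F0` with group `ρ`: `Der P (j :: js') [σ.1] V[σ]` by the step `[σ.1] → ρ.map fst` and DERFLAT
for the letters of `ρ` (`fut` of `F'` at `0`; `V[σ]` is the concatenation of the `V[τ]`, `τ ∈ ρ`, as the
segments of `ρ` are consecutive and bounded by `V.length`). -/
def S_TIMED : Prop := (S_DERAPP ∧ S_DERFLAT ∧ S_GROUP) →
    ∀ {A J : Type} (P : J → A → Finset (List A)) (D : ℕ)
    (_ : ∀ j a, ∀ α ∈ P j a, α.length ≤ D) (_ : 1 ≤ D) (js : List J) (ω V : List A),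
    Der P js ω V → ∃ F : ℕ → List (A × ℕ × ℕ), Timed P D ω js V F

/-- SEG-BASIC. Elementary facts on consecutive segments (each by induction on `l`, generalizing `s`). -/
def S_SEGBASIC : Prop := ∀ {A : Type} (l : List (A × ℕ × ℕ)) (s e : ℕ), SegCh l s e →
    s ≤ e ∧ (∀ σ ∈ l, s ≤ σ.2.1 ∧ σ.2.1 ≤ σ.2.2 ∧ σ.2.2 ≤ e) ∧
    l.Pairwise (fun σ τ => σ.2.2 ≤ τ.2.1) ∧
    (∀ {G : Type} (W : List G), e ≤ W.length → l.flatMap (sub W) = (W.drop s).take (e - s)) ∧
    (∀ {G : Type} (Λ : A × ℕ × ℕ → Bool) (κ : ℕ → G), ChnR (l.map (colr Λ κ)) (κ s) (κ e))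

/-- ALIGN. Proof: induction on `v` generalizing `l`: if `mark x`, then `l = s :: l'` with `col s = x`;
otherwise take any `s ∈ Sg` with `col s = x`. -/
def S_ALIGN : Prop := ∀ {S C : Type} (col : S → C) (mark : C → Bool) (v : List C) (l Sg : List S),
    v.filter mark = l.map col → (∀ s ∈ l, s ∈ Sg) →
    (∀ x ∈ v, mark x = false → ∃ s ∈ Sg, col s = x) →
    ∃ gs : List S, gs.map col = v ∧ gs.filter (fun s => mark (col s)) = l ∧ ∀ s ∈ gs, s ∈ Sg

/-- KEY-FIN. Proof: as `Pool.Agent.TH719.ED.key_finite` (file Rel.lean): the first component is a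
subset of the finite set `univ ×ˢ univ ×ˢ Q0 ×ˢ Q0`, the second is a list of length `≤ r` over this
finite set. -/
def S_KEYFIN : Prop := ∀ {A J G : Type} [Group G] [Fintype A] (P : J → A → Finset (List A))
    (ω : List A) (Q0 : Set G), Q0.Finite → ∀ r : ℕ, (keyR '' {x | Past P ω Q0 r x}).Finite

/-- CHN-PROD. Proof: as `Pool.Agent.TH719.ED.prod_chn` (file Rel.lean), induction on `gs`
generalizing `x`; `prod_sub` of that file. -/
def S_CHNPROD : Prop := ∀ {A G H : Type} [Group G] [Group H] (j : H →* G) (W : List G)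
    (h : ℕ → H) (κ : ℕ → G), (∀ z ≤ W.length, (W.take z).prod = j (h z) * κ z) →
    ∀ (Λ : A × ℕ × ℕ → Bool) (gs : List (A × ℕ × ℕ)),
    (∀ s ∈ gs, s.2.1 ≤ s.2.2 ∧ s.2.2 ≤ W.length) → ∀ (x y : G),
    ChnR (gs.map (colr Λ κ)) x y →
    (gs.flatMap (sub W)).prod = x⁻¹ * j ((gs.map fun s => (h s.2.1)⁻¹ * h s.2.2).prod) * y

/-- REL (may use DERAPP, DERFLAT, SEGBASIC, ALIGN, CHNPROD). The relation at a time of a derivation.
Proof: as `Pool.Agent.TH719.ED.rel_at` (file Rel.lean). The coloured word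
`Sg.map (colr Λ κ)` is a `Past` (SEGBASIC for the chain; colours in `Q0`). Let `v` be the
representative of length `≤ c` with the same key: its set of letters is the same, and
`v.filter (·.2.1) = (Sg.map (colr Λ κ)).filter (·.2.1) = (Sg.filter Λ).map (colr Λ κ)`. ALIGN with
`col = colr Λ κ`, `mark a = a.2.1`, `l = Sg.filter Λ` gives `gs` with `gs.map (colr Λ κ) = v`,
`gs.filter Λ = Sg.filter Λ`, all in `Sg`. The word `gs.flatMap (sub W)` consists of elements of `X` and
its image under `ι` is derived from `ω` with tables `js0 ++ js2` (DERAPP, DERFLAT for the list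
`gs.map (fun s => (s.1, (sub W s).map ι))`), so its product is `1`. By CHNPROD (with `x = y = 1`) and
injectivity of `j` the product in `H` is `1`. -/
def S_REL : Prop := (S_DERAPP ∧ S_DERFLAT ∧ S_SEGBASIC ∧ S_ALIGN ∧ S_CHNPROD) →
    ∀ {A J G H : Type} [Group G] [Group H] (P : J → A → Finset (List A)) (ω : List A)
    (Q0 : Set G) (r c : ℕ)
    (_ : ∀ x : List (A × Bool × G × G), Past P ω Q0 r x →
      ∃ y, Past P ω Q0 r y ∧ keyR y = keyR x ∧ y.length ≤ c)
    (ι : G → A) (W : List G) (X : Set G) (_ : ∀ x ∈ W, x ∈ X)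
    (_ : ∀ w : List G, (∀ x ∈ w, x ∈ X) → (∃ js : List J, Der P js ω (w.map ι)) → w.prod = 1)
    (js1 js2 : List J) (Sg : List (A × ℕ × ℕ)) (_ : SegCh Sg 0 W.length)
    (_ : Der P js1 ω (Sg.map Prod.fst))
    (_ : ∀ σ ∈ Sg, Der P js2 [σ.1] ((sub W σ).map ι))
    (j : H →* G) (_ : Function.Injective j) (h : ℕ → H) (κ : ℕ → G)
    (_ : ∀ z ≤ W.length, (W.take z).prod = j (h z) * κ z) (_ : ∀ z ≤ W.length, κ z ∈ Q0)
    (_ : κ 0 = 1) (_ : κ W.length = 1) (Λ : A × ℕ × ℕ → Bool) (_ : (Sg.filter Λ).length ≤ r),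
    ∃ gs : List (A × ℕ × ℕ), gs.length ≤ c ∧ gs.filter Λ = Sg.filter Λ ∧ (∀ s ∈ gs, s ∈ Sg) ∧
      (gs.map fun s => (h s.2.1)⁻¹ * h s.2.2).prod = 1

/-- EQUAL (may use DERAPP, DERFLAT, SEGBASIC). Two segments with the same letter at the same time
have the same value. Proof: `Sg = l1 ++ σ' :: l2`. The word
`l1.flatMap (sub W) ++ sub W σ ++ l2.flatMap (sub W)` is over `X` and its image under `ι` is derived
from `Sg.map fst` with `js2` (DERFLAT; the letter of `σ` is that of `σ'`), so its product is `1`; the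
product of `W = Sg.flatMap (sub W)` (SEGBASIC) is `1` too (it is derived as well). Cancel. -/
def S_EQUAL : Prop := (S_DERAPP ∧ S_DERFLAT ∧ S_SEGBASIC) →
    ∀ {A J G : Type} [Group G] (P : J → A → Finset (List A)) (ω : List A)
    (ι : G → A) (W : List G) (X : Set G) (_ : ∀ x ∈ W, x ∈ X)
    (_ : ∀ w : List G, (∀ x ∈ w, x ∈ X) → (∃ js : List J, Der P js ω (w.map ι)) → w.prod = 1)
    (js1 js2 : List J) (Sg : List (A × ℕ × ℕ)) (_ : SegCh Sg 0 W.length)
    (_ : Der P js1 ω (Sg.map Prod.fst))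
    (_ : ∀ σ ∈ Sg, Der P js2 [σ.1] ((sub W σ).map ι)) (σ σ' : A × ℕ × ℕ),
    σ ∈ Sg → σ' ∈ Sg → σ.1 = σ'.1 → (sub W σ).prod = (sub W σ').prod

/-- FAST. A fast growing sequence of exponents. Proof: for a finite set `T ⊆ G` there is `N` with
`g ^ b ∉ T` for all `b ≥ N` (`g` has infinite order, so `b ↦ g ^ b` is injective and only finitely many
`b` have `g ^ b ∈ T`). Define `n` recursively: `n 0 = 1` and `n (i+1) ≥ n i` larger than this `N` for
the finite set `T = {c * g ^ a * d : a ≤ ∑_{k ≤ i} n k, c, d ∈ Φ}` (to define by recursion a pair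
`(n i, ∑_{k ≤ i} n k)` is carried along: `F : ℕ → ℕ` with the property `∀ s, ∀ b ≥ F s, ∀ a ≤ s, ...`,
state `(n i, s i)`, `n (i+1) = max (n i) (F (s i))`, `s (i+1) = s i + n (i+1)`). -/
def S_FAST : Prop := ∀ {G : Type} [Group G] (g : G), ¬ IsOfFinOrder g → ∀ Φ : Set G, Φ.Finite →
    ∃ n : ℕ → ℕ, (∀ i, 1 ≤ n i) ∧ Monotone n ∧
      ∀ i a b : ℕ, n (i + 1) ≤ b → a ≤ ∑ k ∈ Finset.range (i + 1), n k →
        ∀ c ∈ Φ, ∀ d ∈ Φ, g ^ b ≠ c * g ^ a * d

/-- POS. The prefix of length `z` of the word of the blocks: the complete blocks, then `N'` copies of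
`yw`, then a prefix of `yw` or of `ew i`. Proof: `lt_blk_iff`, `take_flatten`-style induction of
`Pool.Agent.TH719.ED` (file Blk.lean). With `p = blk (Csl ..) z`: if `p = m` then `z` is the total
length (`z ≥` total by `lt_blk_iff`), take `N' = 0`, `u = []`. If `p < m`, the position `z` lies in the
block `p`: `W.take z = (first p blocks) ++ (blkW p).take k`, `k < (blkW p).length`, and a prefix of
`(replicate n yw).flatten ++ ew` is `(replicate N' yw).flatten ++ yw.take k'` with `N' ≤ n`, or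
`(replicate n yw).flatten ++ ew.take k'`. For `z = 0`: `p = 0` as the blocks are nonempty, and
`N' = 0`, `u = []` works. -/
def S_POS : Prop := ∀ {G : Type} (yw : List G) (n : ℕ → ℕ) (ew : ℕ → List G) (m z : ℕ),
    yw ≠ [] → (∀ i, 1 ≤ n i) → z ≤ (Csl yw n ew m).flatten.length →
    ∃ (N' : ℕ) (u : List G), N' ≤ n (blk (Csl yw n ew m) z) ∧ (z = 0 → N' = 0 ∧ u = []) ∧
      ((∃ k, u = yw.take k) ∨ (∃ i < m, ∃ k, u = (ew i).take k)) ∧
      (blk (Csl yw n ew m) z = m → N' = 0 ∧ u = []) ∧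
      (Csl yw n ew m).flatten.take z =
        (Csl yw n ew (blk (Csl yw n ew m) z)).flatten ++ (List.replicate N' yw).flatten ++ u

/-- BLK-PROD. Proof: induction on `p` (`List.range_succ`), `y` central. -/
def S_BLKPROD : Prop := ∀ {G H : Type} [Group G] [Group H] (j : H →* G) (y : H)
    (_ : ∀ x : H, x * y = y * x) (yw : List G) (_ : yw.prod = j y) (n : ℕ → ℕ)
    (ew : ℕ → List G) (el : ℕ → H) (p N' : ℕ) (_ : ∀ i < p, (ew i).prod = j (el i)),
    ((Csl yw n ew p).flatten ++ (List.replicate N' yw).flatten).prod =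
      j (((List.range p).map el).prod * y ^ (∑ k ∈ Finset.range p, n k + N'))

/-- COUNT (may use SEGBASIC). The number of long segments. `z1` is the end of the block part: beyond
`z1` the block number is constant (`= m`). Among the long segments ending at or before `z1` no two
have the same letter, so there are at most `card A` of them; a long segment ending after `z1` starts
before `z1` (otherwise its block numbers are both `m`), and as the segments are consecutive there is
at most one such. -/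
def S_COUNT : Prop := S_SEGBASIC → ∀ {A : Type} [Fintype A] (bk : ℕ → ℕ) (m z1 : ℕ)
    (_ : ∀ z, bk z ≤ m) (_ : ∀ z, z1 ≤ z → bk z = m) (Sg : List (A × ℕ × ℕ)) (e : ℕ)
    (_ : SegCh Sg 0 e)
    (_ : ∀ σ ∈ Sg, ∀ τ ∈ Sg, σ.2.2 ≤ τ.2.1 → τ.2.2 ≤ z1 → Lng bk σ = true → Lng bk τ = true →
      σ.1 ≠ τ.1),
    (Sg.filter (Lng bk)).length ≤ Fintype.card A + 1

/-- UNCOV (may use SEGBASIC). In a list of consecutive segments the part not covered by the long ones
has at most one block for each segment. Proof: induction on `l`. -/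
def S_UNCOV : Prop := S_SEGBASIC → ∀ {A : Type} (bk : ℕ → ℕ) (_ : Monotone bk)
    (l : List (A × ℕ × ℕ)) (s e : ℕ) (_ : SegCh l s e),
    (Set.Ico (bk s) (bk e) \ Cov ((l.filter (Lng bk)).map fun σ => (bk σ.2.1, bk σ.2.2))).ncard ≤
      l.length

/-- REFINE (may use SEGBASIC, UNCOV). From one time to the next. Proof of (1): a long segment of
`R.flatten` lies in a segment `σ` of `l`, which is long too as `bk` is monotone. Proof of (2): the
left side is contained in the union over the long `σ ∈ l` with group `ρ` of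
`Ico (bk σ.2.1) (bk σ.2.2) \ Cov (long segments of ρ)`, each of size `≤ ρ.length ≤ D` by UNCOV. -/
def S_REFINE : Prop := (S_SEGBASIC ∧ S_UNCOV) → ∀ {A : Type} (bk : ℕ → ℕ) (_ : Monotone bk)
    (D r : ℕ) (l : List (A × ℕ × ℕ)) (s e : ℕ) (_ : SegCh l s e)
    (R : List (List (A × ℕ × ℕ)))
    (_ : List.Forall₂ (fun σ ρ => SegCh ρ σ.2.1 σ.2.2 ∧ ρ.length ≤ D) l R)
    (_ : (l.filter (Lng bk)).length ≤ r),
    Cov ((R.flatten.filter (Lng bk)).map fun σ => (bk σ.2.1, bk σ.2.2)) ⊆
      Cov ((l.filter (Lng bk)).map fun σ => (bk σ.2.1, bk σ.2.2)) ∧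
    (Cov ((l.filter (Lng bk)).map fun σ => (bk σ.2.1, bk σ.2.2)) \
      Cov ((R.flatten.filter (Lng bk)).map fun σ => (bk σ.2.1, bk σ.2.2))).ncard ≤ r * D

/-- WORD (may use FAST, POS, BLKPROD). The word for a closed path. Data: `j : H → G` injective
homomorphism, `y ∈ H` central of infinite order, `π : H → Q` a surjective homomorphism with kernel
the powers of `y`; `rep g` is a word over `X` with product `g`. Choose `lift : Q → H` with
`π (lift q) = q`. `Q0` = the set of products of prefixes of `rep (j (lift e))` (`e ∈ E`), `rep (j y)`,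
`rep (j y⁻¹)`, together with `1` (finite, independent of `m`, `S`). For a closed path `S` let
`el i = lift ((S i)⁻¹ * S (i+1))`, `Ŝ p = ((List.range p).map el).prod`, so `π (Ŝ p) = S p` for
`p ≤ m`; `ew i = rep (j (el i))`, `yw = rep (j y)`. Let `Φ` = the finite set of all
`(j ((Ŝ p')⁻¹ * Ŝ q'))⁻¹ * a * b⁻¹ * j ((Ŝ p)⁻¹ * Ŝ q)` (`p, q, p', q' ≤ m`, `a, b ∈ Q0`) and all
`a * b⁻¹` (`a, b ∈ Q0`); FAST for `g = j y` and `Φ` gives `n`. The word is
`W = (Csl yw n ew m).flatten ++ Fin`, `Fin` = a power of `rep (j y⁻¹)` or of `rep (j y)` that makes the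
product `1` (the product of the blocks is `j (Ŝ m * y ^ (∑ n))` by BLKPROD and `Ŝ m ∈ ker π` is a power
of `y`). `bk z = blk (Csl yw n ew m) z`, `z1 = (Csl yw n ew m).flatten.length`. For `z ≤ z1` POS and
BLKPROD give `(W.take z).prod = j (Ŝ (bk z) * y ^ N) * κ` with
`∑_{k < bk z} n k ≤ N ≤ ∑_{k ≤ bk z} n k` (for `bk z = m`: `N = ∑_{k < m} n k`), `κ ∈ Q0`; put `h z = Ŝ (bk z) * y ^ N`.
For `z > z1`: `h z = Ŝ m * y ^ (an integer)`, `κ` a prefix product of `rep (j y^{±1})`; for
`z ≥ W.length` put `h z = 1`, `κ z = 1`.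
The last item: let `p = bk s`, `q = bk e ≥ p + 2`, `p' = bk s' ≥ q`, `q' = bk e' ≥ p' + 2`. If the two
values were equal, then, as `y` is central, `(j y) ^ b = c * (j y) ^ a * d` with
`a = N e - N s ≤ ∑_{k ≤ q} n k`, `b = N e' - N s' ≥ n (q' - 1) ≥ n (q + 1)`
(`b ≥ ∑_{k < q'} n k - ∑_{k ≤ p'} n k ≥ n (q'-1)` as `q' - 1 > p'`) and
`c = (j ((Ŝ p')⁻¹ * Ŝ q'))⁻¹ * κ s' * (κ s)⁻¹ * j ((Ŝ p)⁻¹ * Ŝ q)`, `d = κ e * (κ e')⁻¹` in `Φ`,
against FAST (with `i = q`). -/
def S_WORD : Prop := (S_FAST ∧ S_POS ∧ S_BLKPROD) →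
    ∀ {G H Q : Type} [Group G] [Group H] [Group Q] (X : Set G)
    (_ : ∀ g : G, ∃ w : List G, (∀ x ∈ w, x ∈ X) ∧ w.prod = g)
    (j : H →* G) (_ : Function.Injective j) (y : H) (_ : ∀ x : H, x * y = y * x)
    (_ : ¬ IsOfFinOrder y) (π : H →* Q) (_ : Function.Surjective π)
    (_ : ∀ x : H, π x = 1 ↔ x ∈ Subgroup.zpowers y) (E : Finset Q),
    ∃ Q0 : Set G, Q0.Finite ∧ ∀ (m : ℕ) (S : ℕ → Q), S 0 = 1 → S m = 1 →
      (∀ i < m, (S i)⁻¹ * S (i + 1) ∈ E) →
      ∃ (W : List G) (bk : ℕ → ℕ) (h : ℕ → H) (κ : ℕ → G) (z1 : ℕ),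
        (∀ x ∈ W, x ∈ X) ∧ W.prod = 1 ∧ Monotone bk ∧ bk 0 = 0 ∧ bk W.length = m ∧
        (∀ z, bk z ≤ m) ∧ (∀ z, bk (z + 1) ≤ bk z + 1) ∧ (∀ z, z1 ≤ z → bk z = m) ∧
        (∀ z ≤ W.length, (W.take z).prod = j (h z) * κ z ∧ κ z ∈ Q0 ∧ π (h z) = S (bk z)) ∧
        κ 0 = 1 ∧ κ W.length = 1 ∧
        (∀ s e s' e' : ℕ, s ≤ e → e ≤ s' → s' ≤ e' → e' ≤ z1 → e' ≤ W.length →
          bk s + 2 ≤ bk e → bk s' + 2 ≤ bk e' →
          ((W.take s).prod)⁻¹ * (W.take e).prod ≠ ((W.take s').prod)⁻¹ * (W.take e').prod)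

/-- SWEEP (may use all the above). If `G` has ET0L word problem and `j, y, π` are as in WORD, then
every closed path in `Q` can be swept. -/
def S_SWEEP : Prop := ∀ {A J G H Q : Type} [Fintype A] [Fintype J] [Group G] [Group H] [Group Q]
    (X : Set G) (_ : ∀ g : G, ∃ w : List G, (∀ x ∈ w, x ∈ X) ∧ w.prod = g)
    (ι : G → A) (ω : List A) (P : J → A → Finset (List A))
    (_ : ∀ w : List G, (∀ x ∈ w, x ∈ X) → (w.prod = 1 ↔ ∃ js : List J, Der P js ω (w.map ι)))
    (j : H →* G) (_ : Function.Injective j) (y : H) (_ : ∀ x : H, x * y = y * x)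
    (_ : ¬ IsOfFinOrder y) (π : H →* Q) (_ : Function.Surjective π)
    (_ : ∀ x : H, π x = 1 ↔ x ∈ Subgroup.zpowers y) (E : Finset Q), Sweepable (E : Set Q)

/-- FINAL (may use SWEEP and the library). A finitely generated subgroup `H` with a central element
`y` of infinite order: `⟨y⟩` has finite index in `H`. Proof: let `Q = H ⧸ ⟨y⟩` (`⟨y⟩` is normal as `y`
is central), `π` the quotient map, `j` the inclusion. By SWEEP every finite `E ⊆ Q` is `Sweepable`. As
in `Pool.Agent.TH719.ED.finite_of_edt0l` (file Main.lean): `torsion_of_sweepable`,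
`growth_of_sweepable`, `finite_of_poly` (with a finite symmetric generating set of `Q`) give that `Q`
is finite; so the index of `⟨y⟩` in `H` is not `0`. -/
def S_FINAL : Prop := S_SWEEP → ∀ (G : Type) [Group G] (X : Finset G),
    Subgroup.closure (X : Set G) = ⊤ → ET0LWordProblem G X →
    ∀ (H : Subgroup G), H.FG → ∀ y ∈ H, (∀ x ∈ H, x * y = y * x) → ¬ IsOfFinOrder y →
    (Subgroup.zpowers y).relIndex H ≠ 0

/-- COR. Consequence: no subgroup isomorphic to `ℤ × ℤ`. Proof: let `f` be an injective homomorphism;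
`H = f.range` is finitely generated (the image of a finitely generated group: generated by
`f (ofAdd (1,0))`, `f (ofAdd (0,1))`), commutative, `y = f (ofAdd (1, 0))` has infinite order. If
`⟨y⟩` had finite index in `H`, then `f (ofAdd (0,1)) ^ n ∈ ⟨y⟩` for some `n > 0`
(`Subgroup.exists_pow_mem_of_relIndex_ne_zero` or similar), so `(0, n) = (k, 0)` in `ℤ × ℤ`:
contradiction. -/
def S_COR : Prop := ∀ (G : Type) [Group G],
    (∀ (H : Subgroup G), H.FG → ∀ y ∈ H, (∀ x ∈ H, x * y = y * x) → ¬ IsOfFinOrder y →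
      (Subgroup.zpowers y).relIndex H ≠ 0) →
    ¬ ∃ f : Multiplicative (ℤ × ℤ) →* G, Function.Injective f

end Pool.Agent.H724.EZ
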