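import Pool.Agent.H724.EZ.Stm

/-!
# Groups with ET0L word problem: three more statements, the parts of WORD (helper724)
-/

set_option autoImplicit false

namespace Pool.Agent.H724.EZ

open Pool.Agent.TH719.ED

/-- REPPRE. A prefix of a power of a word. Proof: induction on `K`. -/
def S_REPPRE : Prop := ∀ {G : Type} (u : List G) (K z : ℕ), ∃ a b : ℕ, a ≤ K ∧
    (List.replicate K u).flatten.take z = (List.replicate a u).flatten ++ u.take b ∧
    ((List.replicate K u).flatten.length ≤ z → a = K ∧ b = 0)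

/-- PRE (may use POS, BLKPROD). The value of a prefix of the block part. -/
def S_PRE : Prop := (S_POS ∧ S_BLKPROD) →
    ∀ {G H : Type} [Group G] [Group H] (j : H →* G) (y : H)
    (_ : ∀ x : H, x * y = y * x) (yw : List G) (_ : yw.prod = j y) (_ : yw ≠ []) (n : ℕ → ℕ)
    (_ : ∀ i, 1 ≤ n i)
    (ew : ℕ → List G) (el : ℕ → H) (m : ℕ) (_ : ∀ i < m, (ew i).prod = j (el i)) (z : ℕ),
    z ≤ (Csl yw n ew m).flatten.length →
    ∃ (N : ℕ) (κ : G), ((Csl yw n ew m).flatten.take z).prod =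
        j (((List.range (blk (Csl yw n ew m) z)).map el).prod * y ^ N) * κ ∧
      ∑ k ∈ Finset.range (blk (Csl yw n ew m) z), n k ≤ N ∧
      N ≤ ∑ k ∈ Finset.range (blk (Csl yw n ew m) z + 1), n k ∧
      ((∃ k, κ = (yw.take k).prod) ∨ (∃ i < m, ∃ k, κ = ((ew i).take k).prod)) ∧
      (z = 0 → κ = 1) ∧
      (blk (Csl yw n ew m) z = m → κ = 1 ∧ N = ∑ k ∈ Finset.range m, n k)

/-- INEQ. Two disjoint long segments have different values. Proof: see the end of the docstring of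
WORD: if equal then, as `y` is central in `H`, `(j y) ^ b = c * (j y) ^ a * d` with `a = Ne - Ns`,
`b = Ne' - Ns'`, `c`, `d` the two elements assumed to be in `Φ`; `a ≤ ∑_{k < q+1} n k`,
`b ≥ n (q' - 1) ≥ n (q + 1)`; contradiction to the property of `n` with `i = q`. -/
def S_INEQ : Prop := ∀ {G H : Type} [Group G] [Group H] (j : H →* G) (y : H)
    (_ : ∀ x : H, x * y = y * x) (n : ℕ → ℕ) (_ : Monotone n) (Φ : Set G)
    (_ : ∀ i a b : ℕ, n (i + 1) ≤ b → a ≤ ∑ k ∈ Finset.range (i + 1), n k →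
        ∀ c ∈ Φ, ∀ d ∈ Φ, (j y) ^ b ≠ c * (j y) ^ a * d)
    (T : ℕ → H) (p q p' q' Ns Ne Ns' Ne' : ℕ) (κs κe κs' κe' : G),
    p + 2 ≤ q → q ≤ p' → p' + 2 ≤ q' →
    Ns ≤ ∑ k ∈ Finset.range (p + 1), n k →
    ∑ k ∈ Finset.range q, n k ≤ Ne → Ne ≤ ∑ k ∈ Finset.range (q + 1), n k →
    Ns' ≤ ∑ k ∈ Finset.range (p' + 1), n k →
    ∑ k ∈ Finset.range q', n k ≤ Ne' →
    (j ((T p')⁻¹ * T q'))⁻¹ * κs' * κs⁻¹ * j ((T p)⁻¹ * T q) ∈ Φ → κe * κe'⁻¹ ∈ Φ →
    (j (T p * y ^ Ns) * κs)⁻¹ * (j (T q * y ^ Ne) * κe) ≠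
      (j (T p' * y ^ Ns') * κs')⁻¹ * (j (T q' * y ^ Ne') * κe')

/-- WORD2: WORD, with REPPRE, PRE and INEQ also allowed. -/
def S_WORD2 : Prop := (S_REPPRE ∧ S_PRE ∧ S_INEQ) → S_WORD

end Pool.Agent.H724.EZ
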