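import Pool.Agent.H724.EZ.Stm2

/-!
# Groups with ET0L word problem: commuting subgroups, statements (helper724)

Generalisation of WORD from powers of one central element `y` to geodesics in a finitely generated
infinite subgroup which commutes with everything else.
-/

set_option autoImplicit false

namespace Pool.Agent.H724.EZ

open Pool.Agent.TH719.ED

/-- the elements of length at most `n` with respect to `B` -/
def Bn {M : Type} [Group M] (B : Finset M) (n : ℕ) : Set M :=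
  {x | ∃ l : List M, l.length ≤ n ∧ (∀ b ∈ l, b ∈ B) ∧ l.prod = x}

/-- the path with steps `k` -/
def xi {M : Type} [Group M] (k : ℕ → M) (a : ℕ) : M := ((List.range a).map k).prod

/-- the block of `n i` words `kw`, then `ew i` -/
def blkV {G : Type} (kw : ℕ → List G) (n : ℕ → ℕ) (ew : ℕ → List G) (i : ℕ) : List G :=
  ((List.range (n i)).map (fun t => kw (∑ k ∈ Finset.range i, n k + t))).flatten ++ ew i

/-- the list of the first `m` blocks -/
def CslV {G : Type} (kw : ℕ → List G) (n : ℕ → ℕ) (ew : ℕ → List G) (m : ℕ) : List (List G) :=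
  (List.range m).map (blkV kw n ew)

/-- GEO. Geodesics of every length in an infinite finitely generated group. Proof: as `B` is closed
under inverses, `closure B` is the union of the sets `Bn B n`; each is finite, so for `N ≥ 1` there is
`x ∈ closure B` which is not in `Bn B (N - 1)`; take a shortest word for `x` (length `L ≥ N`,
`Nat.find`) and its first `N` letters (extended by any element of `B`): a piece of it with a shorter word could be
replaced. -/
def S_GEO : Prop := ∀ {M : Type} [Group M] (B : Finset M), (∀ b ∈ B, b⁻¹ ∈ B) →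
    (Subgroup.closure (B : Set M) : Set M).Infinite → ∀ N : ℕ,
    ∃ k : ℕ → M, (∀ t, k t ∈ B) ∧ ∀ a b : ℕ, a < b → b ≤ N →
      (xi k a)⁻¹ * xi k b ∉ Bn B (b - a - 1)

/-- FAST2. A fast growing sequence. Proof: for a finite set `T ⊆ G` there is `n₀` such that every
`z ∈ closure B` with `j z ∈ T` is in `Bn B n₀` (finitely many `z`, `j` injective; `B` is closed under
inverses so `closure B` is the union of the increasing sets `Bn B n`). Recursion as in FAST with
`T = {c * j x * d : x ∈ Bn B (∑_{k ≤ i} n k), c, d ∈ Φ}`, a finite set. -/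
def S_FAST2 : Prop := ∀ {M G : Type} [Group M] [Group G] (j : M →* G), Function.Injective j →
    ∀ (B : Finset M), (∀ b ∈ B, b⁻¹ ∈ B) → ∀ Φ : Set G, Φ.Finite →
    ∃ n : ℕ → ℕ, (∀ i, 1 ≤ n i) ∧ Monotone n ∧
      ∀ (i : ℕ) (x z : M) (c d : G), x ∈ Bn B (∑ k ∈ Finset.range (i + 1), n k) →
        z ∈ Subgroup.closure (B : Set M) → c ∈ Φ → d ∈ Φ → j z = c * j x * d →
        z ∈ Bn B (n (i + 1) - 1)

/-- POS2. As POS. -/
def S_POS2 : Prop := ∀ {G : Type} (kw : ℕ → List G) (n : ℕ → ℕ) (ew : ℕ → List G) (m z : ℕ),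
    (∀ t, kw t ≠ []) → (∀ i, 1 ≤ n i) → z ≤ (CslV kw n ew m).flatten.length →
    ∃ (N' : ℕ) (u : List G), N' ≤ n (blk (CslV kw n ew m) z) ∧ (z = 0 → N' = 0 ∧ u = []) ∧
      ((∃ t k, u = (kw t).take k) ∨ (∃ i < m, ∃ k, u = (ew i).take k)) ∧
      (blk (CslV kw n ew m) z = m → N' = 0 ∧ u = []) ∧
      (CslV kw n ew m).flatten.take z =
        (CslV kw n ew (blk (CslV kw n ew m) z)).flatten ++
        ((List.range N').map
          (fun t => kw (∑ k ∈ Finset.range (blk (CslV kw n ew m) z), n k + t))).flatten ++ u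

/-- BLKPROD2. As BLKPROD. Proof: induction on `p` (`List.range_succ`); the `el i` commute with the
`k t`, hence with the values of `xi k`. -/
def S_BLKPROD2 : Prop := ∀ {G M : Type} [Group G] [Group M] (j : M →* G) (k : ℕ → M)
    (kw : ℕ → List G) (_ : ∀ t, (kw t).prod = j (k t)) (n : ℕ → ℕ)
    (ew : ℕ → List G) (el : ℕ → M) (_ : ∀ i t, el i * k t = k t * el i) (p N' : ℕ)
    (_ : ∀ i < p, (ew i).prod = j (el i)),
    ((CslV kw n ew p).flatten ++ ((List.range N').map
          (fun t => kw (∑ k ∈ Finset.range p, n k + t))).flatten).prod =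
      j (((List.range p).map el).prod * xi k (∑ k ∈ Finset.range p, n k + N'))

/-- PRE2 (may use POS2, BLKPROD2). As PRE. -/
def S_PRE2 : Prop := (S_POS2 ∧ S_BLKPROD2) →
    ∀ {G M : Type} [Group G] [Group M] (j : M →* G) (k : ℕ → M)
    (kw : ℕ → List G) (_ : ∀ t, (kw t).prod = j (k t)) (_ : ∀ t, kw t ≠ []) (n : ℕ → ℕ)
    (_ : ∀ i, 1 ≤ n i) (ew : ℕ → List G) (el : ℕ → M)
    (_ : ∀ i t, el i * k t = k t * el i) (m : ℕ) (_ : ∀ i < m, (ew i).prod = j (el i)) (z : ℕ),
    z ≤ (CslV kw n ew m).flatten.length →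
    ∃ (N : ℕ) (κ : G), ((CslV kw n ew m).flatten.take z).prod =
        j (((List.range (blk (CslV kw n ew m) z)).map el).prod * xi k N) * κ ∧
      ∑ k ∈ Finset.range (blk (CslV kw n ew m) z), n k ≤ N ∧
      N ≤ ∑ k ∈ Finset.range (blk (CslV kw n ew m) z + 1), n k ∧
      ((∃ t k, κ = ((kw t).take k).prod) ∨ (∃ i < m, ∃ k, κ = ((ew i).take k).prod)) ∧
      (z = 0 → κ = 1) ∧
      (blk (CslV kw n ew m) z = m → κ = 1 ∧ N = ∑ k ∈ Finset.range m, n k)

/-- INEQ2. As INEQ: if equal then, as the `T i` commute with the values of `xi k`,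
`j z = c * j x * d` with `x = (xi k Ns)⁻¹ * xi k Ne ∈ Bn B (Ne - Ns)` (a product of `Ne - Ns`
elements of `B`; `Ns ≤ Ne`), `z = (xi k Ns')⁻¹ * xi k Ne'`, `c, d` the two elements of `Φ`; so
`z ∈ Bn B (n (q + 1) - 1)`; but `Ne' - Ns' ≥ n (q' - 1) ≥ n (q + 1)`, so `z` would be in
`Bn B (Ne' - Ns' - 1)`, against the geodesic property. -/
def S_INEQ2 : Prop := ∀ {G M : Type} [Group G] [Group M] (j : M →* G) (B : Finset M)
    (_ : ∀ b ∈ B, b⁻¹ ∈ B) (n : ℕ → ℕ) (_ : ∀ i, 1 ≤ n i) (_ : Monotone n) (Φ : Set G)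
    (_ : ∀ (i : ℕ) (x z : M) (c d : G), x ∈ Bn B (∑ k ∈ Finset.range (i + 1), n k) →
        z ∈ Subgroup.closure (B : Set M) → c ∈ Φ → d ∈ Φ → j z = c * j x * d →
        z ∈ Bn B (n (i + 1) - 1))
    (k : ℕ → M) (_ : ∀ t, k t ∈ B) (R : ℕ)
    (_ : ∀ a b : ℕ, a < b → b ≤ R → (xi k a)⁻¹ * xi k b ∉ Bn B (b - a - 1))
    (T : ℕ → M) (_ : ∀ i t, T i * k t = k t * T i)
    (p q p' q' Ns Ne Ns' Ne' : ℕ) (κs κe κs' κe' : G),
    p + 2 ≤ q → q ≤ p' → p' + 2 ≤ q' → Ne' ≤ R →
    Ns ≤ ∑ k ∈ Finset.range (p + 1), n k →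
    ∑ k ∈ Finset.range q, n k ≤ Ne → Ne ≤ ∑ k ∈ Finset.range (q + 1), n k →
    Ns' ≤ ∑ k ∈ Finset.range (p' + 1), n k →
    ∑ k ∈ Finset.range q', n k ≤ Ne' →
    (j ((T p')⁻¹ * T q'))⁻¹ * κs' * κs⁻¹ * j ((T p)⁻¹ * T q) ∈ Φ → κe * κe'⁻¹ ∈ Φ →
    (j (T p * xi k Ns) * κs)⁻¹ * (j (T q * xi k Ne) * κe) ≠
      (j (T p' * xi k Ns') * κs')⁻¹ * (j (T q' * xi k Ne') * κe')

/-- WORD3 (may use GEO, FAST2, PRE2, INEQ2). The word for a closed path. `j : M → G` injective,
`B ⊆ M` finite, closed under inverses, `K = closure B` infinite, `π : M → Q` with kernel `K`, and every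
element of `Q` has a lift in `M` that commutes with all elements of `B`; `rep g` is a word over `X`
with product `g`. `lift : Q → M` chosen lifts. `Q0` = the set of products of prefixes of
`rep (j (lift e))` (`e ∈ E`), `rep (j b)` (`b ∈ B`), together with `1` (finite, independent of `m`, `S`).
For a closed path `S` let `el i = lift ((S i)⁻¹ * S (i+1))` for `i < m` and `el i = 1` for `i ≥ m`,
`T p = ((List.range p).map el).prod`, so `π (T p) = S p` for `p ≤ m`; `ew i = rep (j (el i))`. `Φ` = the finite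
set of all `(j ((T p')⁻¹ * T q'))⁻¹ * a * b⁻¹ * j ((T p)⁻¹ * T q)` (`p, q, p', q' ≤ m`, `a, b ∈ Q0`)
and all `a * b⁻¹` (`a, b ∈ Q0`); FAST2 gives `n`; GEO with `N = ∑_{k < m+1} n k` gives `k`;
`kw t = rep (j (k t))` — nonempty as `k t ≠ 1` for `t < N` by the geodesic property (`Bn B 0 = {1}`);
to have it for all `t`, change `k` beyond `N` to `k 0` (or take `kw` accordingly). The word is
`W = (CslV kw n ew m).flatten ++ Fin` where `Fin` is the concatenation of the `rep (j b)` for a list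
of elements `b ∈ B` with product the inverse of `T m * xi k (∑_{k < m} n k) ∈ K` (`T m ∈ ker π`).
`bk z = blk (CslV kw n ew m) z`, `z1 = (CslV kw n ew m).flatten.length`. For `z ≤ z1` PRE2 gives
`h z = T (bk z) * xi k N`, `κ`. For `z > z1`: the prefix of `Fin` is a product of complete `rep (j b)`'s
and a prefix of one. For `z = W.length` put `h z = 1`, `κ z = 1`. Last item: INEQ2. -/
def S_WORD3 : Prop := (S_GEO ∧ S_FAST2 ∧ S_PRE2 ∧ S_POS2 ∧ S_BLKPROD2 ∧ S_INEQ2) →
    ∀ {G M Q : Type} [Group G] [Group M] [Group Q] (X : Set G)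
    (_ : ∀ g : G, ∃ w : List G, (∀ x ∈ w, x ∈ X) ∧ w.prod = g)
    (j : M →* G) (_ : Function.Injective j) (B : Finset M) (_ : ∀ b ∈ B, b⁻¹ ∈ B)
    (_ : (Subgroup.closure (B : Set M) : Set M).Infinite) (π : M →* Q)
    (_ : ∀ x : M, π x = 1 ↔ x ∈ Subgroup.closure (B : Set M))
    (_ : ∀ q : Q, ∃ x : M, π x = q ∧ ∀ b ∈ B, x * b = b * x) (E : Finset Q),
    ∃ Q0 : Set G, Q0.Finite ∧ ∀ (m : ℕ) (S : ℕ → Q), S 0 = 1 → S m = 1 →
      (∀ i < m, (S i)⁻¹ * S (i + 1) ∈ E) →
      ∃ (W : List G) (bk : ℕ → ℕ) (h : ℕ → M) (κ : ℕ → G) (z1 : ℕ),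
        (∀ x ∈ W, x ∈ X) ∧ W.prod = 1 ∧ Monotone bk ∧ bk 0 = 0 ∧ bk W.length = m ∧
        (∀ z, bk z ≤ m) ∧ (∀ z, bk (z + 1) ≤ bk z + 1) ∧ (∀ z, z1 ≤ z → bk z = m) ∧
        (∀ z ≤ W.length, (W.take z).prod = j (h z) * κ z ∧ κ z ∈ Q0 ∧ π (h z) = S (bk z)) ∧
        κ 0 = 1 ∧ κ W.length = 1 ∧
        (∀ s e s' e' : ℕ, s ≤ e → e ≤ s' → s' ≤ e' → e' ≤ z1 → e' ≤ W.length →
          bk s + 2 ≤ bk e → bk s' + 2 ≤ bk e' →
          ((W.take s).prod)⁻¹ * (W.take e).prod ≠ ((W.take s').prod)⁻¹ * (W.take e').prod)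

/-- SWEEP2. If `G` has ET0L word problem, every closed path in `Q` can be swept. -/
def S_SWEEP2 : Prop := ∀ {A J G M Q : Type} [Fintype A] [Fintype J] [Group G] [Group M] [Group Q]
    (X : Set G) (_ : ∀ g : G, ∃ w : List G, (∀ x ∈ w, x ∈ X) ∧ w.prod = g)
    (ι : G → A) (ω : List A) (P : J → A → Finset (List A))
    (_ : ∀ w : List G, (∀ x ∈ w, x ∈ X) → (w.prod = 1 ↔ ∃ js : List J, Der P js ω (w.map ι)))
    (j : M →* G) (_ : Function.Injective j) (B : Finset M) (_ : ∀ b ∈ B, b⁻¹ ∈ B)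
    (_ : (Subgroup.closure (B : Set M) : Set M).Infinite) (π : M →* Q)
    (_ : ∀ x : M, π x = 1 ↔ x ∈ Subgroup.closure (B : Set M))
    (_ : ∀ q : Q, ∃ x : M, π x = q ∧ ∀ b ∈ B, x * b = b * x) (E : Finset Q),
    Sweepable (E : Set Q)

/-- FINAL2 (may use SWEEP2 and the library). Commuting finitely generated subgroups `H`, `K` of a
group with ET0L word problem, `K` infinite: `H ∩ K` has finite index in `H`. Proof: let `M = H ⊔ K`
(a subgroup, as a type), `K' = K.subgroupOf M` (normal: `H` commutes with `K` and `K` is normal in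
itself), generated by a finite set `B` closed under inverses, infinite; `Q = M ⧸ K'`, `π` the quotient
map; every element of `Q` is the image of an element of `H`, which commutes with `B`. By SWEEP2 every
finite `E ⊆ Q` is `Sweepable`. As in `Pool.Agent.TH719.ED.finite_of_edt0l` (file Main.lean):
`torsion_of_sweepable`, `growth_of_sweepable`, `finite_of_poly` (with a finite symmetric generating
set of `Q`; `M` is finitely generated) give that `Q` is finite; so `K.relIndex M ≠ 0`, and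
`K.relIndex H ≠ 0` as `H ≤ M`. -/
def S_FINAL2 : Prop := S_SWEEP2 → ∀ (G : Type) [Group G] (X : Finset G),
    Subgroup.closure (X : Set G) = ⊤ → ET0LWordProblem G X →
    ∀ (H K : Subgroup G), H.FG → K.FG → (K : Set G).Infinite →
    (∀ x ∈ H, ∀ z ∈ K, x * z = z * x) → K.relIndex H ≠ 0

/-- COR2. No direct product of two infinite finitely generated groups. Proof: let `f` be injective,
`H' = f(H × 1)`, `K' = f(1 × K)` (ranges of `f ∘ inl`, `f ∘ inr`): finitely generated, infinite,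
commuting, with trivial intersection. So `K'.relIndex H'` is the cardinality of `H'`, which is `0` as
`H'` is infinite (`Subgroup.relIndex` with disjoint subgroups: `K'.subgroupOf H' = ⊥`,
`Subgroup.index_bot`, `Nat.card`). -/
def S_COR2 : Prop := ∀ (G : Type) [Group G],
    (∀ (H K : Subgroup G), H.FG → K.FG → (K : Set G).Infinite →
      (∀ x ∈ H, ∀ z ∈ K, x * z = z * x) → K.relIndex H ≠ 0) →
    ∀ (H K : Type) [Group H] [Group K] [Group.FG H] [Group.FG K] [Infinite H] [Infinite K],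
      ¬ ∃ f : H × K →* G, Function.Injective f

end Pool.Agent.H724.EZ
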