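import Pool.Agent.H724.EZ.Stm3

/-!
# Groups with ET0L word problem: normal subgroups, statements (helper724)

Third wave: the finitely generated infinite subgroup `K` is only assumed to be normal in `M`.
-/

set_option autoImplicit false

namespace Pool.Agent.H724.EZ

open Pool.Agent.TH719.ED

/-- From `x` one can walk with steps in `B`, avoiding `Φ`, out of every finite set. -/
def Esc {M : Type} [Group M] (B : Finset M) (Φ : Set M) (x : M) : Prop :=
  ∀ F : Set M, F.Finite → ∃ l : List M, (∀ b ∈ l, b ∈ B) ∧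
    (∀ t ≤ l.length, x * (l.take t).prod ∉ Φ) ∧ x * l.prod ∉ F

/-- ESC. All but finitely many points can escape. Proof: (second item) `Φ = ∅`: `closure B` is infinite, so
`x * z ∉ F` for some `z ∈ closure B`, and `z` is a product of elements of `B`. (First item) for `x ∉ Φ` let
`R x` be the set of all `x * l.prod`, `l` over `B` with all partial products outside `Φ`; `x` does not
escape iff `x ∈ Φ` or `R x` is finite (if `R x` is infinite it is not contained in `F`). Let `x ∉ Φ`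
with `R x` finite. If `y * b ∉ Φ` for all `y ∈ R x`, `b ∈ B`, then `R x` would be closed under right
multiplication by `B`, so it would contain `x * closure B`, which is infinite. So there are `y ∈ R x`,
`b ∈ B` with `y * b ∈ Φ`: `y` is in the finite set `Φ * B⁻¹`, and `x ∈ R y = R x` (reverse the path, `B` is
closed under inverses). So the non-escaping points are contained in `Φ` and the union of the finite
sets `R y`, `y ∈ Φ * B⁻¹`, `R y` finite. -/
def S_ESC : Prop := ∀ {M : Type} [Group M] (B : Finset M), (∀ b ∈ B, b⁻¹ ∈ B) →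
    (Subgroup.closure (B : Set M) : Set M).Infinite →
    (∀ Φ : Set M, Φ.Finite → {x | ¬ Esc B Φ x}.Finite) ∧ ∀ x, Esc B ∅ x

/-- the value of the first `t` steps of the marked list `Λ` -/
def hv {M : Type} [Group M] (Λ : List (M × Bool)) (t : ℕ) : M := ((Λ.take t).map Prod.fst).prod

/-- the number of marked steps among the first `t` -/
def bn {M : Type} (Λ : List (M × Bool)) (t : ℕ) : ℕ := ((Λ.take t).filter (fun a => a.2)).length

/-- the forbidden values at block number `c` -/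
def Fb {M G : Type} [Group M] [Group G] (j : M →* G) (Q0 : Set G) (Λ : List (M × Bool)) (c : ℕ) :
    Set M :=
  {x | ∃ a b a' : ℕ, a ≤ b ∧ b ≤ a' ∧ a' ≤ Λ.length ∧ bn Λ a + 2 ≤ bn Λ b ∧ bn Λ a' + 2 ≤ c ∧
    ∃ κ₁ ∈ Q0, ∃ κ₂ ∈ Q0, ∃ κ₃ ∈ Q0, ∃ κ₄ ∈ Q0,
      κ₁⁻¹ * ((j (hv Λ a))⁻¹ * j (hv Λ b)) * κ₂ = κ₃⁻¹ * ((j (hv Λ a'))⁻¹ * j x) * κ₄}

/-- FB. (1) `Fb` is finite: finitely many `a, b, a', κ`'s, each determines `j x`, and `j` is injective.
(2) `Fb` does not change when steps are appended at block numbers `≥ c - 1`: a position `a'` beyond `Λ`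
has `bn ≥ bn Λ Λ.length`, so `bn + 2 ≤ c` fails; for positions `≤ Λ.length` `hv` and `bn` are the same
for `Λ` and `Λ ++ Λ'`. (3) elementary facts on `hv`, `bn`. -/
def S_FB : Prop := ∀ {M G : Type} [Group M] [Group G] (j : M →* G), Function.Injective j →
    ∀ (Q0 : Set G), Q0.Finite →
    (∀ (Λ : List (M × Bool)) (c : ℕ), (Fb j Q0 Λ c).Finite) ∧
    (∀ (Λ Λ' : List (M × Bool)) (c : ℕ), c ≤ bn Λ Λ.length + 1 →
      Fb j Q0 (Λ ++ Λ') c = Fb j Q0 Λ c) ∧
    (∀ (Λ : List (M × Bool)) (c : ℕ), c ≤ 1 → Fb j Q0 Λ c = ∅)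

/-- MPATH (may use ESC, FB). The path in `M`. Proof: by induction on `i ≤ m` there is `Λ` with
`bn Λ Λ.length = i`, all unmarked steps in `B`, all marked steps of the form `lift e` with `e ∈ E`,
`π (hv Λ t) = S (bn Λ t)` for `t ≤ Λ.length`, `hv Λ t ∉ Fb j Q0 Λ (bn Λ t)` for `t ≤ Λ.length`, and
`Esc B (Fb j Q0 Λ i) (hv Λ Λ.length)`. Start: `Λ = []` (`Fb = ∅`, ESC second item). Step: let
`e = (S i)⁻¹ * S (i+1)`, `Φ' = Fb j Q0 Λ (i + 1)`, finite, and
`F = {x | x * lift e ∈ Φ' ∨ ¬ Esc B Φ' (x * lift e)}`, finite (right translation). `Esc` gives a list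
`l` over `B` from `hv Λ Λ.length` avoiding `Fb j Q0 Λ i` and ending outside `F`. Take
`Λ' = Λ ++ l.map (·, false) ++ [(lift e, true)]`; FB (2) says that the forbidden sets for `c = i` and
`c = i + 1` are the same for `Λ'` as for `Λ`; for old positions `t ≤ Λ.length` use FB (2) too
(`bn Λ t ≤ bn Λ Λ.length`). `π` kills `B`. -/
def S_MPATH : Prop := (S_ESC ∧ S_FB) →
    ∀ {M G Q : Type} [Group M] [Group G] [Group Q] (j : M →* G), Function.Injective j →
    ∀ (Q0 : Set G), Q0.Finite → ∀ (B : Finset M), (∀ b ∈ B, b⁻¹ ∈ B) →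
    (Subgroup.closure (B : Set M) : Set M).Infinite →
    ∀ (π : M →* Q), (∀ x : M, π x = 1 ↔ x ∈ Subgroup.closure (B : Set M)) →
    ∀ (lift : Q → M), (∀ q, π (lift q) = q) → ∀ (E : Finset Q) (m : ℕ) (S : ℕ → Q), S 0 = 1 →
    (∀ i < m, (S i)⁻¹ * S (i + 1) ∈ E) →
    ∃ Λ : List (M × Bool), bn Λ Λ.length = m ∧
      (∀ a ∈ Λ, a.1 ∈ B ∨ ∃ e ∈ E, a.1 = lift e) ∧
      (∀ t ≤ Λ.length, π (hv Λ t) = S (bn Λ t)) ∧
      (∀ t ≤ Λ.length, hv Λ t ∉ Fb j Q0 Λ (bn Λ t))

/-- WORD4 (may use MPATH, ESC, FB). The word for a closed path in `Q = M / K`. Proof: first, every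
`g : G` has a NONEMPTY word over `X` with product `g` (`G` is infinite, so there is `p ≠ 1`, its words
are nonempty, and `1 = p * p⁻¹`); let `rep` be such words. `lift : Q → M` chosen with `π (lift q) = q`.
`Q0` = the finite set of all `((rep (j x)).take k).prod`, `x ∈ B` or `x = lift e`, `e ∈ E`, together
with `1`. Given `S`: MPATH gives `Λ`; `hv Λ Λ.length ∈ K` since `π` of it is `S m = 1`, so there is a list `f`
over `B` with `hv Λ Λ.length * f.prod = 1` (`B` is closed under inverses). Let `Λt = Λ.map fst ++ f`,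
`Cs = Λt.map (fun x => rep (j x))` (all nonempty), `W = Cs.flatten`, `τ z = blk Cs z` (file Blk.lean
of the library: `blk_mono, blk_succ_le, blk_zero, blk_total, blk_le_length, take_flatten,
lt_blk_iff`), `bk z = bn Λ (τ z)`, `h z = (Λt.take (τ z)).prod`,
`κ z = (j (h z))⁻¹ * (W.take z).prod`, `z1 = (Cs.take Λ.length).flatten.length`. `take_flatten`
gives `κ z = (C.take k).prod` with `C ∈ Cs` or `C = []`, so `κ z ∈ Q0`. For `τ z ≤ Λ.length`:
`h z = hv Λ (τ z)`; beyond, `h z = hv Λ Λ.length * (an element of K)`, so `π (h z) = S m = 1`. Last item: positions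
`τ s ≤ τ e ≤ τ s' ≤ τ e' ≤ Λ.length`, and `hv Λ (τ e') ∉ Fb ..` is exactly the claim. -/
def S_WORD4 : Prop := (S_ESC ∧ S_FB ∧ S_MPATH) →
    ∀ {G M Q : Type} [Group G] [Group M] [Group Q] (X : Set G)
    (_ : ∀ g : G, ∃ w : List G, (∀ x ∈ w, x ∈ X) ∧ w.prod = g)
    (j : M →* G) (_ : Function.Injective j) (B : Finset M) (_ : ∀ b ∈ B, b⁻¹ ∈ B)
    (_ : (Subgroup.closure (B : Set M) : Set M).Infinite) (π : M →* Q)
    (_ : Function.Surjective π)
    (_ : ∀ x : M, π x = 1 ↔ x ∈ Subgroup.closure (B : Set M)) (E : Finset Q),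
    ∃ Q0 : Set G, Q0.Finite ∧ ∀ (m : ℕ) (S : ℕ → Q), S 0 = 1 → S m = 1 →
      (∀ i < m, (S i)⁻¹ * S (i + 1) ∈ E) →
      ∃ (W : List G) (bk : ℕ → ℕ) (h : ℕ → M) (κ : ℕ → G) (z1 : ℕ),
        (∀ x ∈ W, x ∈ X) ∧ W.prod = 1 ∧ Monotone bk ∧ bk 0 = 0 ∧ bk W.length = m ∧
        (∀ z, bk z ≤ m) ∧ (∀ z, bk (z + 1) ≤ bk z + 1) ∧ (∀ z, z1 ≤ z → bk z = m) ∧
        (∀ z ≤ W.length, (W.take z).prod = j (h z) * κ z ∧ κ z ∈ Q0 ∧ π (h z) = S (bk z)) ∧
        κ 0 = 1 ∧ κ W.length = 1 ∧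
        (∀ s e s' e' : ℕ, s ≤ e → e ≤ s' → s' ≤ e' → e' ≤ z1 → e' ≤ W.length →
          bk s + 2 ≤ bk e → bk s' + 2 ≤ bk e' →
          ((W.take s).prod)⁻¹ * (W.take e).prod ≠ ((W.take s').prod)⁻¹ * (W.take e').prod)

/-- SWEEP4. If `G` has ET0L word problem, every closed path in `Q = M / K` can be swept. -/
def S_SWEEP4 : Prop := ∀ {A J G M Q : Type} [Fintype A] [Fintype J] [Group G] [Group M] [Group Q]
    (X : Set G) (_ : ∀ g : G, ∃ w : List G, (∀ x ∈ w, x ∈ X) ∧ w.prod = g)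
    (ι : G → A) (ω : List A) (P : J → A → Finset (List A))
    (_ : ∀ w : List G, (∀ x ∈ w, x ∈ X) → (w.prod = 1 ↔ ∃ js : List J, Der P js ω (w.map ι)))
    (j : M →* G) (_ : Function.Injective j) (B : Finset M) (_ : ∀ b ∈ B, b⁻¹ ∈ B)
    (_ : (Subgroup.closure (B : Set M) : Set M).Infinite) (π : M →* Q)
    (_ : Function.Surjective π)
    (_ : ∀ x : M, π x = 1 ↔ x ∈ Subgroup.closure (B : Set M)) (E : Finset Q),
    Sweepable (E : Set Q)

/-- FINAL4 (may use SWEEP4 and the library). In a group with ET0L word problem: if `K` is an infinite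
finitely generated subgroup, normal in the finitely generated subgroup `M`, then `K` has finite index
in `M`. Proof: as FINAL2 (helper86's `final2`, store `helper86_EZ_FINAL2.lean`): `Q = M ⧸ K'` with
`K' = K.subgroupOf M`; every finite `E ⊆ Q` is `Sweepable` by SWEEP4, so `Q` is a torsion group of
polynomial growth, hence finite by the library. -/
def S_FINAL4 : Prop := S_SWEEP4 → ∀ (G : Type) [Group G] (X : Finset G),
    Subgroup.closure (X : Set G) = ⊤ → ET0LWordProblem G X →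
    ∀ (M K : Subgroup G), M.FG → K.FG → K ≤ M → (K : Set G).Infinite →
    (∀ x ∈ M, ∀ z ∈ K, x * z * x⁻¹ ∈ K) → K.relIndex M ≠ 0

/-- COR4. Consequence: commuting finitely generated subgroups `H`, `K`, `K` infinite: take
`M = H ⊔ K`, in which `K` is normal (`M` is finitely generated), then `K.relIndex H ≠ 0` as `H ≤ M`. -/
def S_COR4 : Prop := ∀ (G : Type) [Group G],
    (∀ (M K : Subgroup G), M.FG → K.FG → K ≤ M → (K : Set G).Infinite →
      (∀ x ∈ M, ∀ z ∈ K, x * z * x⁻¹ ∈ K) → K.relIndex M ≠ 0) →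
    ∀ (H K : Subgroup G), H.FG → K.FG → (K : Set G).Infinite →
      (∀ x ∈ H, ∀ z ∈ K, x * z = z * x) → K.relIndex H ≠ 0

end Pool.Agent.H724.EZ
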