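import Pool.Agent.H724.EZ.Stm4

/-!
# Groups with ET0L word problem: commensurated subgroups, statements (helper724)
-/

set_option autoImplicit false

namespace Pool.Agent.H724.EZ

open Pool.Agent.TH719.ED

/-- MPATH5 (may use ESC, FB). As MPATH (helper733's proof: store `helper733_EZ_MPATH.lean`), with two
changes: `ker π` may be larger than `K = closure B`, but `K` is commensurated by the lifts (hypothesis
`hcom`), and the end point is in `K`. Proof: carry along in the induction that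
`hv Λ Λ.length = k * s` with `k ∈ K`, `s ∈ closure (range lift)`. Step: `hcom` for `s` gives a finite set
`D ⊆ K`; choose for `d ∈ D` a list `w_d` over `B` with product `d`. With `Φ' = Fb j Q0 Λ (i + 1)` and
`F = {x | x * lift e ∈ Φ' ∨ ¬ Esc B Φ' (x * lift e)}` as before, put `F₁` = the set of all `y` such that
`y * p ∈ F ∪ Fb j Q0 Λ i` for a prefix product `p` of some `w_d` (finite; `p = 1` and `p = d` included).
`Esc` gives `l` avoiding `Fb j Q0 Λ i` and ending outside `F₁`; with `u = l.prod ∈ K` choose `d ∈ D` with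
`s * (u * d) * s⁻¹ ∈ K` and append `w_d` to `l`. Then
`hv Λ' = k * (s * (u * d) * s⁻¹) * (s * lift e)`. At the end `π s = 1`, so `s ∈ K` by `hcl`. -/
def S_MPATH5 : Prop := (S_ESC ∧ S_FB) →
    ∀ {M G Q : Type} [Group M] [Group G] [Group Q] (j : M →* G), Function.Injective j →
    ∀ (Q0 : Set G), Q0.Finite → ∀ (B : Finset M), (∀ b ∈ B, b⁻¹ ∈ B) →
    (Subgroup.closure (B : Set M) : Set M).Infinite →
    ∀ (π : M →* Q), (∀ b ∈ B, π b = 1) →
    ∀ (lift : Q → M), (∀ q, π (lift q) = q) →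
    (∀ x ∈ Subgroup.closure (Set.range lift), ∃ D : Set M, D.Finite ∧
      (∀ d ∈ D, d ∈ Subgroup.closure (B : Set M)) ∧
      ∀ u ∈ Subgroup.closure (B : Set M), ∃ d ∈ D,
        x * (u * d) * x⁻¹ ∈ Subgroup.closure (B : Set M)) →
    (∀ x ∈ Subgroup.closure (Set.range lift), π x = 1 → x ∈ Subgroup.closure (B : Set M)) →
    ∀ (E : Finset Q) (m : ℕ) (S : ℕ → Q), S 0 = 1 → S m = 1 →
    (∀ i < m, (S i)⁻¹ * S (i + 1) ∈ E) →
    ∃ Λ : List (M × Bool), bn Λ Λ.length = m ∧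
      (∀ a ∈ Λ, a.1 ∈ B ∨ ∃ e ∈ E, a.1 = lift e) ∧
      (∀ t ≤ Λ.length, π (hv Λ t) = S (bn Λ t)) ∧
      (∀ t ≤ Λ.length, hv Λ t ∉ Fb j Q0 Λ (bn Λ t)) ∧
      hv Λ Λ.length ∈ Subgroup.closure (B : Set M)

/-- WORD5 (may use ESC, FB, MPATH5). As WORD4 (helper400's proof: store `helper400_EZ_WORD4.lean`);
now `lift` is given, `π` kills `B` (hence `closure B`), and `hv Λ Λ.length ∈ closure B` comes from
MPATH5. -/
def S_WORD5 : Prop := (S_ESC ∧ S_FB ∧ S_MPATH5) →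
    ∀ {G M Q : Type} [Group G] [Group M] [Group Q] (X : Set G)
    (_ : ∀ g : G, ∃ w : List G, (∀ x ∈ w, x ∈ X) ∧ w.prod = g)
    (j : M →* G) (_ : Function.Injective j) (B : Finset M) (_ : ∀ b ∈ B, b⁻¹ ∈ B)
    (_ : (Subgroup.closure (B : Set M) : Set M).Infinite) (π : M →* Q)
    (_ : ∀ b ∈ B, π b = 1) (lift : Q → M) (_ : ∀ q, π (lift q) = q)
    (_ : ∀ x ∈ Subgroup.closure (Set.range lift), ∃ D : Set M, D.Finite ∧
      (∀ d ∈ D, d ∈ Subgroup.closure (B : Set M)) ∧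
      ∀ u ∈ Subgroup.closure (B : Set M), ∃ d ∈ D,
        x * (u * d) * x⁻¹ ∈ Subgroup.closure (B : Set M))
    (_ : ∀ x ∈ Subgroup.closure (Set.range lift), π x = 1 → x ∈ Subgroup.closure (B : Set M))
    (E : Finset Q),
    ∃ Q0 : Set G, Q0.Finite ∧ ∀ (m : ℕ) (S : ℕ → Q), S 0 = 1 → S m = 1 →
      (∀ i < m, (S i)⁻¹ * S (i + 1) ∈ E) →
      ∃ (W : List G) (bk : ℕ → ℕ) (h : ℕ → M) (κ : ℕ → G) (z1 : ℕ),
        (∀ x ∈ W, x ∈ X) ∧ W.prod = 1 ∧ Monotone bk ∧ bk 0 = 0 ∧ bk W.length = m ∧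
        (∀ z, bk z ≤ m) ∧ (∀ z, bk (z + 1) ≤ bk z + 1) ∧ (∀ z, z1 ≤ z → bk z = m) ∧
        (∀ z ≤ W.length, (W.take z).prod = j (h z) * κ z ∧ κ z ∈ Q0 ∧ π (h z) = S (bk z)) ∧
        κ 0 = 1 ∧ κ W.length = 1 ∧
        (∀ s e s' e' : ℕ, s ≤ e → e ≤ s' → s' ≤ e' → e' ≤ z1 → e' ≤ W.length →
          bk s + 2 ≤ bk e → bk s' + 2 ≤ bk e' →
          ((W.take s).prod)⁻¹ * (W.take e).prod ≠ ((W.take s').prod)⁻¹ * (W.take e').prod)

/-- SWEEP5. If `G` has ET0L word problem, every closed path in `Q` can be swept. -/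
def S_SWEEP5 : Prop := ∀ {A J G M Q : Type} [Fintype A] [Fintype J] [Group G] [Group M] [Group Q]
    (X : Set G) (_ : ∀ g : G, ∃ w : List G, (∀ x ∈ w, x ∈ X) ∧ w.prod = g)
    (ι : G → A) (ω : List A) (P : J → A → Finset (List A))
    (_ : ∀ w : List G, (∀ x ∈ w, x ∈ X) → (w.prod = 1 ↔ ∃ js : List J, Der P js ω (w.map ι)))
    (j : M →* G) (_ : Function.Injective j) (B : Finset M) (_ : ∀ b ∈ B, b⁻¹ ∈ B)
    (_ : (Subgroup.closure (B : Set M) : Set M).Infinite) (π : M →* Q)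
    (_ : ∀ b ∈ B, π b = 1) (lift : Q → M) (_ : ∀ q, π (lift q) = q)
    (_ : ∀ x ∈ Subgroup.closure (Set.range lift), ∃ D : Set M, D.Finite ∧
      (∀ d ∈ D, d ∈ Subgroup.closure (B : Set M)) ∧
      ∀ u ∈ Subgroup.closure (B : Set M), ∃ d ∈ D,
        x * (u * d) * x⁻¹ ∈ Subgroup.closure (B : Set M))
    (_ : ∀ x ∈ Subgroup.closure (Set.range lift), π x = 1 → x ∈ Subgroup.closure (B : Set M))
    (E : Finset Q), Sweepable (E : Set Q)

/-- FINAL5 (may use SWEEP5 and the library). `H`, `K` finitely generated, `K` infinite, commensurated by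
`H` (`x K x⁻¹ ∩ K` has finite index in `K` for all `x ∈ H`), and `H ∩ N ≤ K` for the subgroup `N`
generated by the conjugates of `K` by elements of `H`: then `H ∩ K` has finite index in `H`. Proof:
as FINAL4 (helper143's proof: store `helper143_EZ_final4.lean`). Let `M = H ⊔ K` (as a type),
`N' = N.subgroupOf M`; `N` is normalised by `H` (conjugates of generators are generators) and by `K ≤ N`,
so `N'` is normal. `Q = M ⧸ N'`, `π` the quotient map. Every element of `M` is in `H * N`, so every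
`q : Q` has a lift in `H`: `lift q`, and `closure (range lift) ≤ H` (inside `M`). `B` = a finite set
closed under inverses generating `K` inside `M`. For `x ∈ H` the subgroup `K ∩ x⁻¹ K x` has finite index
in `K`; `D` = representatives of its left cosets `K / (K ∩ x⁻¹ K x)`: for `u ∈ K` choose `d` in the
coset of `u⁻¹`, then `u * d ∈ x⁻¹ K x`. If `x ∈ H` and `π x = 1` then `x ∈ H ∩ N ≤ K`. By SWEEP5 and
the library `Q` is finite (`Q` is finitely generated: `M` is). So `N.relIndex M ≠ 0`,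
`N.relIndex H ≠ 0`, `(N ⊓ H).relIndex H ≠ 0` and `N ⊓ H ≤ K`. -/
def S_FINAL5 : Prop := S_SWEEP5 → ∀ (G : Type) [Group G] (X : Finset G),
    Subgroup.closure (X : Set G) = ⊤ → ET0LWordProblem G X →
    ∀ (H K : Subgroup G), H.FG → K.FG → (K : Set G).Infinite →
    (∀ x ∈ H, (K.map (MulAut.conj x).toMonoidHom).relIndex K ≠ 0) →
    H ⊓ Subgroup.closure {g | ∃ x ∈ H, ∃ z ∈ K, g = x * z * x⁻¹} ≤ K → K.relIndex H ≠ 0

/-- COR5. The case of a normal subgroup: `H = M`, `x K x⁻¹ = K`, and the conjugates of `K` generate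
`K`. (Note `K.map conj x ≤ K` for `x` and for `x⁻¹`, so it is equal to `K`.) -/
def S_COR5 : Prop := ∀ (G : Type) [Group G],
    (∀ (H K : Subgroup G), H.FG → K.FG → (K : Set G).Infinite →
      (∀ x ∈ H, (K.map (MulAut.conj x).toMonoidHom).relIndex K ≠ 0) →
      H ⊓ Subgroup.closure {g | ∃ x ∈ H, ∃ z ∈ K, g = x * z * x⁻¹} ≤ K → K.relIndex H ≠ 0) →
    ∀ (M K : Subgroup G), M.FG → K.FG → K ≤ M → (K : Set G).Infinite →
      (∀ x ∈ M, ∀ z ∈ K, x * z * x⁻¹ ∈ K) → K.relIndex M ≠ 0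

end Pool.Agent.H724.EZ
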