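import Pool.Agent.H724.EZ.Stm2

/-!
# Groups with ET0L word problem: the sweeps (helper724)
-/

set_option autoImplicit false

namespace Pool.Agent.H724.EZ

open Pool.Agent.TH719.ED

theorem sweep (hDA : S_DERAPP) (hDF : S_DERFLAT) (hG : S_GROUP) (hT : S_TIMED)
    (hSB : S_SEGBASIC) (hAl : S_ALIGN) (hKF : S_KEYFIN) (hCP : S_CHNPROD) (hR : S_REL)
    (hE : S_EQUAL) (hF : S_FAST) (hPos : S_POS) (hBP : S_BLKPROD) (hC : S_COUNT)
    (hU : S_UNCOV) (hRef : S_REFINE) (hW : S_WORD) : S_SWEEP := by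
  intro A J G H Q _ _ _ _ _ X hgen ι ω P hL j hj y hy hyo π hπ hker E
  classical
  obtain ⟨Q0, hQ0, hword⟩ := hW ⟨hF, hPos, hBP⟩ X hgen j hj y hy hyo π hπ hker E
  set r := Fintype.card A + 1 with hr
  obtain ⟨c0, hc0⟩ := exists_bound (Past P ω Q0 r) keyR List.length (hKF P ω Q0 hQ0 r)
  set D := (Finset.univ : Finset J).sup (fun j => (Finset.univ : Finset A).sup
    (fun a => (P j a).sup (fun α => α.length))) + 1 with hD
  have hDle : ∀ j a, ∀ α ∈ P j a, α.length ≤ D := fun j a α hα =>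
    ((Finset.le_sup (f := fun α : List A => α.length) hα).trans
      ((Finset.le_sup (f := fun a => (P j a).sup (fun α => α.length)) (Finset.mem_univ a)).trans
      (Finset.le_sup (f := fun j => (Finset.univ : Finset A).sup
        (fun a => (P j a).sup (fun α => α.length)))
        (Finset.mem_univ j)))).trans (Nat.le_succ _)
  refine ⟨r, c0 + r * D + ω.length + 2, ?_⟩
  intro m S hS0 hSm hSE
  obtain ⟨W, bk, h, κ, z1, hWX, hWprod, hmono, hbk0, hbkW, hbkm, hbksucc, hbkz1, hdata, hκ0, hκ1,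
    hdist⟩ := hword m S hS0 hSm (fun i hi => hSE i hi)
  obtain ⟨js, hjs⟩ := (hL W hWX).1 hWprod
  obtain ⟨F, hFT⟩ := hT ⟨hDA, hDF, hG⟩ P D hDle (by omega) js ω (W.map ι) hjs
  set K := (c0 + r * D + ω.length + 2) * (Nat.log 2 m + 1) with hK
  have hKge : c0 + r * D + ω.length + 2 ≤ K := Nat.le_mul_of_pos_right _ (by omega)
  have hseg : ∀ t, SegCh (F t) 0 W.length := by
    intro t
    have := hFT.seg t
    rwa [List.length_map] at this
  have hfut : ∀ t, ∀ σ ∈ F t, Der P (js.drop t) [σ.1] ((sub W σ).map ι) := by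
    intro t σ hσ
    have := hFT.fut t σ hσ
    rw [sub, List.map_take, List.map_drop]
    exact this
  have hL' : ∀ w : List G, (∀ x ∈ w, x ∈ X) → (∃ js : List J, Der P js ω (w.map ι)) →
      w.prod = 1 := fun w hw h => (hL w hw).2 h
  have hbd : ∀ t, ∀ σ ∈ F t, σ.2.1 ≤ σ.2.2 ∧ σ.2.2 ≤ W.length := by
    intro t σ hσ
    have := (hSB (F t) 0 W.length (hseg t)).2.1 σ hσ
    exact ⟨this.2.1, this.2.2⟩
  have hcount : ∀ t, ((F t).filter (Lng bk)).length ≤ r := by
    intro t
    refine hC hSB bk m z1 hbkm hbkz1 (F t) W.length (hseg t) ?_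
    intro σ hσ τ hτ h1 h2 h3 h4 heq
    have h5 := hE ⟨hDA, hDF, hSB⟩ P ω ι W X hWX hL' (js.take t) (js.drop t) (F t) (hseg t)
      (hFT.past t) (hfut t) σ τ hσ hτ heq
    rw [prod_sub W σ (hbd t σ hσ).1, prod_sub W τ (hbd t τ hτ).1] at h5
    exact hdist σ.2.1 σ.2.2 τ.2.1 τ.2.2 (hbd t σ hσ).1 h1 (hbd t τ hτ).1 h2 (hbd t τ hτ).2
      (by simpa [Lng] using h3) (by simpa [Lng] using h4) h5
  set L : ℕ → List (ℕ × ℕ) :=
    fun t => ((F t).filter (Lng bk)).map (fun σ => (bk σ.2.1, bk σ.2.2)) with hLdef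
  refine ⟨js.length, L, ?_, ?_, ?_, ?_, ?_, ?_, ?_, ?_⟩
  · intro t
    rw [hLdef]
    simp only [List.length_map]
    exact hcount t
  · intro t
    rw [hLdef]
    simp only
    rw [List.pairwise_map]
    refine (((hSB (F t) 0 W.length (hseg t)).2.2.1).filter _).imp ?_
    intro x z hxz
    exact hmono hxz
  · intro t a ha
    obtain ⟨s, hs, rfl⟩ := List.mem_map.1 ha
    have := hbd t s (List.mem_filter.1 hs).1
    exact ⟨hmono this.1, hbkm _⟩
  · intro t
    obtain ⟨R, hR1, hR2⟩ := hFT.ref t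
    have := (hRef ⟨hSB, hU⟩ bk hmono D r (F t) 0 W.length (hseg t) R hR1 (hcount t)).1
    rw [hLdef]
    simp only
    rw [hR2]
    exact this
  · have h1 := hU hSB bk hmono (F 0) 0 W.length (hseg 0)
    rw [hbk0, hbkW] at h1
    have h2 : (F 0).length = ω.length := by
      have := hFT.past 0
      rw [List.take_zero, Der] at this
      rw [this, List.length_map]
    have h3 : Set.Ico 0 m = Set.Iio m := by
      ext x; simp
    rw [h3] at h1
    refine h1.trans ?_
    omega
  · intro t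
    obtain ⟨R, hR1, hR2⟩ := hFT.ref t
    have := (hRef ⟨hSB, hU⟩ bk hmono D r (F t) 0 W.length (hseg t) R hR1 (hcount t)).2
    rw [hLdef]
    simp only
    rw [hR2]
    refine this.trans ?_
    omega
  · have h1 : L js.length = [] := by
      rw [hLdef]
      simp only
      rw [List.map_eq_nil_iff, List.filter_eq_nil_iff]
      intro s hs
      have h2 := hfut js.length s hs
      rw [List.drop_length, Der] at h2
      have h3 := congrArg List.length h2
      rw [List.length_map, sub, List.length_take, List.length_drop, List.length_singleton] at h3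
      have h4 := hbd js.length s hs
      have h5 : s.2.2 = s.2.1 + 1 := by omega
      have h6 := hbksucc s.2.1
      simp only [Lng, decide_eq_true_eq, not_le]
      rw [h5]
      omega
    rw [h1]
    ext x
    simp [Cov]
  · intro t
    obtain ⟨gs, hg1, hg2, hg3, hg4⟩ := hR ⟨hDA, hDF, hSB, hAl, hCP⟩ P ω Q0 r c0 hc0 ι W X hWX hL'
      (js.take t) (js.drop t) (F t) (hseg t) (hFT.past t) (hfut t) j hj h κ
      (fun z hz => (hdata z hz).1) (fun z hz => (hdata z hz).2.1) hκ0 hκ1 (Lng bk) (hcount t)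
    refine ⟨gs.map (fun s => (Lng bk s, bk s.2.1, bk s.2.2)), ?_, ?_, ?_, ?_⟩
    · rw [List.length_map]; omega
    · rw [List.filter_map, List.map_map]
      have h1 : ((fun a : Bool × ℕ × ℕ => a.1) ∘ fun s : A × ℕ × ℕ =>
          (Lng bk s, bk s.2.1, bk s.2.2)) = Lng bk := rfl
      rw [h1, hg2]
      rfl
    · intro a ha hf
      obtain ⟨s, hs, rfl⟩ := List.mem_map.1 ha
      have h1 := hbd t s (hg3 s hs)
      simp only [Lng, decide_eq_false_iff_not, not_le] at hf
      refine ⟨hmono h1.1, ?_, hbkm _⟩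
      simp only
      omega
    · rw [List.map_map]
      have h1 := congrArg π hg4
      rw [map_list_prod, List.map_map, map_one] at h1
      rw [← h1]
      congr 1
      apply List.map_congr_left
      intro s hs
      have h2 := hbd t s (hg3 s hs)
      simp only [Function.comp_apply, map_mul, map_inv]
      rw [(hdata s.2.1 (h2.1.trans h2.2)).2.2, (hdata s.2.2 h2.2).2.2]

end Pool.Agent.H724.EZ
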