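import Mathlib

/-!
# Centralisers of finite index (helper724)
-/

set_option autoImplicit false

namespace Pool.Agent.H724.EZ

/-- from the statement on normal subgroups: an element of infinite order with centraliser of finite
index generates a subgroup of finite index -/
theorem cor6 (G : Type) [Group G] (X : Finset G) (hX : Subgroup.closure (X : Set G) = ⊤)
    (h : ∀ (M K : Subgroup G), M.FG → K.FG → K ≤ M → (K : Set G).Infinite →
      (∀ x ∈ M, ∀ z ∈ K, x * z * x⁻¹ ∈ K) → K.relIndex M ≠ 0)
    (y : G) (hy : ¬ IsOfFinOrder y) (hc : (Subgroup.centralizer {y}).FiniteIndex) :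
    (Subgroup.zpowers y).FiniteIndex := by
  have hfg : Group.FG G := ⟨⟨X, hX⟩⟩
  have h1 : (Subgroup.centralizer {y} : Subgroup G).FG :=
    (Group.fg_iff_subgroup_fg _).1 (Subgroup.fg_of_index_ne_zero _)
  have h2 : Subgroup.zpowers y ≤ Subgroup.centralizer {y} := by
    rw [Subgroup.zpowers_le, Subgroup.mem_centralizer_iff]
    intro z hz
    rw [Set.mem_singleton_iff] at hz
    rw [hz]
  have h3 : ((Subgroup.zpowers y : Subgroup G) : Set G).Infinite := by
    intro hfin
    exact hy (isOfFinOrder_iff_zpow_eq_one.2 (by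
      by_contra hno
      push Not at hno
      have hinj : Function.Injective (fun n : ℤ => y ^ n) :=
        injective_zpow_iff_not_isOfFinOrder.2 hy
      have h5 : (Set.range (fun n : ℤ => y ^ n)).Finite := hfin.subset (by
        rintro _ ⟨n, rfl⟩
        exact Subgroup.zpow_mem _ (Subgroup.mem_zpowers y) n)
      exact Set.infinite_range_of_injective hinj h5))
  have h4 := h (Subgroup.centralizer {y}) (Subgroup.zpowers y) h1
    ⟨{y}, by simp [Subgroup.zpowers_eq_closure]⟩ h2 h3 (by
      intro x hx z hz
      obtain ⟨n, rfl⟩ := Subgroup.mem_zpowers_iff.1 hz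
      rw [Subgroup.mem_centralizer_iff] at hx
      have h5 : Commute y x := hx y rfl
      have h6 : x * y ^ n = y ^ n * x := (h5.zpow_left n).eq.symm
      rw [h6, mul_inv_cancel_right]
      exact Subgroup.zpow_mem _ (Subgroup.mem_zpowers y) n)
  constructor
  rw [← Subgroup.relIndex_mul_index h2]
  exact mul_ne_zero h4 hc.index_ne_zero

end Pool.Agent.H724.EZ
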