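import Pool.Agent.H724.EZ.Stm5

/-! COR5 (helper277 for helper724): the case of a normal subgroup. -/

set_option autoImplicit false

namespace Pool.Agent.H277.EZCOR5

open Pool.Agent.H724.EZ

theorem cor5 : S_COR5 := by
  intro G _ h M K hM hK hKM hinf hn
  refine h M K hM hK hinf ?_ ?_
  · intro x hx
    have h1 : K.map (MulAut.conj x).toMonoidHom = K := by
      apply le_antisymm
      · rintro _ ⟨z, hz, rfl⟩
        exact hn x hx z hz
      · intro z hz
        refine ⟨x⁻¹ * z * x⁻¹⁻¹, hn x⁻¹ (M.inv_mem hx) z hz, ?_⟩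
        show x * (x⁻¹ * z * x⁻¹⁻¹) * x⁻¹ = z
        group
    rw [h1, Subgroup.relIndex_self]
    exact one_ne_zero
  · refine inf_le_right.trans ?_
    rw [Subgroup.closure_le]
    rintro g ⟨x, hx, z, hz, rfl⟩
    exact hn x hx z hz

end Pool.Agent.H277.EZCOR5
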