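import Pool.Agent.H724.EZ.Stm5
import Pool.Graph.R_seed8.TH719.ED.Main

/-!
# Project EZ of helper724: commensurated subgroups (FINAL5), adapted from `final4` of helper143
-/

set_option autoImplicit false

namespace Pool.Agent.H976.EZFinal5

open Pool.Agent.TH719.ED Pool.Agent.H724.EZ

theorem final5 : S_FINAL5 := by
  classical
  intro hS5 G _ X hgen hET H K hHFG hKFG hKinf hcomm hinter
  obtain ⟨A, _, J, _, ι, ω, P, -, -, hL⟩ := hET
  obtain ⟨N, hN⟩ : ∃ N : Subgroup G,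
      N = Subgroup.closure {g | ∃ x ∈ H, ∃ z ∈ K, g = x * z * x⁻¹} := ⟨_, rfl⟩
  rw [← hN] at hinter
  obtain ⟨M, hM⟩ : ∃ M : Subgroup G, M = H ⊔ K := ⟨_, rfl⟩
  have hHM : H ≤ M := hM ▸ le_sup_left
  have hKM : K ≤ M := hM ▸ le_sup_right
  have hKN : K ≤ N := by
    intro z hz
    rw [hN]
    exact Subgroup.subset_closure ⟨1, one_mem H, z, hz, by group⟩
  have hNM : N ≤ M := by
    rw [hN, Subgroup.closure_le]
    rintro g ⟨x, hx, z, hz, rfl⟩
    exact mul_mem (mul_mem (hHM hx) (hKM hz)) (inv_mem (hHM hx))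
  -- `N` is normalised by `H`
  have hconj : ∀ x ∈ H, ∀ z ∈ N, x * z * x⁻¹ ∈ N := by
    intro x hx z hz
    have h1 : N ≤ N.comap (MulAut.conj x).toMonoidHom := by
      conv_lhs => rw [hN]
      rw [Subgroup.closure_le]
      rintro g ⟨y, hy, w, hw, rfl⟩
      show x * (y * w * y⁻¹) * x⁻¹ ∈ N
      rw [hN]
      refine Subgroup.subset_closure ⟨x * y, mul_mem hx hy, w, hw, by group⟩
    exact h1 hz
  have hHn : H ≤ Subgroup.normalizer (N : Set G) := by
    intro x hx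
    rw [Subgroup.mem_normalizer_iff]
    intro z
    constructor
    · intro hz
      exact hconj x hx z hz
    · intro hz
      have h1 := hconj x⁻¹ (inv_mem hx) _ hz
      have h2 : x⁻¹ * (x * z * x⁻¹) * x⁻¹⁻¹ = z := by group
      rw [h2] at h1
      exact h1
  have hMn : M ≤ Subgroup.normalizer (N : Set G) := by
    rw [hM]
    exact sup_le hHn (hKN.trans Subgroup.le_normalizer)
  have hnorm : (N.subgroupOf M).Normal := (Subgroup.normal_subgroupOf_iff_le_normalizer hNM).2 hMn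
  -- generators of `K`
  obtain ⟨SK, hSK⟩ := id hKFG
  have hSKM : ∀ x ∈ SK, x ∈ M := fun x hx => hKM (hSK ▸ Subgroup.subset_closure hx)
  obtain ⟨B0, hB0⟩ : ∃ B0 : Finset M, ∀ x : M, x ∈ B0 ↔ (x : G) ∈ SK := by
    refine ⟨SK.attach.image (fun x => (⟨x.1, hSKM x.1 x.2⟩ : M)), fun x => ?_⟩
    rw [Finset.mem_image]
    constructor
    · rintro ⟨y, -, rfl⟩
      exact y.2
    · intro hx
      exact ⟨⟨x.1, hx⟩, Finset.mem_attach _ _, rfl⟩
  obtain ⟨B, hB⟩ : ∃ B : Finset M, B = B0 ∪ B0.image (fun x => x⁻¹) := ⟨_, rfl⟩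
  have hBi : ∀ b ∈ B, b⁻¹ ∈ B := by
    intro b hb
    rw [hB, Finset.mem_union, Finset.mem_image] at hb ⊢
    rcases hb with hb | ⟨y, hy, rfl⟩
    · exact Or.inr ⟨b, hb, rfl⟩
    · rw [inv_inv]
      exact Or.inl hy
  have hcl0 : Subgroup.closure (B0 : Set M) = K.subgroupOf M := by
    apply Subgroup.map_injective M.subtype_injective
    rw [Subgroup.subgroupOf_map_subtype, inf_eq_left.2 hKM, MonoidHom.map_closure, ← hSK]
    congr 1
    ext x
    constructor
    · rintro ⟨y, hy, rfl⟩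
      exact (hB0 y).1 hy
    · intro hx
      exact ⟨⟨x, hSKM x hx⟩, (hB0 _).2 hx, rfl⟩
  have hcl : Subgroup.closure (B : Set M) = K.subgroupOf M := by
    apply le_antisymm
    · rw [Subgroup.closure_le, ← hcl0]
      intro x hx
      rw [Finset.mem_coe, hB, Finset.mem_union, Finset.mem_image] at hx
      rcases hx with hx | ⟨y, hy, rfl⟩
      · exact Subgroup.subset_closure hx
      · exact inv_mem (Subgroup.subset_closure hy)
    · rw [← hcl0]
      refine Subgroup.closure_mono fun x hx => ?_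
      rw [Finset.mem_coe, hB]
      exact Finset.mem_union_left _ hx
  have hinf : (Subgroup.closure (B : Set M) : Set M).Infinite := by
    rw [hcl]
    intro hfin
    apply hKinf
    refine (hfin.image (M.subtype)).subset fun x hx => ?_
    exact ⟨⟨x, hKM hx⟩, hx, rfl⟩
  -- the quotient
  have hπ : ∀ x : M, QuotientGroup.mk' (N.subgroupOf M) x = 1 ↔ (x : G) ∈ N := by
    intro x
    rw [← Subgroup.mem_subgroupOf]
    exact QuotientGroup.eq_one_iff x
  have hπB : ∀ b ∈ B, QuotientGroup.mk' (N.subgroupOf M) b = 1 := by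
    intro b hb
    rw [hπ]
    have h1 : b ∈ Subgroup.closure (B : Set M) := Subgroup.subset_closure hb
    rw [hcl, Subgroup.mem_subgroupOf] at h1
    exact hKN h1
  -- the lifts
  have hlift : ∀ q : M ⧸ (N.subgroupOf M), ∃ m : M,
      QuotientGroup.mk' (N.subgroupOf M) m = q ∧ (m : G) ∈ H := by
    intro q
    obtain ⟨m, rfl⟩ := QuotientGroup.mk'_surjective (N.subgroupOf M) q
    obtain ⟨R, hR⟩ : ∃ R : Subgroup M, R = ((H.subgroupOf M).map
        (QuotientGroup.mk' (N.subgroupOf M))).comap (QuotientGroup.mk' (N.subgroupOf M)) :=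
      ⟨_, rfl⟩
    have h1 : M ≤ R.map M.subtype := by
      conv_lhs => rw [hM]
      refine sup_le (fun x hx => ?_) (fun z hz => ?_)
      · refine ⟨⟨x, hHM hx⟩, ?_, rfl⟩
        rw [hR]
        exact ⟨⟨x, hHM hx⟩, hx, rfl⟩
      · refine ⟨⟨z, hKM hz⟩, ?_, rfl⟩
        rw [hR]
        show QuotientGroup.mk' (N.subgroupOf M) ⟨z, hKM hz⟩ ∈
          (H.subgroupOf M).map (QuotientGroup.mk' (N.subgroupOf M))
        rw [(hπ ⟨z, hKM hz⟩).2 (hKN hz)]
        exact one_mem _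
    obtain ⟨m', hm', he⟩ := h1 m.2
    have he' : m' = m := Subtype.ext he
    subst he'
    rw [hR] at hm'
    obtain ⟨h, hh, he2⟩ := hm'
    exact ⟨h, he2, hh⟩
  choose lift hl1 hl2 using hlift
  have hrange : Subgroup.closure (Set.range lift) ≤ H.subgroupOf M := by
    rw [Subgroup.closure_le]
    rintro _ ⟨q, rfl⟩
    exact hl2 q
  have hcom : ∀ x ∈ Subgroup.closure (Set.range lift), ∃ D : Set M, D.Finite ∧
      (∀ d ∈ D, d ∈ Subgroup.closure (B : Set M)) ∧
      ∀ u ∈ Subgroup.closure (B : Set M), ∃ d ∈ D,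
        x * (u * d) * x⁻¹ ∈ Subgroup.closure (B : Set M) := by
    intro x hx
    have hxH : (x : G) ∈ H := hrange hx
    rw [hcl]
    have h1 := hcomm (x : G)⁻¹ (inv_mem hxH)
    obtain ⟨L, hLd⟩ : ∃ L : Subgroup K,
        L = (K.map (MulAut.conj (x : G)⁻¹).toMonoidHom).subgroupOf K := ⟨_, rfl⟩
    have hLm : ∀ y : K, y ∈ L → ∃ w ∈ K, (x : G)⁻¹ * w * (x : G)⁻¹⁻¹ = (y : G) := by
      intro y hy
      rw [hLd, Subgroup.mem_subgroupOf] at hy
      obtain ⟨w, hw, he⟩ := hy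
      exact ⟨w, hw, he⟩
    have h2 : L.index ≠ 0 := by
      rw [hLd]
      exact h1
    have h3 : L.FiniteIndex := ⟨h2⟩
    have h4 : Finite (K ⧸ L) := Subgroup.finite_quotient_of_finiteIndex
    refine ⟨Set.range fun q : K ⧸ L => (⟨((Quotient.out q : K) : G), hKM (Quotient.out q : K).2⟩ : M),
      Set.finite_range _, ?_, ?_⟩
    · rintro _ ⟨q, rfl⟩
      exact (Quotient.out q : K).2
    · intro u hu
      obtain ⟨u', hu'⟩ : ∃ u' : K, (u' : G) = (u : G) := ⟨⟨u, hu⟩, rfl⟩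
      refine ⟨_, ⟨((u'⁻¹ : K) : K ⧸ L), rfl⟩, ?_⟩
      have h5 : ((u'⁻¹ : K) : K ⧸ L) = ((Quotient.out ((u'⁻¹ : K) : K ⧸ L) : K) : K ⧸ L) :=
        (QuotientGroup.out_eq' _).symm
      rw [QuotientGroup.eq, inv_inv] at h5
      obtain ⟨w, hw, he⟩ := hLm _ h5
      rw [Subgroup.mem_subgroupOf]
      have h6 : (x : G) * ((u : G) * ((Quotient.out ((u'⁻¹ : K) : K ⧸ L) : K) : G)) * (x : G)⁻¹
          = w := by
        have he2 : (x : G)⁻¹ * w * (x : G)⁻¹⁻¹
            = (u' : G) * ((Quotient.out ((u'⁻¹ : K) : K ⧸ L) : K) : G) := he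
        rw [← hu', ← he2]
        group
      have h7 : (((x * (u * (⟨((Quotient.out ((u'⁻¹ : K) : K ⧸ L) : K) : G),
          hKM (Quotient.out ((u'⁻¹ : K) : K ⧸ L) : K).2⟩ : M)) * x⁻¹ : M)) : G) = w := h6
      exact (h7 ▸ hw : _)
  have hker : ∀ x ∈ Subgroup.closure (Set.range lift),
      QuotientGroup.mk' (N.subgroupOf M) x = 1 → x ∈ Subgroup.closure (B : Set M) := by
    intro x hx hx1
    rw [hcl, Subgroup.mem_subgroupOf]
    exact hinter ⟨hrange hx, (hπ x).1 hx1⟩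
  have hword := exists_word X hgen
  have hsw : ∀ E : Finset (M ⧸ (N.subgroupOf M)), Sweepable (E : Set (M ⧸ (N.subgroupOf M))) :=
    fun E => hS5 {x : G | x ∈ X ∨ x⁻¹ ∈ X} hword ι ω P hL M.subtype M.subtype_injective B hBi hinf
      (QuotientGroup.mk' (N.subgroupOf M)) hπB lift hl1 hcom hker E
  have htor : ∀ g : M ⧸ (N.subgroupOf M), IsOfFinOrder g := fun g => torsion_of_sweepable g (by
    have := hsw {1, g, g⁻¹}
    simpa using this)
  -- the quotient is finitely generated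
  have hMFG : M.FG := by
    rw [hM]
    exact hHFG.sup hKFG
  have : Group.FG M := (Group.fg_iff_subgroup_fg M).2 hMFG
  have : Group.FG (M ⧸ (N.subgroupOf M)) := QuotientGroup.fg _
  obtain ⟨S1, hS1, hS1f⟩ := Group.fg_iff.1 ‹Group.FG (M ⧸ (N.subgroupOf M))›
  obtain ⟨S, hS⟩ : ∃ S : Finset (M ⧸ (N.subgroupOf M)),
      S = hS1f.toFinset ∪ hS1f.toFinset.image (fun x => x⁻¹) := ⟨_, rfl⟩
  have hSi : ∀ x ∈ S, x⁻¹ ∈ S := by
    intro b hb
    rw [hS, Finset.mem_union, Finset.mem_image] at hb ⊢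
    rcases hb with hb | ⟨y, hy, rfl⟩
    · exact Or.inr ⟨b, hb, rfl⟩
    · rw [inv_inv]
      exact Or.inl hy
  have hSgen : Subgroup.closure (S : Set (M ⧸ (N.subgroupOf M))) = ⊤ := by
    rw [eq_top_iff, ← hS1]
    refine Subgroup.closure_mono fun x hx => ?_
    rw [Finset.mem_coe, hS]
    exact Finset.mem_union_left _ (hS1f.mem_toFinset.2 hx)
  have hfin : Finite (M ⧸ (N.subgroupOf M)) :=
    finite_of_poly S hSi hSgen htor (growth_of_sweepable S hSi (hsw S))
  have h2 : N.relIndex M ≠ 0 := by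
    intro h
    have h2 : Nat.card (M ⧸ (N.subgroupOf M)) = 0 := h
    exact Nat.card_pos.ne' h2
  have h3 : N.relIndex H ≠ 0 := fun h => h2 (Subgroup.relIndex_eq_zero_of_le_right hHM h)
  intro h4
  apply h3
  rw [← Subgroup.inf_relIndex_right]
  refine Subgroup.relIndex_eq_zero_of_le_left ?_ h4
  rw [inf_comm]
  exact hinter

end Pool.Agent.H976.EZFinal5
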