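import Pool.Agent.H724.EZ.Stm5

/-!
# The word for a closed path, commensurated version (project EZ of helper724; variation by helper528 of
helper400's proof)
-/

set_option autoImplicit false

namespace Pool.Agent.H528.EZ

open Pool.Agent.TH719.ED Pool.Agent.H724.EZ

theorem bn_mono {M : Type} (Λ : List (M × Bool)) : Monotone (bn Λ) := by
  intro s t h
  unfold bn
  refine List.Sublist.length_le (List.Sublist.filter _ ?_)
  exact (List.take_prefix_take_left h).sublist

theorem bn_zero {M : Type} (Λ : List (M × Bool)) : bn Λ 0 = 0 := by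
  simp [bn]

theorem bn_succ {M : Type} (Λ : List (M × Bool)) (t : ℕ) : bn Λ (t + 1) ≤ bn Λ t + 1 := by
  unfold bn
  rw [List.take_add_one, List.filter_append, List.length_append]
  have h1 : (Λ[t]?.toList.filter (fun a => a.2)).length ≤ Λ[t]?.toList.length :=
    List.length_filter_le _ _
  have h2 : Λ[t]?.toList.length ≤ 1 := by
    cases Λ[t]? <;> simp
  omega

theorem bn_ge {M : Type} (Λ : List (M × Bool)) (t : ℕ) (h : Λ.length ≤ t) :
    bn Λ t = bn Λ Λ.length := by
  unfold bn
  rw [List.take_of_length_le h, List.take_length]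

theorem bn_le {M : Type} (Λ : List (M × Bool)) (t : ℕ) : bn Λ t ≤ bn Λ Λ.length := by
  rcases le_total t Λ.length with h | h
  · exact bn_mono Λ h
  · exact (bn_ge Λ t h).le

theorem word5 : S_WORD5 := by
  rintro ⟨hE, hF, hM⟩ G M Q _ _ _ X hX j hj B hB hinf π hπB lift hlift hcom hcl0 E
  classical
  have hπc : ∀ x ∈ Subgroup.closure (B : Set M), π x = 1 := by
    intro x hx
    have h1 : Subgroup.closure (B : Set M) ≤ π.ker :=
      (Subgroup.closure_le _).2 fun b hb => MonoidHom.mem_ker.2 (hπB b hb)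
    exact MonoidHom.mem_ker.1 (h1 hx)
  obtain ⟨x0, -, hx0⟩ : ∃ x ∈ (Subgroup.closure (B : Set M) : Set M), x ≠ 1 := by
    by_contra hc
    push Not at hc
    exact hinf ((Set.finite_singleton (1 : M)).subset fun x hx => hc x hx)
  have hp : j x0 ≠ 1 := fun h => hx0 (hj (by rw [h, map_one]))
  have hrep : ∀ g : G, ∃ w : List G, (∀ x ∈ w, x ∈ X) ∧ w.prod = g ∧ w ≠ [] := by
    intro g
    obtain ⟨w1, h1, h2⟩ := hX (j x0)
    obtain ⟨w2, h3, h4⟩ := hX ((j x0)⁻¹ * g)
    refine ⟨w1 ++ w2, fun x hx => ?_, ?_, fun h => ?_⟩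
    · rcases List.mem_append.1 hx with h | h
      · exact h1 x h
      · exact h3 x h
    · rw [List.prod_append, h2, h4, mul_inv_cancel_left]
    · have : w1 = [] := (List.append_eq_nil_iff.1 h).1
      rw [this, List.prod_nil] at h2
      exact hp h2.symm
  choose rep hrX hrp hrn using hrep
  obtain ⟨T, hT⟩ : ∃ T : Set M, T = (B : Set M) ∪ lift '' (E : Set Q) := ⟨_, rfl⟩
  have hTf : T.Finite := by
    rw [hT]
    exact B.finite_toSet.union (E.finite_toSet.image _)
  obtain ⟨Q0, hQ0⟩ : ∃ Q0 : Set G, Q0 = insert 1 (⋃ x ∈ T,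
    (fun k => ((rep (j x)).take k).prod) '' Set.Iic (rep (j x)).length) := ⟨_, rfl⟩
  have hQf : Q0.Finite := by
    rw [hQ0]
    exact (hTf.biUnion fun x _ => (Set.finite_Iic _).image _).insert _
  have hQ1 : (1 : G) ∈ Q0 := by
    rw [hQ0]
    exact Set.mem_insert _ _
  have hQm : ∀ x ∈ T, ∀ k ≤ (rep (j x)).length, ((rep (j x)).take k).prod ∈ Q0 := by
    intro x hx k hk
    rw [hQ0]
    refine Set.mem_insert_of_mem _ (Set.mem_biUnion hx ⟨k, hk, rfl⟩)
  refine ⟨Q0, hQf, fun m S hS0 hSm hS => ?_⟩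
  obtain ⟨Λ, hL1, hL2, hL3, hL4, hL5⟩ := hM ⟨hE, hF⟩ j hj Q0 hQf B hB hinf π hπB lift hlift hcom
    hcl0 E m S hS0 hSm hS
  have hcl : (hv Λ Λ.length)⁻¹ ∈ Subgroup.closure (B : Set M) := Subgroup.inv_mem _ hL5
  obtain ⟨f, hf1, hf2⟩ : ∃ f : List M, (∀ x ∈ f, x ∈ B) ∧ f.prod = (hv Λ Λ.length)⁻¹ := by
    rw [← Subgroup.mem_toSubmonoid, Subgroup.closure_toSubmonoid] at hcl
    obtain ⟨f, h1, h2⟩ := Submonoid.exists_list_of_mem_closure hcl
    refine ⟨f, fun x hx => ?_, h2⟩
    rcases h1 x hx with h | h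
    · exact h
    · have := hB _ (Set.mem_inv.1 h)
      rwa [inv_inv] at this
  obtain ⟨L, hL⟩ : ∃ L : List M, L = Λ.map Prod.fst ++ f := ⟨_, rfl⟩
  have hLT : ∀ x ∈ L, x ∈ T := by
    intro x hx
    rw [hL] at hx
    rw [hT]
    rcases List.mem_append.1 hx with h | h
    · obtain ⟨a, ha, rfl⟩ := List.mem_map.1 h
      rcases hL2 a ha with h1 | ⟨e, he, h1⟩
      · exact Or.inl h1
      · exact Or.inr ⟨e, he, h1.symm⟩
    · exact Or.inl (hf1 x h)
  obtain ⟨Cs, hCs⟩ : ∃ Cs : List (List G), Cs = L.map (fun x => rep (j x)) := ⟨_, rfl⟩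
  have hCn : ∀ C ∈ Cs, C ≠ [] := by
    intro C hC
    rw [hCs] at hC
    obtain ⟨x, -, rfl⟩ := List.mem_map.1 hC
    exact hrn _
  have hprod : ∀ t, ((Cs.take t).flatten).prod = j ((L.take t).prod) := by
    intro t
    rw [hCs, ← List.map_take, List.prod_flatten, List.map_map, map_list_prod]
    congr 1
    refine List.map_congr_left fun x _ => ?_
    exact hrp (j x)
  have hLlen : L.length = Λ.length + f.length := by
    rw [hL, List.length_append, List.length_map]
  have hClen : Cs.length = L.length := by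
    rw [hCs, List.length_map]
  have hhv : hv Λ Λ.length = (Λ.map Prod.fst).prod := by
    unfold hv
    rw [List.take_length]
  have hLprod : L.prod = 1 := by
    rw [hL, List.prod_append, hf2, hhv, mul_inv_cancel]
  have hWprod : Cs.flatten.prod = 1 := by
    have := hprod Cs.length
    rw [List.take_length, hClen, List.take_length, hLprod, map_one] at this
    exact this
  have hhz : ∀ t ≤ Λ.length, (L.take t).prod = hv Λ t := by
    intro t ht
    rw [hL, List.take_append_of_le_length (by rw [List.length_map]; exact ht), ← List.map_take]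
    rfl
  have hz1 : blk Cs ((Cs.take Λ.length).flatten.length) ≤ Λ.length := by
    by_contra hc
    push Not at hc
    obtain ⟨h1, h2⟩ := (lt_blk_iff Cs _ _).1 hc
    rw [List.take_succ_eq_append_getElem h1, List.flatten_append, List.length_append] at h2
    have h4 := hCn _ (List.getElem_mem h1)
    have h5 : 0 < (Cs[Λ.length]).length := List.length_pos_iff.2 h4
    simp only [List.flatten_cons, List.flatten_nil, List.append_nil] at h2
    omega
  have hge : ∀ z, (Cs.take Λ.length).flatten.length ≤ z → Λ.length ≤ blk Cs z := by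
    intro z hz
    rcases Nat.eq_zero_or_pos Λ.length with h0 | h0
    · omega
    · have := (lt_blk_iff Cs (Λ.length - 1) z).2 ⟨by omega, by
        rw [Nat.sub_add_cancel h0]
        exact hz⟩
      omega
  have hkap : ∀ z, (j ((L.take (blk Cs z)).prod))⁻¹ * (Cs.flatten.take z).prod ∈ Q0 := by
    intro z
    obtain ⟨C, k, h1, h2, h3⟩ := take_flatten Cs z
    rw [h3, List.prod_append, hprod, inv_mul_cancel_left]
    rcases h1 with h1 | h1
    · rw [hCs] at h1
      obtain ⟨x, hx, rfl⟩ := List.mem_map.1 h1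
      exact hQm x (hLT x hx) k h2
    · rw [h1, List.take_nil, List.prod_nil]
      exact hQ1
  refine ⟨Cs.flatten, fun z => bn Λ (blk Cs z), fun z => (L.take (blk Cs z)).prod,
    fun z => (j ((L.take (blk Cs z)).prod))⁻¹ * (Cs.flatten.take z).prod,
    (Cs.take Λ.length).flatten.length, fun x hx => ?_, hWprod,
    fun z z' h => bn_mono Λ (blk_mono Cs h), ?_, ?_, fun z => ?_, fun z => ?_, fun z hz => ?_,
    fun z _ => ⟨?_, hkap z, ?_⟩, ?_, ?_, ?_⟩
  · obtain ⟨C, hC, hx⟩ := List.mem_flatten.1 hx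
    rw [hCs] at hC
    obtain ⟨y, -, rfl⟩ := List.mem_map.1 hC
    exact hrX _ x hx
  · change bn Λ (blk Cs 0) = 0
    rw [blk_zero Cs hCn, bn_zero]
  · change bn Λ (blk Cs Cs.flatten.length) = m
    rw [blk_total, bn_ge Λ _ (by omega), hL1]
  · exact (bn_le Λ _).trans hL1.le
  · change bn Λ (blk Cs (z + 1)) ≤ bn Λ (blk Cs z) + 1
    exact (bn_mono Λ (blk_succ_le Cs hCn z)).trans (bn_succ Λ _)
  · change bn Λ (blk Cs z) = m
    rw [bn_ge Λ _ (hge z hz), hL1]
  · change (Cs.flatten.take z).prod = j ((L.take (blk Cs z)).prod) *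
      ((j ((L.take (blk Cs z)).prod))⁻¹ * (Cs.flatten.take z).prod)
    rw [mul_inv_cancel_left]
  · change π ((L.take (blk Cs z)).prod) = S (bn Λ (blk Cs z))
    rcases le_total (blk Cs z) Λ.length with h | h
    · rw [hhz _ h, hL3 _ h]
    · have h1 : (L.take (blk Cs z)).prod = hv Λ Λ.length * (f.take (blk Cs z - Λ.length)).prod := by
        rw [hL, List.take_append, List.length_map, List.take_of_length_le (by
          rw [List.length_map]; exact h), List.prod_append, hhv]
      have h2 : (f.take (blk Cs z - Λ.length)).prod ∈ Subgroup.closure (B : Set M) :=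
        Subgroup.list_prod_mem _ fun x hx => Subgroup.subset_closure
          (hf1 x (List.mem_of_mem_take hx))
      rw [h1, map_mul, hL3 _ le_rfl, hπc _ h2, mul_one, bn_ge Λ _ h]
  · change (j ((L.take (blk Cs 0)).prod))⁻¹ * (Cs.flatten.take 0).prod = 1
    rw [blk_zero Cs hCn]
    simp
  · change (j ((L.take (blk Cs Cs.flatten.length)).prod))⁻¹ *
      (Cs.flatten.take Cs.flatten.length).prod = 1
    rw [blk_total, List.take_length, hWprod, hClen, List.take_length, hLprod, map_one, inv_one,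
      mul_one]
  · intro s e s' e' hse hes hse' hez hel hb1 hb2 heq
    have hbe : blk Cs e' ≤ Λ.length := (blk_mono Cs hez).trans hz1
    have hbs' : blk Cs s' ≤ blk Cs e' := blk_mono Cs hse'
    have hbe' : blk Cs e ≤ blk Cs s' := blk_mono Cs hes
    have hbs : blk Cs s ≤ blk Cs e := blk_mono Cs hse
    refine hL4 _ hbe ⟨blk Cs s, blk Cs e, blk Cs s', hbs, hbe', hbs'.trans hbe, hb1, hb2,
      _, hkap s, _, hkap e, _, hkap s', _, hkap e', ?_⟩
    rw [hhz _ (by omega), hhz _ (by omega), hhz _ (by omega), hhz _ hbe]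
    have key : ∀ a b c d : G, (a⁻¹ * c)⁻¹ * (a⁻¹ * b) * (b⁻¹ * d) = c⁻¹ * d := by
      intro a b c d
      group
    rw [key, key]
    exact heq

end Pool.Agent.H528.EZ
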